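import Mathlib

/-!
# Unit ball graphs and Hamming ball graphs: definitions
-/

set_option autoImplicit false

namespace Pool.Agent.T2h61.SP

/-- The colouring with colour classes `G` and `Gᶜ` has no monochromatic `K_k`. -/
def NoMono {n : ℕ} (G : SimpleGraph (Fin n)) (k : ℕ) : Prop :=
  G.CliqueFree k ∧ Gᶜ.CliqueFree k

/-- `G` is a unit ball graph in dimension `d`: its vertices are points of `ℝ ^ d` and two of them are
adjacent if and only if their distance is at most `1`. -/
def BallGraph {n : ℕ} (G : SimpleGraph (Fin n)) (d : ℕ) : Prop :=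
  ∃ x : Fin n → EuclideanSpace ℝ (Fin d), ∀ u v, u ≠ v → (G.Adj u v ↔ dist (x u) (x v) ≤ 1)

/-- `G` is a Hamming ball graph in dimension `d`: its vertices have labels with `d` bits, and two
vertices are adjacent if and only if their labels differ in at most `r` bits. -/
def HammingGraph {n : ℕ} (G : SimpleGraph (Fin n)) (d : ℕ) : Prop :=
  ∃ (x : Fin n → Fin d → Bool) (r : ℕ), ∀ u v, u ≠ v → (G.Adj u v ↔ hammingDist (x u) (x v) ≤ r)

/-- the largest number of vertices of a colouring without monochromatic `K_k` which is given by the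
unit ball graph of points of `ℝ ^ d` -/
noncomputable def ballOrder (k d : ℕ) : ℕ :=
  sSup {n : ℕ | ∃ G : SimpleGraph (Fin n), NoMono G k ∧ BallGraph G d}

/-- the largest number of vertices of a colouring without monochromatic `K_k` which is given by a
Hamming ball graph of labels with `d` bits -/
noncomputable def hamOrder (k d : ℕ) : ℕ :=
  sSup {n : ℕ | ∃ G : SimpleGraph (Fin n), NoMono G k ∧ HammingGraph G d}

/-- The diagonal Ramsey number `R(k,k)`. -/
noncomputable def ramsey (k : ℕ) : ℕ := sInf {n : ℕ | ∀ G : SimpleGraph (Fin n), ¬ NoMono G k}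

end Pool.Agent.T2h61.SP
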