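import Mathlib
import Pool.Agent.T2h61.SP.Defs

/-!
# Basic facts: Erdős-Szekeres, orders, monotonicity in the dimension
-/

set_option autoImplicit false

namespace Pool.Agent.T2h61.SP

open Real Finset

theorem es {V : Type} (G : SimpleGraph V) : ∀ (a b : ℕ) (S : Finset V),
    (a + b).choose a ≤ S.card → (∃ T ⊆ S, G.IsNClique (a + 1) T) ∨
      (∃ T ⊆ S, Gᶜ.IsNClique (b + 1) T) := by
  classical
  intro a
  induction a with
  | zero =>
    intro b S hS
    have : S.Nonempty := Finset.card_pos.1 (by simpa using hS)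
    obtain ⟨v, hv⟩ := this
    exact Or.inl ⟨{v}, by simpa using hv, by simp⟩
  | succ a iha =>
    intro b
    induction b with
    | zero =>
      intro S hS
      have : S.Nonempty := Finset.card_pos.1 (by
        have : (a + 1 + 0).choose (a + 1) = 1 := by simp
        omega)
      obtain ⟨v, hv⟩ := this
      exact Or.inr ⟨{v}, by simpa using hv, by simp⟩
    | succ b ihb =>
      intro S hS
      have hpos : 0 < (a + 1 + (b + 1)).choose (a + 1) := Nat.choose_pos (by omega)
      obtain ⟨v, hv⟩ := Finset.card_pos.1 (lt_of_lt_of_le hpos hS)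
      set N := (S.erase v).filter (fun w => G.Adj v w) with hN
      set M := (S.erase v).filter (fun w => ¬ G.Adj v w) with hM
      have hc : N.card + M.card + 1 = S.card := by
        have h1 : N.card + M.card = (S.erase v).card := by
          rw [hN, hM]
          convert Finset.card_filter_add_card_filter_not (s := S.erase v) (fun w => G.Adj v w)
        have h2 := Finset.card_erase_add_one hv
        omega
      have hp : (a + 1 + (b + 1)).choose (a + 1) =
          (a + (b + 1)).choose a + (a + 1 + b).choose (a + 1) := by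
        have e1 : a + 1 + (b + 1) = (a + b + 1) + 1 := by ring
        have e2 : a + (b + 1) = a + b + 1 := by ring
        have e3 : a + 1 + b = a + b + 1 := by ring
        rw [e1, e2, e3, Nat.choose_succ_succ]
      rcases le_or_gt ((a + (b + 1)).choose a) N.card with h | h
      · rcases iha (b + 1) N h with ⟨T, hT, hc⟩ | ⟨T, hT, hc⟩
        · refine Or.inl ⟨insert v T, ?_, hc.insert fun w hw => (Finset.mem_filter.1 (hT hw)).2⟩
          refine Finset.insert_subset hv fun w hw => ?_
          exact Finset.mem_of_mem_erase (Finset.mem_filter.1 (hT hw)).1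
        · exact Or.inr ⟨T, fun w hw => Finset.mem_of_mem_erase (Finset.mem_filter.1 (hT hw)).1, hc⟩
      · have h' : (a + 1 + b).choose (a + 1) ≤ M.card := by omega
        rcases ihb M h' with ⟨T, hT, hc⟩ | ⟨T, hT, hc⟩
        · exact Or.inl ⟨T, fun w hw => Finset.mem_of_mem_erase (Finset.mem_filter.1 (hT hw)).1, hc⟩
        · refine Or.inr ⟨insert v T, ?_, hc.insert fun w hw => ?_⟩
          · refine Finset.insert_subset hv fun w hw => ?_
            exact Finset.mem_of_mem_erase (Finset.mem_filter.1 (hT hw)).1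
          · rw [SimpleGraph.compl_adj]
            have h2 := Finset.mem_filter.1 (hT hw)
            exact ⟨(Finset.ne_of_mem_erase h2.1).symm, h2.2⟩

theorem NoMono.lt {n k : ℕ} {G : SimpleGraph (Fin n)} (h : NoMono G k) : n < 4 ^ k := by
  rcases k with _ | k
  · exfalso
    exact h.1 ∅ (by simp [SimpleGraph.isNClique_iff])
  · by_contra hcon
    push Not at hcon
    have h1 : (k + k).choose k ≤ (Finset.univ : Finset (Fin n)).card := by
      rw [Finset.card_univ, Fintype.card_fin]
      have h2 : (k + k).choose k ≤ 2 ^ (k + k) := Nat.choose_le_two_pow _ _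
      have h3 : 2 ^ (k + k) ≤ 4 ^ (k + 1) := by
        rw [show (4:ℕ) = 2 ^ 2 by norm_num, ← pow_mul]
        exact Nat.pow_le_pow_right (by norm_num) (by omega)
      omega
    rcases es G k k Finset.univ h1 with ⟨T, _, hT⟩ | ⟨T, _, hT⟩
    · exact h.1 T hT
    · exact h.2 T hT

theorem bdd_ball (k d : ℕ) : BddAbove {n : ℕ | ∃ G : SimpleGraph (Fin n), NoMono G k ∧
    BallGraph G d} := ⟨4 ^ k, fun _ ⟨_, h, _⟩ => h.lt.le⟩

theorem bdd_ham (k d : ℕ) : BddAbove {n : ℕ | ∃ G : SimpleGraph (Fin n), NoMono G k ∧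
    HammingGraph G d} := ⟨4 ^ k, fun _ ⟨_, h, _⟩ => h.lt.le⟩

theorem le_ballOrder {n k d : ℕ} {G : SimpleGraph (Fin n)} (h1 : NoMono G k)
    (h2 : BallGraph G d) : n ≤ ballOrder k d := le_csSup (bdd_ball k d) ⟨G, h1, h2⟩

theorem le_hamOrder {n k d : ℕ} {G : SimpleGraph (Fin n)} (h1 : NoMono G k)
    (h2 : HammingGraph G d) : n ≤ hamOrder k d := le_csSup (bdd_ham k d) ⟨G, h1, h2⟩

theorem noMono_top {n k : ℕ} (h : n < k) (G : SimpleGraph (Fin n)) : NoMono G k :=
  ⟨SimpleGraph.cliqueFree_of_card_lt (by simpa using h),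
    SimpleGraph.cliqueFree_of_card_lt (by simpa using h)⟩

theorem hammingGraph_top (n d : ℕ) : HammingGraph (⊤ : SimpleGraph (Fin n)) d :=
  ⟨fun _ _ => false, 0, fun u v huv => by simp [huv]⟩

theorem pred_le_hamOrder (k d : ℕ) (hk : 1 ≤ k) : k - 1 ≤ hamOrder k d :=
  le_hamOrder (noMono_top (by omega) ⊤) (hammingGraph_top _ d)

theorem HammingGraph.ball {n d : ℕ} {G : SimpleGraph (Fin n)} (h : HammingGraph G d) :
    BallGraph G d := by
  obtain ⟨x, r, hx⟩ := h
  set c : ℝ := 1 / √(4 * r + 2) with hc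
  have hs : 0 < √(4 * (r:ℝ) + 2) := Real.sqrt_pos.2 (by positivity)
  have hc2 : c ^ 2 * (4 * r + 2) = 1 := by
    rw [hc, div_pow, Real.sq_sqrt (by positivity)]; field_simp
  refine ⟨fun v => WithLp.toLp 2 (fun i => if x v i then c else -c), fun u v huv => ?_⟩
  rw [hx u v huv, EuclideanSpace.dist_eq]
  have h1 : ∑ i, dist ((WithLp.toLp 2 (fun i => if x u i then c else -c) :
      EuclideanSpace ℝ (Fin d)) i) ((WithLp.toLp 2 (fun i => if x v i then c else -c) :
      EuclideanSpace ℝ (Fin d)) i) ^ 2 = 4 * c ^ 2 * hammingDist (x u) (x v) := by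
    unfold hammingDist
    rw [← Finset.sum_boole, Finset.mul_sum]
    refine Finset.sum_congr rfl fun i _ => ?_
    rw [Real.dist_eq, sq_abs]
    simp only
    cases x u i <;> cases x v i <;> simp <;> ring
  rw [h1, Real.sqrt_le_one]
  have hcpos : 0 < c ^ 2 := by positivity
  constructor
  · intro h2
    have h3 : (hammingDist (x u) (x v) : ℝ) ≤ r := by exact_mod_cast h2
    nlinarith
  · intro h2
    have h3 : (hammingDist (x u) (x v) : ℝ) < r + 1 := by
      by_contra hcon
      push Not at hcon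
      nlinarith
    have h4 : hammingDist (x u) (x v) < r + 1 := by exact_mod_cast h3
    omega

theorem hamOrder_le_ballOrder (k d : ℕ) (hk : 1 ≤ k) : hamOrder k d ≤ ballOrder k d := by
  refine csSup_le ⟨k - 1, ⊤, noMono_top (by omega) ⊤, hammingGraph_top _ d⟩ ?_
  rintro n ⟨G, h1, h2⟩
  exact le_ballOrder h1 h2.ball

theorem HammingGraph.mono {n d d' : ℕ} {G : SimpleGraph (Fin n)} (h : HammingGraph G d)
    (hd : d ≤ d') : HammingGraph G d' := by
  obtain ⟨x, r, hx⟩ := h
  refine ⟨fun v i => if h : (i : ℕ) < d then x v ⟨i, h⟩ else false, r, fun u v huv => ?_⟩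
  rw [hx u v huv]
  have h1 : hammingDist (fun i : Fin d' => if h : (i : ℕ) < d then x u ⟨i, h⟩ else false)
      (fun i : Fin d' => if h : (i : ℕ) < d then x v ⟨i, h⟩ else false) =
      hammingDist (x u) (x v) := by
    unfold hammingDist
    symm
    apply Finset.card_bij (fun i _ => Fin.castLE hd i)
    · intro i hi
      have := (Finset.mem_filter.1 hi).2
      simpa using this
    · intro i _ j _ hij
      exact Fin.castLE_injective hd hij
    · intro j hj
      have h2 := (Finset.mem_filter.1 hj).2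
      by_cases h3 : (j : ℕ) < d
      · refine ⟨⟨j, h3⟩, ?_, by ext; simp⟩
        simp only [h3, dif_pos] at h2
        simpa using h2
      · simp [h3] at h2
  rw [h1]

theorem BallGraph.mono {n d d' : ℕ} {G : SimpleGraph (Fin n)} (h : BallGraph G d)
    (hd : d ≤ d') : BallGraph G d' := by
  obtain ⟨x, hx⟩ := h
  refine ⟨fun v => WithLp.toLp 2 (fun i => if h : (i : ℕ) < d then x v ⟨i, h⟩ else 0),
    fun u v huv => ?_⟩
  rw [hx u v huv, EuclideanSpace.dist_eq, EuclideanSpace.dist_eq]
  have h1 : ∑ i : Fin d', dist ((WithLp.toLp 2 (fun i : Fin d' => if h : (i : ℕ) < d then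
      x u ⟨i, h⟩ else 0) : EuclideanSpace ℝ (Fin d')) i) ((WithLp.toLp 2 (fun i : Fin d' =>
      if h : (i : ℕ) < d then x v ⟨i, h⟩ else 0) : EuclideanSpace ℝ (Fin d')) i) ^ 2 =
      ∑ i : Fin d, dist (x u i) (x v i) ^ 2 := by
    symm
    have h2 : ∑ i : Fin d, dist (x u i) (x v i) ^ 2 = ∑ j ∈ Finset.univ.image (Fin.castLE hd),
        dist ((WithLp.toLp 2 (fun i : Fin d' => if h : (i : ℕ) < d then
        x u ⟨i, h⟩ else 0) : EuclideanSpace ℝ (Fin d')) j) ((WithLp.toLp 2 (fun i : Fin d' =>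
        if h : (i : ℕ) < d then x v ⟨i, h⟩ else 0) : EuclideanSpace ℝ (Fin d')) j) ^ 2 := by
      rw [Finset.sum_image (fun i _ j _ hij => Fin.castLE_injective hd hij)]
      refine Finset.sum_congr rfl fun i _ => ?_
      simp
    rw [h2]
    apply Finset.sum_subset (Finset.subset_univ _)
    intro j _ hj
    have h3 : ¬ (j : ℕ) < d := by
      intro h3
      apply hj
      exact Finset.mem_image.2 ⟨⟨j, h3⟩, Finset.mem_univ _, by ext; simp⟩
    simp [h3]
  rw [h1]

theorem hamOrder_mono {k d d' : ℕ} (hk : 1 ≤ k) (hd : d ≤ d') : hamOrder k d ≤ hamOrder k d' := by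
  refine csSup_le ⟨k - 1, ⊤, noMono_top (by omega) ⊤, hammingGraph_top _ d⟩ ?_
  rintro n ⟨G, h1, h2⟩
  exact le_hamOrder h1 (h2.mono hd)

/-- An upper bound for all colourings of the family bounds the order. -/
theorem ballOrder_le {k d : ℕ} {B : ℝ} (hk : 1 ≤ k)
    (h : ∀ (n : ℕ) (G : SimpleGraph (Fin n)), NoMono G k → BallGraph G d → (n : ℝ) ≤ B) :
    (ballOrder k d : ℝ) ≤ B := by
  have hne : {n : ℕ | ∃ G : SimpleGraph (Fin n), NoMono G k ∧ BallGraph G d}.Nonempty :=
    ⟨k - 1, ⊤, noMono_top (by omega) ⊤, (hammingGraph_top _ d).ball⟩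
  obtain ⟨G, h1, h2⟩ := Nat.sSup_mem hne (bdd_ball k d)
  exact h _ G h1 h2

end Pool.Agent.T2h61.SP
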