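import Mathlib

/-!
# The two-point inequality behind the `(1 + ρ, 2)` hypercontractive inequality
-/

set_option autoImplicit false

namespace Pool.Agent.T2h61.SP

open Real

theorem odd_part {q y : ℝ} (hq0 : 0 ≤ q) (hq1 : q ≤ 1) (hy0 : 0 ≤ y) (hy1 : y ≤ 1) :
    0 ≤ (1 + y) ^ q - (1 - y) ^ q - 2 * q * y := by
  have hmono : MonotoneOn (fun y : ℝ => (1 + y) ^ q - (1 - y) ^ q - 2 * q * y) (Set.Icc 0 1) := by
    apply monotoneOn_of_deriv_nonneg (convex_Icc 0 1)
    · apply ContinuousOn.sub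
      · apply ContinuousOn.sub
        · exact ContinuousOn.rpow_const (by fun_prop) (fun x _ => Or.inr hq0)
        · exact ContinuousOn.rpow_const (by fun_prop) (fun x _ => Or.inr hq0)
      · fun_prop
    · intro x hx
      rw [interior_Icc] at hx
      have h1 : HasDerivAt (fun y : ℝ => (1 + y) ^ q) (1 * q * (1 + x) ^ (q - 1)) x :=
        ((hasDerivAt_id x).const_add 1).rpow_const (Or.inl (by simp only [id]; linarith [hx.1]))
      have h2 : HasDerivAt (fun y : ℝ => (1 - y) ^ q) ((-1) * q * (1 - x) ^ (q - 1)) x :=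
        ((hasDerivAt_id x).const_sub 1).rpow_const (Or.inl (by simp only [id]; linarith [hx.2]))
      have h3 : HasDerivAt (fun y : ℝ => 2 * q * y) (2 * q * 1) x :=
        (hasDerivAt_id x).const_mul (2 * q)
      exact ((h1.sub h2).sub h3).differentiableAt.differentiableWithinAt
    · intro x hx
      rw [interior_Icc] at hx
      have h1 : HasDerivAt (fun y : ℝ => (1 + y) ^ q) (1 * q * (1 + x) ^ (q - 1)) x :=
        ((hasDerivAt_id x).const_add 1).rpow_const (Or.inl (by simp only [id]; linarith [hx.1]))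
      have h2 : HasDerivAt (fun y : ℝ => (1 - y) ^ q) ((-1) * q * (1 - x) ^ (q - 1)) x :=
        ((hasDerivAt_id x).const_sub 1).rpow_const (Or.inl (by simp only [id]; linarith [hx.2]))
      have h3 : HasDerivAt (fun y : ℝ => 2 * q * y) (2 * q * 1) x :=
        (hasDerivAt_id x).const_mul (2 * q)
      have h4 := ((h1.sub h2).sub h3).deriv
      have h5 : deriv (fun y : ℝ => (1 + y) ^ q - (1 - y) ^ q - 2 * q * y) x =
          1 * q * (1 + x) ^ (q - 1) - (-1) * q * (1 - x) ^ (q - 1) - 2 * q * 1 := h4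
      rw [h5]
      set a := (1 + x) ^ (q - 1) with ha
      set b := (1 - x) ^ (q - 1) with hb
      have ha0 : 0 < a := rpow_pos_of_pos (by linarith [hx.1]) _
      have hb0 : 0 < b := rpow_pos_of_pos (by linarith [hx.2]) _
      have hab : 1 ≤ a * b := by
        rw [ha, hb, ← mul_rpow (by linarith [hx.1]) (by linarith [hx.2])]
        apply one_le_rpow_of_pos_of_le_one_of_nonpos
        · nlinarith [hx.1, hx.2]
        · nlinarith [hx.1, hx.2]
        · linarith
      have hab2 : 2 ≤ a + b := by nlinarith [sq_nonneg (a - b)]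
      nlinarith
  have h := hmono (Set.left_mem_Icc.2 zero_le_one) (⟨hy0, hy1⟩ : y ∈ Set.Icc (0:ℝ) 1) hy0
  simp at h
  linarith

theorem even_part {p y : ℝ} (hp1 : 1 ≤ p) (hp2 : p ≤ 2) (hy0 : 0 ≤ y) (hy1 : y ≤ 1) :
    1 + p * (p - 1) / 2 * y ^ 2 ≤ ((1 + y) ^ p + (1 - y) ^ p) / 2 := by
  have hmono : MonotoneOn (fun y : ℝ => ((1 + y) ^ p + (1 - y) ^ p) / 2 - p * (p - 1) / 2 * y ^ 2)
      (Set.Icc 0 1) := by
    have hd : ∀ x ∈ Set.Ioo (0:ℝ) 1, HasDerivAt
        (fun y : ℝ => ((1 + y) ^ p + (1 - y) ^ p) / 2 - p * (p - 1) / 2 * y ^ 2)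
        ((1 * p * (1 + x) ^ (p - 1) + (-1) * p * (1 - x) ^ (p - 1)) / 2
          - p * (p - 1) / 2 * (2 * x)) x := by
      intro x hx
      have h1 : HasDerivAt (fun y : ℝ => (1 + y) ^ p) (1 * p * (1 + x) ^ (p - 1)) x :=
        ((hasDerivAt_id x).const_add 1).rpow_const (Or.inr hp1)
      have h2 : HasDerivAt (fun y : ℝ => (1 - y) ^ p) ((-1) * p * (1 - x) ^ (p - 1)) x :=
        ((hasDerivAt_id x).const_sub 1).rpow_const (Or.inr hp1)
      have h3 : HasDerivAt (fun y : ℝ => p * (p - 1) / 2 * y ^ 2) (p * (p - 1) / 2 * (2 * x)) x := by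
        have := (hasDerivAt_pow 2 x).const_mul (p * (p - 1) / 2)
        simpa using this
      exact ((h1.add h2).div_const 2).sub h3
    apply monotoneOn_of_deriv_nonneg (convex_Icc 0 1)
    · apply ContinuousOn.sub
      · apply ContinuousOn.div_const
        apply ContinuousOn.add
        · exact ContinuousOn.rpow_const (by fun_prop) (fun x _ => Or.inr (by linarith))
        · exact ContinuousOn.rpow_const (by fun_prop) (fun x _ => Or.inr (by linarith))
      · fun_prop
    · intro x hx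
      rw [interior_Icc] at hx
      exact (hd x hx).differentiableAt.differentiableWithinAt
    · intro x hx
      rw [interior_Icc] at hx
      rw [(hd x hx).deriv]
      have := odd_part (q := p - 1) (y := x) (by linarith) (by linarith) hx.1.le hx.2.le
      nlinarith
  have h := hmono (Set.left_mem_Icc.2 zero_le_one) (⟨hy0, hy1⟩ : y ∈ Set.Icc (0:ℝ) 1) hy0
  simp at h
  linarith

/-- The two-point inequality. -/
theorem two_point {ρ a b : ℝ} (hρ0 : 0 ≤ ρ) (hρ1 : ρ ≤ 1) (ha : 0 ≤ a) (hb : 0 ≤ b) :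
    (1 + ρ) * (a ^ 2 + b ^ 2) + 2 * (1 - ρ) * (a * b) ≤
      4 * ((a ^ (1 + ρ) + b ^ (1 + ρ)) / 2) ^ (2 / (1 + ρ)) := by
  wlog hab : b ≤ a generalizing a b
  · have h := this hb ha (le_of_not_ge hab)
    have e1 : (1 + ρ) * (a ^ 2 + b ^ 2) + 2 * (1 - ρ) * (a * b) =
      (1 + ρ) * (b ^ 2 + a ^ 2) + 2 * (1 - ρ) * (b * a) := by ring
    have e2 : a ^ (1 + ρ) + b ^ (1 + ρ) = b ^ (1 + ρ) + a ^ (1 + ρ) := add_comm _ _
    rw [e1, e2]
    exact h
  rcases ha.eq_or_lt with h0 | h0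
  · have hb0 : b = 0 := le_antisymm (h0 ▸ hab) hb
    subst hb0
    rw [← h0]
    have : (0:ℝ) ^ (1 + ρ) = 0 := zero_rpow (by linarith)
    rw [this]
    have h2 : (2 / (1 + ρ)) ≠ 0 := by positivity
    simp [zero_rpow h2]
  set m := (a + b) / 2 with hm
  have hm0 : 0 < m := by positivity
  set y := (a - b) / (a + b) with hy
  have hy0 : 0 ≤ y := div_nonneg (by linarith) (by linarith)
  have hy1 : y ≤ 1 := (div_le_one (by linarith)).2 (by linarith)
  have ea : a = m * (1 + y) := by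
    rw [hm, hy]; field_simp; ring
  have eb : b = m * (1 - y) := by
    rw [hm, hy]; field_simp; ring
  set p := 1 + ρ with hp
  have hp0 : 0 < p := by linarith
  set g := ((1 + y) ^ p + (1 - y) ^ p) / 2 with hg
  have hg1 : 1 + p * (p - 1) / 2 * y ^ 2 ≤ g := even_part (by linarith) (by linarith) hy0 hy1
  have e3 : (a ^ p + b ^ p) / 2 = m ^ p * g := by
    rw [ea, eb, mul_rpow hm0.le (by linarith), mul_rpow hm0.le (by linarith), hg]
    ring
  have hgpos : 0 ≤ g := by
    have h1 : 0 ≤ p * (p - 1) / 2 * y ^ 2 := by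
      have : 0 ≤ p - 1 := by rw [hp]; linarith
      positivity
    linarith
  have e4 : (m ^ p * g) ^ (2 / p) = m ^ 2 * g ^ (2 / p) := by
    rw [mul_rpow (rpow_nonneg hm0.le _) hgpos, ← rpow_mul hm0.le]
    congr 1
    rw [show p * (2 / p) = (2 : ℕ) by field_simp; norm_num, rpow_natCast]
  rw [e3, e4]
  have e5 : p * (a ^ 2 + b ^ 2) + 2 * (1 - ρ) * (a * b) = 4 * m ^ 2 * (1 + ρ * y ^ 2) := by
    rw [ea, eb, hp]; ring
  rw [e5]
  have key : 1 + ρ * y ^ 2 ≤ g ^ (2 / p) := by
    have h1 : (1 + ρ * y ^ 2) ^ (p / 2) ≤ 1 + p / 2 * (ρ * y ^ 2) :=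
      rpow_one_add_le_one_add_mul_self (by nlinarith [sq_nonneg y]) (by positivity) (by linarith)
    have h2 : (1 + ρ * y ^ 2) ^ (p / 2) ≤ g := by
      refine h1.trans (le_trans (le_of_eq ?_) hg1)
      rw [hp]; ring
    have h3 : 1 + ρ * y ^ 2 = ((1 + ρ * y ^ 2) ^ (p / 2)) ^ (2 / p) := by
      rw [← rpow_mul (by positivity)]
      rw [show p / 2 * (2 / p) = 1 by field_simp, rpow_one]
    rw [h3]
    exact rpow_le_rpow (rpow_nonneg (by positivity) _) h2 (by positivity)
  nlinarith [mul_le_mul_of_nonneg_left key (show 0 ≤ 4 * m ^ 2 by positivity)]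

end Pool.Agent.T2h61.SP
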