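import Mathlib
import Pool.Agent.T2h61.SP.TwoPoint

/-!
# Correlated pairs on the cube: the quadratic form with kernel `∏ (1 + ρ x_c y_c)`
-/

set_option autoImplicit false

namespace Pool.Agent.T2h61.SP

open Real Finset

/-- the sign of a Boolean -/
def sg (b : Bool) : ℝ := if b then 1 else -1

theorem sg_mul (a b : Bool) : sg a * sg b = if a = b then 1 else -1 := by
  cases a <;> cases b <;> simp [sg]

/-- the kernel -/
noncomputable def W (ρ : ℝ) {d : ℕ} (x y : Fin d → Bool) : ℝ :=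
  ∏ c, (1 + ρ * (sg (x c) * sg (y c)))

noncomputable def BF (ρ : ℝ) {d : ℕ} (f g : (Fin d → Bool) → ℝ) : ℝ :=
  ∑ x, ∑ y, f x * g y * W ρ x y

noncomputable def chi {d : ℕ} (S : Finset (Fin d)) (x : Fin d → Bool) : ℝ := ∏ c ∈ S, sg (x c)

noncomputable def co {d : ℕ} (f : (Fin d → Bool) → ℝ) (S : Finset (Fin d)) : ℝ :=
  ∑ x, f x * chi S x

theorem W_fourier (ρ : ℝ) {d : ℕ} (x y : Fin d → Bool) :
    W ρ x y = ∑ S : Finset (Fin d), ρ ^ S.card * (chi S x * chi S y) := by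
  unfold W chi
  rw [Finset.prod_one_add]
  rw [Finset.powerset_univ]
  apply Finset.sum_congr rfl
  intro S _
  rw [Finset.prod_mul_distrib, Finset.prod_const, Finset.prod_mul_distrib]

theorem BF_fourier (ρ : ℝ) {d : ℕ} (f g : (Fin d → Bool) → ℝ) :
    BF ρ f g = ∑ S : Finset (Fin d), ρ ^ S.card * (co f S * co g S) := by
  have h1 : BF ρ f g = ∑ x : Fin d → Bool, ∑ y : Fin d → Bool, ∑ S : Finset (Fin d),
      ρ ^ S.card * ((f x * chi S x) * (g y * chi S y)) := by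
    unfold BF
    refine Finset.sum_congr rfl fun x _ => Finset.sum_congr rfl fun y _ => ?_
    rw [W_fourier, Finset.mul_sum]
    exact Finset.sum_congr rfl fun S _ => by ring
  have h2 : ∑ S : Finset (Fin d), ρ ^ S.card * (co f S * co g S) =
      ∑ S : Finset (Fin d), ∑ x : Fin d → Bool, ∑ y : Fin d → Bool,
      ρ ^ S.card * ((f x * chi S x) * (g y * chi S y)) := by
    refine Finset.sum_congr rfl fun S _ => ?_
    unfold co
    rw [Finset.sum_mul_sum, Finset.mul_sum]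
    exact Finset.sum_congr rfl fun x _ => by rw [Finset.mul_sum]
  rw [h1, h2, Finset.sum_comm' (s := Finset.univ) (t := fun _ => Finset.univ)
    (t' := Finset.univ) (s' := fun _ => Finset.univ) (by simp)]
  rw [Finset.sum_comm]
  have h3 : ∀ x : Fin d → Bool, ∑ y : Fin d → Bool, ∑ S : Finset (Fin d),
      ρ ^ S.card * ((f x * chi S x) * (g y * chi S y)) =
      ∑ S : Finset (Fin d), ∑ y : Fin d → Bool,
      ρ ^ S.card * ((f x * chi S x) * (g y * chi S y)) := fun x => Finset.sum_comm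
  rw [Finset.sum_congr rfl fun x _ => h3 x, Finset.sum_comm]

theorem BF_nonneg {ρ : ℝ} (hρ : 0 ≤ ρ) {d : ℕ} (f : (Fin d → Bool) → ℝ) : 0 ≤ BF ρ f f := by
  rw [BF_fourier]
  exact Finset.sum_nonneg fun S _ => mul_nonneg (pow_nonneg hρ _) (mul_self_nonneg _)

theorem BF_ge {ρ : ℝ} (hρ : 0 ≤ ρ) {d : ℕ} (f : (Fin d → Bool) → ℝ) :
    (∑ x, f x) ^ 2 ≤ BF ρ f f := by
  rw [BF_fourier]
  have h := Finset.single_le_sum (f := fun S : Finset (Fin d) => ρ ^ S.card * (co f S * co f S))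
    (fun S _ => mul_nonneg (pow_nonneg hρ _) (mul_self_nonneg _)) (Finset.mem_univ ∅)
  refine le_trans (le_of_eq ?_) h
  simp [co, chi, sq]

theorem BF_cs {ρ : ℝ} (hρ : 0 ≤ ρ) {d : ℕ} (f g : (Fin d → Bool) → ℝ) :
    BF ρ f g ≤ √(BF ρ f f) * √(BF ρ g g) := by
  have h : (BF ρ f g) ^ 2 ≤ BF ρ f f * BF ρ g g := by
    rw [BF_fourier, BF_fourier, BF_fourier]
    have h1 := Finset.sum_mul_sq_le_sq_mul_sq (Finset.univ : Finset (Finset (Fin d)))
      (fun S => √(ρ ^ S.card) * co f S) (fun S => √(ρ ^ S.card) * co g S)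
    have e : ∀ S : Finset (Fin d), √(ρ ^ S.card) * √(ρ ^ S.card) = ρ ^ S.card :=
      fun S => Real.mul_self_sqrt (pow_nonneg hρ _)
    have e1 : ∀ u v : (Fin d → Bool) → ℝ, ∀ S : Finset (Fin d),
        √(ρ ^ S.card) * co u S * (√(ρ ^ S.card) * co v S) = ρ ^ S.card * (co u S * co v S) := by
      intro u v S
      rw [← e S]; simp only [Real.sqrt_mul_self (Real.sqrt_nonneg _)]; ring
    have e2 : ∀ u : (Fin d → Bool) → ℝ, ∀ S : Finset (Fin d),
        (√(ρ ^ S.card) * co u S) ^ 2 = ρ ^ S.card * (co u S * co u S) := by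
      intro u S
      rw [sq]; exact e1 u u S
    simp only [e1, e2] at h1
    exact h1
  rw [← Real.sqrt_mul (BF_nonneg hρ f)]
  exact Real.le_sqrt_of_sq_le h

theorem sum_cube_succ {d : ℕ} (f : (Fin (d + 1) → Bool) → ℝ) :
    ∑ x, f x = ∑ b : Bool, ∑ x : Fin d → Bool, f (Fin.cons b x) := by
  rw [← Fintype.sum_prod_type']
  exact (Equiv.sum_comp (Fin.consEquiv (fun _ : Fin (d + 1) => Bool)) f).symm

theorem W_cons (ρ : ℝ) {d : ℕ} (a b : Bool) (x y : Fin d → Bool) :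
    W ρ (Fin.cons a x : Fin (d + 1) → Bool) (Fin.cons b y) =
      (1 + ρ * (sg a * sg b)) * W ρ x y := by
  unfold W
  rw [Fin.prod_univ_succ]
  simp

theorem BF_succ (ρ : ℝ) {d : ℕ} (f : (Fin (d + 1) → Bool) → ℝ) :
    BF ρ f f = (1 + ρ) * (BF ρ (fun x => f (Fin.cons false x)) (fun x => f (Fin.cons false x)) +
      BF ρ (fun x => f (Fin.cons true x)) (fun x => f (Fin.cons true x))) +
      2 * (1 - ρ) * BF ρ (fun x => f (Fin.cons false x)) (fun x => f (Fin.cons true x)) := by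
  have hsymm : BF ρ (fun x => f (Fin.cons true x)) (fun x => f (Fin.cons false x)) =
      BF ρ (fun x => f (Fin.cons false x)) (fun x => f (Fin.cons true x)) := by
    rw [BF_fourier, BF_fourier]
    exact Finset.sum_congr rfl fun S _ => by ring
  have h : BF ρ f f = ∑ a : Bool, ∑ b : Bool, (1 + ρ * (sg a * sg b)) *
      BF ρ (fun x => f (Fin.cons a x)) (fun x => f (Fin.cons b x)) := by
    unfold BF
    rw [sum_cube_succ]
    refine Finset.sum_congr rfl fun a _ => ?_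
    have : ∀ x : Fin d → Bool, ∑ y : Fin (d + 1) → Bool, f (Fin.cons a x) * f y *
        W ρ (Fin.cons a x : Fin (d + 1) → Bool) y = ∑ b : Bool, ∑ y : Fin d → Bool,
        (1 + ρ * (sg a * sg b)) * (f (Fin.cons a x) * f (Fin.cons b y) * W ρ x y) := by
      intro x
      rw [sum_cube_succ]
      refine Finset.sum_congr rfl fun b _ => Finset.sum_congr rfl fun y _ => ?_
      rw [W_cons]; ring
    rw [Finset.sum_congr rfl fun x _ => this x, Finset.sum_comm]
    refine Finset.sum_congr rfl fun b _ => ?_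
    rw [Finset.mul_sum]
    refine Finset.sum_congr rfl fun x _ => ?_
    rw [Finset.mul_sum]
  rw [h]
  simp only [Fintype.sum_bool, sg_mul]
  rw [hsymm]
  simp
  ring

/-- Hypercontractive estimate: `⟨f, T_ρ f⟩ ≤ ‖f‖_{1 + ρ}^2`, not normalised. -/
theorem BF_le {ρ : ℝ} (hρ0 : 0 ≤ ρ) (hρ1 : ρ ≤ 1) : ∀ (d : ℕ) (f : (Fin d → Bool) → ℝ),
    (∀ x, 0 ≤ f x) →
    BF ρ f f ≤ (2 : ℝ) ^ (d * (2 - 2 / (1 + ρ))) * (∑ x, f x ^ (1 + ρ)) ^ (2 / (1 + ρ)) := by
  intro d
  have hp0 : 0 < 1 + ρ := by linarith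
  induction d with
  | zero =>
    intro f hf
    have h1 : BF ρ f f = f ![] * f ![] := by
      unfold BF W
      rw [Fintype.sum_subsingleton _ (![] : Fin 0 → Bool),
        Fintype.sum_subsingleton _ (![] : Fin 0 → Bool)]
      simp only [Finset.univ_eq_empty, Finset.prod_empty, mul_one]
    rw [h1, Fintype.sum_subsingleton _ (![] : Fin 0 → Bool)]
    rw [← rpow_mul (hf _)]
    rw [show (1 + ρ) * (2 / (1 + ρ)) = (2 : ℕ) by field_simp; norm_num, rpow_natCast]
    simp only [Nat.cast_zero, zero_mul, rpow_zero, one_mul]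
    exact le_of_eq (by ring)
  | succ d ih =>
    intro f hf
    set p := 1 + ρ with hp
    set f0 : (Fin d → Bool) → ℝ := fun x => f (Fin.cons false x) with hf0
    set f1 : (Fin d → Bool) → ℝ := fun x => f (Fin.cons true x) with hf1
    have hn0 : ∀ x, 0 ≤ f0 x := fun x => hf _
    have hn1 : ∀ x, 0 ≤ f1 x := fun x => hf _
    have i0 := ih f0 hn0
    have i1 := ih f1 hn1
    set F0 := ∑ x, f0 x ^ p with hF0
    set F1 := ∑ x, f1 x ^ p with hF1
    have hF0n : 0 ≤ F0 := Finset.sum_nonneg fun x _ => rpow_nonneg (hn0 x) _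
    have hF1n : 0 ≤ F1 := Finset.sum_nonneg fun x _ => rpow_nonneg (hn1 x) _
    set σ := 2 / p with hσ
    set a := (2 : ℝ) ^ (d * (2 - σ) / 2) * F0 ^ (1 / p) with ha
    set b := (2 : ℝ) ^ (d * (2 - σ) / 2) * F1 ^ (1 / p) with hb
    have ha0 : 0 ≤ a := by positivity
    have hb0 : 0 ≤ b := by positivity
    have sqa : ∀ F : ℝ, 0 ≤ F → ((2 : ℝ) ^ (d * (2 - σ) / 2) * F ^ (1 / p)) ^ 2 =
        (2 : ℝ) ^ (d * (2 - σ)) * F ^ σ := by
      intro F hF
      rw [mul_pow, ← rpow_natCast, ← rpow_natCast, ← rpow_mul (by norm_num), ← rpow_mul hF]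
      congr 2
      · push_cast; ring
      · rw [hσ]; push_cast; ring
    have i0' : √(BF ρ f0 f0) ≤ a := by
      rw [Real.sqrt_le_left ha0, ha, sqa F0 hF0n]; exact i0
    have i1' : √(BF ρ f1 f1) ≤ b := by
      rw [Real.sqrt_le_left hb0, hb, sqa F1 hF1n]; exact i1
    have i0s : BF ρ f0 f0 ≤ a ^ 2 := by rw [ha, sqa F0 hF0n]; exact i0
    have i1s : BF ρ f1 f1 ≤ b ^ 2 := by rw [hb, sqa F1 hF1n]; exact i1
    have hc : BF ρ f0 f1 ≤ a * b := (BF_cs hρ0 f0 f1).trans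
      (mul_le_mul i0' i1' (Real.sqrt_nonneg _) ha0)
    have h1 : BF ρ f f ≤ (1 + ρ) * (a ^ 2 + b ^ 2) + 2 * (1 - ρ) * (a * b) := by
      rw [BF_succ]
      have h2 : (1 + ρ) * (BF ρ f0 f0 + BF ρ f1 f1) ≤ (1 + ρ) * (a ^ 2 + b ^ 2) :=
        mul_le_mul_of_nonneg_left (add_le_add i0s i1s) (by linarith)
      have h3 : 2 * (1 - ρ) * BF ρ f0 f1 ≤ 2 * (1 - ρ) * (a * b) :=
        mul_le_mul_of_nonneg_left hc (by linarith)
      linarith
    have h2 := h1.trans (two_point hρ0 hρ1 ha0 hb0)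
    refine h2.trans (le_of_eq ?_)
    have powa : ∀ F : ℝ, 0 ≤ F → ((2 : ℝ) ^ (d * (2 - σ) / 2) * F ^ (1 / p)) ^ p =
        (2 : ℝ) ^ (d * (2 - σ) / 2 * p) * F := by
      intro F hF
      rw [mul_rpow (by positivity) (by positivity), ← rpow_mul (by norm_num), ← rpow_mul hF,
        show 1 / p * p = 1 by field_simp, rpow_one]
    have e1 : (a ^ p + b ^ p) / 2 = (2 : ℝ) ^ (d * (2 - σ) / 2 * p) * (F0 + F1) * (2⁻¹ : ℝ) := by
      rw [ha, hb, powa F0 hF0n, powa F1 hF1n]; ring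
    have e2 : ∑ x, f x ^ p = F0 + F1 := by
      rw [sum_cube_succ]
      simp only [Fintype.sum_bool]
      rw [add_comm]
    rw [e1, e2, mul_rpow (by positivity) (by norm_num), mul_rpow (by positivity) (by positivity),
      ← rpow_mul (by norm_num)]
    have e3 : (d * (2 - σ) / 2 * p) * σ = d * (2 - σ) := by
      rw [hσ]; field_simp
    rw [e3]
    have e4 : (2⁻¹ : ℝ) ^ σ = (2 : ℝ) ^ (-σ) := by
      rw [← Real.rpow_neg_one 2, ← rpow_mul (by norm_num)]; congr 1; ring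
    rw [e4]
    have e5 : ((↑(d + 1) : ℝ) * (2 - σ)) = d * (2 - σ) + 2 + (-σ) := by push_cast; ring
    rw [e5, rpow_add (by norm_num), rpow_add (by norm_num)]
    have e6 : (2 : ℝ) ^ (2 : ℝ) = 4 := by norm_num
    rw [e6]
    ring

end Pool.Agent.T2h61.SP
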