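import Mathlib
import Pool.Agent.T2h61.SP.Cube

/-!
# Boosting: weights which see few pairs with small inner product
-/

set_option autoImplicit false

namespace Pool.Agent.T2h61.SP

open Real Finset

section

variable {V : Type} {D : ℕ}

/-- inner product of the vectors attached to two vertices -/
def dot (z : V → Fin D → ℝ) (u v : V) : ℝ := ∑ c, z u c * z v c

theorem dot_pow (z : V → Fin D → ℝ) (u v : V) (i : ℕ) :
    dot z u v ^ i = ∑ k ∈ (Finset.univ : Finset (Fin D)).sym i,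
      (k.val.countPerms : ℝ) * ((k.val.map (z u)).prod * (k.val.map (z v)).prod) := by
  unfold dot
  rw [Finset.sum_pow]
  refine Finset.sum_congr rfl fun k _ => ?_
  rw [Multiset.prod_map_mul]

theorem moment_nonneg (z : V → Fin D → ℝ) (S : Finset V) (j : ℕ) :
    0 ≤ ∑ u ∈ S, ∑ v ∈ S, dot z u v ^ j := by
  have h : ∑ u ∈ S, ∑ v ∈ S, dot z u v ^ j = ∑ k ∈ (Finset.univ : Finset (Fin D)).sym j,
      (k.val.countPerms : ℝ) * (∑ u ∈ S, (k.val.map (z u)).prod) ^ 2 := by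
    simp_rw [dot_pow]
    rw [Finset.sum_congr rfl fun u _ => Finset.sum_comm]
    rw [Finset.sum_comm]
    refine Finset.sum_congr rfl fun k _ => ?_
    rw [sq, Finset.sum_mul_sum, Finset.mul_sum]
    refine Finset.sum_congr rfl fun u _ => ?_
    rw [Finset.mul_sum]
  rw [h]
  exact Finset.sum_nonneg fun k _ => by positivity

/-- the even moments of the inner products of unit vectors -/
theorem moment_ge (z : V → Fin D → ℝ) (S : Finset V) (hz : ∀ u ∈ S, dot z u u = 1) (i : ℕ)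
    (hD : 1 ≤ D) :
    (S.card : ℝ) ^ 2 / ((D + i - 1).choose i : ℝ) ≤ ∑ u ∈ S, ∑ v ∈ S, dot z u v ^ (2 * i) := by
  set A := (Finset.univ : Finset (Fin D)).sym i with hA
  set c : Sym (Fin D) i → ℝ := fun k => (k.val.countPerms : ℝ) with hc
  set m : Sym (Fin D) i → V → ℝ := fun k u => (k.val.map (z u)).prod with hm
  have hc0 : ∀ k, 0 ≤ c k := fun k => Nat.cast_nonneg _
  have hpow : ∀ u v, dot z u v ^ i = ∑ k ∈ A, c k * (m k u * m k v) := fun u v => dot_pow z u v i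
  have h1 : ∑ u ∈ S, ∑ v ∈ S, dot z u v ^ (2 * i) =
      ∑ k ∈ A, ∑ l ∈ A, c k * c l * (∑ u ∈ S, m k u * m l u) ^ 2 := by
    have e1 : ∀ u v, dot z u v ^ (2 * i) = ∑ k ∈ A, ∑ l ∈ A,
        c k * c l * ((m k u * m l u) * (m k v * m l v)) := by
      intro u v
      rw [mul_comm 2 i, pow_mul, hpow, sq, Finset.sum_mul_sum]
      refine Finset.sum_congr rfl fun k _ => Finset.sum_congr rfl fun l _ => ?_
      ring
    simp_rw [e1]
    rw [Finset.sum_congr rfl fun u _ => Finset.sum_comm]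
    rw [Finset.sum_comm]
    refine Finset.sum_congr rfl fun k _ => ?_
    rw [Finset.sum_congr rfl fun u _ => Finset.sum_comm]
    rw [Finset.sum_comm]
    refine Finset.sum_congr rfl fun l _ => ?_
    rw [sq, Finset.sum_mul_sum, Finset.mul_sum]
    refine Finset.sum_congr rfl fun u _ => ?_
    rw [Finset.mul_sum]
  have h2 : ∑ k ∈ A, (c k * ∑ u ∈ S, m k u ^ 2) ^ 2 ≤
      ∑ k ∈ A, ∑ l ∈ A, c k * c l * (∑ u ∈ S, m k u * m l u) ^ 2 := by
    refine Finset.sum_le_sum fun k hk => ?_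
    refine le_trans (le_of_eq ?_) (Finset.single_le_sum (f := fun l => c k * c l *
      (∑ u ∈ S, m k u * m l u) ^ 2) (fun l _ => mul_nonneg (mul_nonneg (hc0 k) (hc0 l))
        (sq_nonneg _)) hk)
    simp only [← sq]
    rw [mul_pow]
  have h3 : (∑ k ∈ A, c k * ∑ u ∈ S, m k u ^ 2) ^ 2 ≤ A.card *
      ∑ k ∈ A, (c k * ∑ u ∈ S, m k u ^ 2) ^ 2 := sq_sum_le_card_mul_sum_sq
  have h4 : ∑ k ∈ A, c k * ∑ u ∈ S, m k u ^ 2 = S.card := by
    simp_rw [Finset.mul_sum]
    rw [Finset.sum_comm]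
    have : ∀ u ∈ S, ∑ k ∈ A, c k * m k u ^ 2 = 1 := by
      intro u hu
      have := hpow u u
      rw [hz u hu, one_pow] at this
      rw [this]
      exact Finset.sum_congr rfl fun k _ => by ring
    rw [Finset.sum_congr rfl this]
    simp
  have h5 : (A.card : ℝ) ≤ ((D + i - 1).choose i : ℝ) := by
    have h6 : A.card ≤ Fintype.card (Sym (Fin D) i) := Finset.card_le_univ A
    rw [Sym.card_sym_eq_choose, Fintype.card_fin] at h6
    exact_mod_cast h6
  have h6 : 0 < (D + i - 1).choose i := Nat.choose_pos (by omega)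
  have h7 : (0:ℝ) < ((D + i - 1).choose i : ℝ) := by exact_mod_cast h6
  rw [h1, div_le_iff₀ h7, mul_comm]
  rw [h4] at h3
  have h8 : 0 ≤ ∑ k ∈ A, (c k * ∑ u ∈ S, m k u ^ 2) ^ 2 :=
    Finset.sum_nonneg fun k _ => sq_nonneg _
  calc (S.card : ℝ) ^ 2 ≤ A.card * ∑ k ∈ A, (c k * ∑ u ∈ S, m k u ^ 2) ^ 2 := h3
    _ ≤ ((D + i - 1).choose i : ℝ) * ∑ k ∈ A, (c k * ∑ u ∈ S, m k u ^ 2) ^ 2 :=
        mul_le_mul_of_nonneg_right h5 h8
    _ ≤ _ := mul_le_mul_of_nonneg_left h2 h7.le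

/-- one term of the binomial expansion -/
theorem binom_ge (z : V → Fin D → ℝ) (S : Finset V) (hz : ∀ u ∈ S, dot z u u = 1) (i m : ℕ)
    (hD : 1 ≤ D) :
    (m.choose (2 * i) : ℝ) / (D : ℝ) ^ (2 * i) * ((S.card : ℝ) ^ 2 / ((D + i - 1).choose i : ℝ)) ≤
      ∑ u ∈ S, ∑ v ∈ S, (1 + dot z u v / D) ^ m := by
  have hD0 : (0:ℝ) < D := by exact_mod_cast hD
  have h1 : ∑ u ∈ S, ∑ v ∈ S, (1 + dot z u v / D) ^ m = ∑ j ∈ Finset.range (m + 1),
      (m.choose j : ℝ) / (D : ℝ) ^ j * ∑ u ∈ S, ∑ v ∈ S, dot z u v ^ j := by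
    have e1 : ∀ u v, (1 + dot z u v / D) ^ m = ∑ j ∈ Finset.range (m + 1),
        (m.choose j : ℝ) / (D : ℝ) ^ j * dot z u v ^ j := by
      intro u v
      rw [add_comm, add_pow]
      refine Finset.sum_congr rfl fun j _ => ?_
      rw [one_pow, mul_one, div_pow]
      ring
    simp_rw [e1]
    rw [Finset.sum_congr rfl fun u _ => Finset.sum_comm]
    rw [Finset.sum_comm]
    refine Finset.sum_congr rfl fun j _ => ?_
    rw [Finset.mul_sum]
    refine Finset.sum_congr rfl fun u _ => ?_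
    rw [Finset.mul_sum]
  rw [h1]
  by_cases hm : 2 * i ≤ m
  · refine le_trans ?_ (Finset.single_le_sum (f := fun j => (m.choose j : ℝ) / (D : ℝ) ^ j *
      ∑ u ∈ S, ∑ v ∈ S, dot z u v ^ j) (fun j _ => mul_nonneg (by positivity)
        (moment_nonneg z S j)) (Finset.mem_range.2 (Nat.lt_succ_of_le hm)))
    exact mul_le_mul_of_nonneg_left (moment_ge z S hz i hD) (by positivity)
  · rw [Nat.choose_eq_zero_of_lt (by omega)]
    simp only [Nat.cast_zero, zero_div, zero_mul]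
    exact Finset.sum_nonneg fun j _ => mul_nonneg (by positivity) (moment_nonneg z S j)

/-- the numerical gain -/
theorem gain (D i t : ℕ) (hi : 1 ≤ i) (hiD : i ≤ D) (ht : 256 * i * D ≤ t ^ 2) :
    exp i ≤ ((D * t).choose (2 * i) : ℝ) / (D : ℝ) ^ (2 * i) *
      (1 / ((D + i - 1).choose i : ℝ)) := by
  have hi0 : (0:ℝ) < i := by exact_mod_cast hi
  have hD0 : (0:ℝ) < D := lt_of_lt_of_le hi0 (by exact_mod_cast hiD)
  have hiD' : (i:ℝ) ≤ D := by exact_mod_cast hiD
  have ht' : (256:ℝ) * i * D ≤ t ^ 2 := by exact_mod_cast ht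
  have ht0 : (0:ℝ) ≤ t := Nat.cast_nonneg t
  have hti : 16 * (i:ℝ) ≤ t := by
    have h1 : (16 * (i:ℝ)) ^ 2 ≤ t ^ 2 := by nlinarith
    exact le_of_sq_le_sq h1 ht0 |>.trans le_rfl
  have htpos : (0:ℝ) < t := by linarith
  -- lower bound for the binomial coefficient
  have h1 : ((D:ℝ) * t / (4 * i)) ^ (2 * i) ≤ ((D * t).choose (2 * i) : ℝ) := by
    have h2 := Nat.pow_le_choose (α := ℝ) (2 * i) (D * t)
    refine le_trans ?_ h2
    have h3 : ((2 * i).factorial : ℝ) ≤ (2 * i : ℝ) ^ (2 * i) := by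
      have := Nat.factorial_le_pow (2 * i)
      exact_mod_cast this
    have h4 : (D:ℝ) * t / 2 ≤ ((D * t + 1 - 2 * i : ℕ) : ℝ) := by
      have h5 : 2 * i ≤ D * t + 1 := by
        have : (2 * i : ℝ) ≤ D * t + 1 := by nlinarith
        exact_mod_cast this
      rw [Nat.cast_sub h5]
      push_cast
      nlinarith
    rw [le_div_iff₀ (by positivity)]
    calc ((D:ℝ) * t / (4 * i)) ^ (2 * i) * ((2 * i).factorial : ℝ)
        ≤ ((D:ℝ) * t / (4 * i)) ^ (2 * i) * (2 * i : ℝ) ^ (2 * i) :=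
          mul_le_mul_of_nonneg_left h3 (by positivity)
      _ = ((D:ℝ) * t / 2) ^ (2 * i) := by
          rw [← mul_pow]; congr 1; field_simp; ring
      _ ≤ _ := pow_le_pow_left₀ (by positivity) h4 _
  -- upper bound for the dimension
  have h2 : ((D + i - 1).choose i : ℝ) ≤ (2 * D * exp 1 / i) ^ i := by
    have h3 := Nat.choose_le_pow_div (α := ℝ) i (D + i - 1)
    refine h3.trans ?_
    rw [div_le_iff₀ (by positivity)]
    have h4 : (i:ℝ) ^ i ≤ exp 1 ^ i * i.factorial := by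
      have h5 := Real.pow_div_factorial_le_exp (x := (i:ℝ)) hi0.le i
      rw [div_le_iff₀ (by positivity)] at h5
      rw [← exp_nat_mul, mul_one]; exact h5
    have h5 : ((D + i - 1 : ℕ) : ℝ) ≤ 2 * D := by
      have : D + i - 1 ≤ 2 * D := by omega
      exact_mod_cast this
    calc ((D + i - 1 : ℕ) : ℝ) ^ i ≤ (2 * D) ^ i := pow_le_pow_left₀ (Nat.cast_nonneg _) h5 _
      _ = (2 * D / i) ^ i * i ^ i := by rw [← mul_pow]; congr 1; field_simp
      _ ≤ (2 * D / i) ^ i * (exp 1 ^ i * i.factorial) :=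
          mul_le_mul_of_nonneg_left h4 (by positivity)
      _ = (2 * D * exp 1 / i) ^ i * i.factorial := by
          rw [← mul_assoc, ← mul_pow]; congr 2; ring
  have h3 : (0:ℝ) < ((D + i - 1).choose i : ℝ) := by
    have : 0 < (D + i - 1).choose i := Nat.choose_pos (by omega)
    exact_mod_cast this
  have h4 : exp i = exp 1 ^ i := by rw [← exp_nat_mul, mul_one]
  calc exp i = exp 1 ^ i := h4
    _ ≤ (((D:ℝ) * t / (4 * i)) ^ 2 / D ^ 2 * (1 / (2 * D * exp 1 / i))) ^ i := by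
        apply pow_le_pow_left₀ (exp_pos _).le
        have e1 : ((D:ℝ) * t / (4 * i)) ^ 2 / D ^ 2 * (1 / (2 * D * exp 1 / i)) =
            t ^ 2 / (32 * i * D * exp 1) := by field_simp; ring
        rw [e1, le_div_iff₀ (by positivity)]
        have h5 : exp 1 * exp 1 ≤ 8 := by
          have := Real.exp_one_lt_d9
          nlinarith [Real.exp_pos 1]
        have h6 : (0:ℝ) < i * D := by positivity
        nlinarith
    _ = ((D:ℝ) * t / (4 * i)) ^ (2 * i) / (D:ℝ) ^ (2 * i) * (1 / (2 * D * exp 1 / i) ^ i) := by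
        rw [mul_pow, one_div_pow, div_pow (_ ^ 2) (_ ^ 2), ← pow_mul, ← pow_mul]
    _ ≤ ((D * t).choose (2 * i) : ℝ) / (D : ℝ) ^ (2 * i) * (1 / ((D + i - 1).choose i : ℝ)) := by
        apply mul_le_mul
        · exact div_le_div_of_nonneg_right h1 (by positivity)
        · exact one_div_le_one_div_of_le h3 h2
        · positivity
        · positivity

end

end Pool.Agent.T2h61.SP
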