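import Mathlib
import Pool.Agent.T2h61.SP.Weights

/-!
# The boosting lemma
-/

set_option autoImplicit false

namespace Pool.Agent.T2h61.SP

open Real Finset

section

variable {V : Type} {D : ℕ}

/-- the weight of `u` for the word `w` -/
noncomputable def wt (z : V → Fin D → ℝ) {m : ℕ} (w : Fin m → Fin D × Bool) (u : V) : ℝ :=
  ∏ l, (1 + sg (w l).2 * z u (w l).1)

theorem abs_le_of_dot (z : V → Fin D → ℝ) {u : V} (h : dot z u u = 1) (c : Fin D) :
    |z u c| ≤ 1 := by
  have h1 : z u c ^ 2 ≤ 1 := by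
    rw [← h]
    unfold dot
    refine le_trans (le_of_eq (sq _)) ?_
    exact Finset.single_le_sum (f := fun c => z u c * z u c) (fun c _ => mul_self_nonneg _)
      (Finset.mem_univ c)
  rw [abs_le]
  constructor <;> nlinarith

theorem wt_nonneg (z : V → Fin D → ℝ) {u : V} (h : dot z u u = 1) {m : ℕ}
    (w : Fin m → Fin D × Bool) : 0 ≤ wt z w u := by
  refine Finset.prod_nonneg fun l _ => ?_
  have h1 := abs_le.1 (abs_le_of_dot z h (w l).1)
  unfold sg
  split_ifs <;> linarith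

theorem sum_wt (z : V → Fin D → ℝ) (u v : V) (m : ℕ) (hD : 1 ≤ D) :
    ∑ w : Fin m → Fin D × Bool, wt z w u * wt z w v =
      (2 * D : ℝ) ^ m * (1 + dot z u v / D) ^ m := by
  have hD0 : (0:ℝ) < D := by exact_mod_cast hD
  have h1 : ∀ w : Fin m → Fin D × Bool, wt z w u * wt z w v =
      ∏ l, (1 + sg (w l).2 * z u (w l).1) * (1 + sg (w l).2 * z v (w l).1) := by
    intro w
    unfold wt
    rw [Finset.prod_mul_distrib]
  rw [Finset.sum_congr rfl fun w _ => h1 w,
    ← Fintype.sum_pow (fun a : Fin D × Bool => (1 + sg a.2 * z u a.1) * (1 + sg a.2 * z v a.1)) m,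
    ← mul_pow]
  congr 1
  rw [Fintype.sum_prod_type]
  have h2 : ∀ c : Fin D, ∑ b : Bool, (1 + sg b * z u c) * (1 + sg b * z v c) =
      2 + 2 * (z u c * z v c) := by
    intro c
    simp only [Fintype.sum_bool, sg]
    simp
    ring
  rw [Finset.sum_congr rfl fun c _ => h2 c, Finset.sum_add_distrib, ← Finset.mul_sum]
  unfold dot
  simp
  field_simp

theorem boost (z : V → Fin D → ℝ) (S : Finset V) (hS : S.Nonempty)
    (hz : ∀ u ∈ S, dot z u u = 1) (i t : ℕ) (hi : 1 ≤ i) (hiD : i ≤ D)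
    (ht : 256 * i * D ≤ t ^ 2) (τ : ℝ) (hτ : t * τ ≤ i / 2)
    (B : Finset (V × V)) (hB : B ⊆ S ×ˢ S) (hBτ : ∀ q ∈ B, dot z q.1 q.2 ≤ τ) :
    ∃ F : V → ℝ, (∀ u ∈ S, 0 ≤ F u) ∧ 0 < ∑ u ∈ S, F u ∧
      ∑ q ∈ B, F q.1 * F q.2 ≤ 4 * exp (-(i / 2 : ℝ)) * (∑ u ∈ S, F u) ^ 2 ∧
      ∑ u ∈ S, F u ^ 2 ≤ 4 * exp (t - i) / S.card * (∑ u ∈ S, F u) ^ 2 := by
  have hD : 1 ≤ D := hi.trans hiD
  have hD0 : (0:ℝ) < D := by exact_mod_cast hD
  have hN : (0:ℝ) < S.card := by exact_mod_cast hS.card_pos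
  set N : ℝ := (S.card : ℝ) with hNdef
  set m := D * t with hm
  set M : ℝ := (2 * D : ℝ) ^ m with hM
  have hM0 : 0 < M := by positivity
  set T : (Fin m → Fin D × Bool) → ℝ := fun w => (∑ u ∈ S, wt z w u) ^ 2 with hT
  set Bw : (Fin m → Fin D × Bool) → ℝ := fun w => ∑ q ∈ B, wt z w q.1 * wt z w q.2 with hBw
  set Dw : (Fin m → Fin D × Bool) → ℝ := fun w => ∑ u ∈ S, wt z w u ^ 2 with hDw
  have hexpm : ∀ y : ℝ, 0 ≤ 1 + y / D → (1 + y / D) ^ m ≤ exp (t * y) := by
    intro y hy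
    have h1 : (1 + y / D) ^ m ≤ exp (y / D) ^ m := by
      apply pow_le_pow_left₀ hy
      have := Real.add_one_le_exp (y / D); linarith
    refine h1.trans (le_of_eq ?_)
    rw [← exp_nat_mul, hm]
    congr 1
    push_cast
    field_simp
  have hdot : ∀ u ∈ S, ∀ v ∈ S, -1 ≤ dot z u v := by
    intro u hu v hv
    have h1 : 0 ≤ ∑ c, (z u c + z v c) ^ 2 := Finset.sum_nonneg fun c _ => sq_nonneg _
    have h2 : ∑ c, (z u c + z v c) ^ 2 = dot z u u + 2 * dot z u v + dot z v v := by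
      unfold dot
      rw [Finset.mul_sum, ← Finset.sum_add_distrib, ← Finset.sum_add_distrib]
      exact Finset.sum_congr rfl fun c _ => by ring
    rw [h2, hz u hu, hz v hv] at h1
    linarith
  have hbase : ∀ u ∈ S, ∀ v ∈ S, 0 ≤ 1 + dot z u v / D := by
    intro u hu v hv
    have h1 := hdot u hu v hv
    have h2 : -1 ≤ dot z u v / D := by
      rw [le_div_iff₀ hD0]
      have : (1:ℝ) ≤ D := by exact_mod_cast hD
      linarith
    linarith
  -- the three averages
  have sT : M * (exp i * N ^ 2) ≤ ∑ w, T w := by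
    have h1 : ∑ w, T w = M * ∑ u ∈ S, ∑ v ∈ S, (1 + dot z u v / D) ^ m := by
      have h2 : ∀ w, T w = ∑ u ∈ S, ∑ v ∈ S, wt z w u * wt z w v := by
        intro w
        rw [hT]
        simp only
        rw [sq, Finset.sum_mul_sum]
      rw [Finset.sum_congr rfl fun w _ => h2 w, Finset.sum_comm, Finset.mul_sum]
      refine Finset.sum_congr rfl fun u _ => ?_
      rw [Finset.sum_comm, Finset.mul_sum]
      exact Finset.sum_congr rfl fun v _ => sum_wt z u v m hD
    rw [h1]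
    apply mul_le_mul_of_nonneg_left _ hM0.le
    refine le_trans ?_ (binom_ge z S hz i m hD)
    have h3 := gain D i t hi hiD ht
    calc exp i * N ^ 2 ≤ ((D * t).choose (2 * i) : ℝ) / (D : ℝ) ^ (2 * i) *
          (1 / ((D + i - 1).choose i : ℝ)) * N ^ 2 :=
          mul_le_mul_of_nonneg_right h3 (by positivity)
      _ = _ := by rw [hm, hNdef]; ring
  have sB : ∑ w, Bw w ≤ M * (exp (i / 2) * N ^ 2) := by
    have h1 : ∑ w, Bw w = M * ∑ q ∈ B, (1 + dot z q.1 q.2 / D) ^ m := by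
      rw [hBw]
      simp only
      rw [Finset.sum_comm, Finset.mul_sum]
      exact Finset.sum_congr rfl fun q _ => sum_wt z q.1 q.2 m hD
    rw [h1]
    apply mul_le_mul_of_nonneg_left _ hM0.le
    have h2 : ∀ q ∈ B, (1 + dot z q.1 q.2 / D) ^ m ≤ exp (i / 2) := by
      intro q hq
      have hq2 := Finset.mem_product.1 (hB hq)
      refine (hexpm _ (hbase _ hq2.1 _ hq2.2)).trans (exp_le_exp.2 ?_)
      exact (mul_le_mul_of_nonneg_left (hBτ q hq) (Nat.cast_nonneg t)).trans hτ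
    refine (Finset.sum_le_sum h2).trans ?_
    rw [Finset.sum_const, nsmul_eq_mul, mul_comm]
    apply mul_le_mul_of_nonneg_left _ (exp_pos _).le
    have h3 := Finset.card_le_card hB
    rw [Finset.card_product] at h3
    rw [hNdef, sq]
    exact_mod_cast h3
  have sD : ∑ w, Dw w ≤ M * (exp t * N) := by
    have h1 : ∑ w, Dw w = M * ∑ u ∈ S, (1 + dot z u u / D) ^ m := by
      rw [hDw]
      simp only
      rw [Finset.sum_comm, Finset.mul_sum]
      refine Finset.sum_congr rfl fun u _ => ?_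
      rw [← sum_wt z u u m hD]
      exact Finset.sum_congr rfl fun w _ => sq _
    rw [h1]
    apply mul_le_mul_of_nonneg_left _ hM0.le
    have h2 : ∀ u ∈ S, (1 + dot z u u / D) ^ m ≤ exp t := by
      intro u hu
      refine (hexpm _ (hbase u hu u hu)).trans (exp_le_exp.2 ?_)
      rw [hz u hu, mul_one]
    refine (Finset.sum_le_sum h2).trans ?_
    rw [Finset.sum_const, nsmul_eq_mul, mul_comm]
  -- choose the word
  have hex : ∃ w, exp (i / 2) / 4 * Bw w + N * exp (i - t) / 4 * Dw w < T w := by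
    by_contra hcon
    push Not at hcon
    have h1 : ∑ w, T w ≤ ∑ w, (exp (i / 2) / 4 * Bw w + N * exp (i - t) / 4 * Dw w) :=
      Finset.sum_le_sum fun w _ => hcon w
    rw [Finset.sum_add_distrib, ← Finset.mul_sum, ← Finset.mul_sum] at h1
    have h2 : exp (i / 2) / 4 * ∑ w, Bw w ≤ exp (i / 2) / 4 * (M * (exp (i / 2) * N ^ 2)) :=
      mul_le_mul_of_nonneg_left sB (by positivity)
    have h3 : N * exp (i - t) / 4 * ∑ w, Dw w ≤ N * exp (i - t) / 4 * (M * (exp t * N)) :=
      mul_le_mul_of_nonneg_left sD (by positivity)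
    have e1 : exp (i / 2) / 4 * (M * (exp (i / 2) * N ^ 2)) = M * exp i * N ^ 2 / 4 := by
      have : exp (i:ℝ) = exp (i / 2) * exp (i / 2) := by rw [← exp_add]; congr 1; ring
      rw [this]; ring
    have e2 : N * exp (i - t) / 4 * (M * (exp t * N)) = M * exp i * N ^ 2 / 4 := by
      have : exp (i:ℝ) = exp (i - t) * exp t := by rw [← exp_add]; congr 1; ring
      rw [this]; ring
    rw [e1] at h2
    rw [e2] at h3
    have h4 : 0 < M * exp i * N ^ 2 := by positivity
    linarith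
  obtain ⟨w, hw⟩ := hex
  have hF0 : ∀ u ∈ S, 0 ≤ wt z w u := fun u hu => wt_nonneg z (hz u hu) w
  have hB0 : 0 ≤ Bw w := Finset.sum_nonneg fun q hq => by
    have hq2 := Finset.mem_product.1 (hB hq)
    exact mul_nonneg (hF0 _ hq2.1) (hF0 _ hq2.2)
  have hD0' : 0 ≤ Dw w := Finset.sum_nonneg fun u _ => sq_nonneg _
  have hTpos : 0 < T w := lt_of_le_of_lt (by positivity) hw
  refine ⟨wt z w, hF0, ?_, ?_, ?_⟩
  · have h1 : 0 ≤ ∑ u ∈ S, wt z w u := Finset.sum_nonneg hF0
    rcases h1.eq_or_lt with h2 | h2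
    · exfalso
      have : T w = 0 := by rw [hT]; simp only; rw [← h2]; simp
      linarith
    · exact h2
  · have h1 : exp (i / 2) / 4 * Bw w ≤ T w := by
      have : 0 ≤ N * exp (i - t) / 4 * Dw w := by positivity
      linarith
    have h2 : exp (-(i / 2 : ℝ)) * exp (i / 2) = 1 := by rw [← exp_add]; simp
    calc Bw w = (4 * exp (-(i / 2 : ℝ))) * (exp (i / 2) / 4 * Bw w) := by
          have : (4 * exp (-(i / 2 : ℝ))) * (exp (i / 2) / 4 * Bw w) =
            (exp (-(i / 2 : ℝ)) * exp (i / 2)) * Bw w := by ring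
          rw [this, h2, one_mul]
      _ ≤ (4 * exp (-(i / 2 : ℝ))) * T w := mul_le_mul_of_nonneg_left h1 (by positivity)
  · have h1 : N * exp (i - t) / 4 * Dw w ≤ T w := by
      have : 0 ≤ exp (i / 2) / 4 * Bw w := by positivity
      linarith
    have h2 : exp ((t:ℝ) - i) * exp (i - t) = 1 := by rw [← exp_add]; simp
    calc Dw w = (4 * exp (t - i) / N) * (N * exp (i - t) / 4 * Dw w) := by
          have : (4 * exp ((t:ℝ) - i) / N) * (N * exp (i - t) / 4 * Dw w) =
            (exp ((t:ℝ) - i) * exp (i - t)) * Dw w := by field_simp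
          rw [this, h2, one_mul]
      _ ≤ (4 * exp (t - i) / N) * T w := mul_le_mul_of_nonneg_left h1 (by positivity)

end

end Pool.Agent.T2h61.SP
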