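import Mathlib

/-!
# Counting independent tuples (Kleitman-Winston) and choosing points at random
-/

set_option autoImplicit false

namespace Pool.Agent.T2h61.SP

open Finset

section Count

variable {Q : Type} [Fintype Q] [DecidableEq Q]

open Classical in
/-- the `j`-tuples of elements of `K` without related pairs -/
noncomputable def indep (E : Q → Q → Prop) (K : Finset Q) (j : ℕ) : Finset (Fin j → Q) :=
  Finset.univ.filter (fun t => (∀ i, t i ∈ K) ∧ ∀ i i', i ≠ i' → ¬ E (t i) (t i'))

theorem mem_indep {E : Q → Q → Prop} {K : Finset Q} {j : ℕ} {t : Fin j → Q} :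
    t ∈ indep E K j ↔ (∀ i, t i ∈ K) ∧ ∀ i i', i ≠ i' → ¬ E (t i) (t i') := by
  simp [indep]

theorem indep_card_le_pow (E : Q → Q → Prop) (K : Finset Q) (j : ℕ) :
    (indep E K j).card ≤ K.card ^ j := by
  have h : indep E K j ⊆ Fintype.piFinset (fun _ : Fin j => K) := by
    intro t ht
    exact Fintype.mem_piFinset.2 (mem_indep.1 ht).1
  refine (Finset.card_le_card h).trans ?_
  rw [Fintype.card_piFinset]
  simp

open Classical in
theorem indep_step (E : Q → Q → Prop) (K : Finset Q) (j : ℕ) (x : Q) :
    (indep E K (j + 1)).card ≤ (indep E (K.erase x) (j + 1)).card +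
      (j + 1) * (indep E (K.filter (fun y => ¬ E x y)) j).card := by
  have hsub : indep E K (j + 1) ⊆ indep E (K.erase x) (j + 1) ∪
      Finset.univ.biUnion (fun i : Fin (j + 1) => (indep E K (j + 1)).filter (fun t => t i = x)) := by
    intro t ht
    by_cases h : ∃ i, t i = x
    · obtain ⟨i, hi⟩ := h
      refine Finset.mem_union_right _ (Finset.mem_biUnion.2 ⟨i, Finset.mem_univ _, ?_⟩)
      exact Finset.mem_filter.2 ⟨ht, hi⟩
    · push Not at h
      refine Finset.mem_union_left _ (mem_indep.2 ⟨fun i => ?_, (mem_indep.1 ht).2⟩)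
      exact Finset.mem_erase.2 ⟨h i, (mem_indep.1 ht).1 i⟩
  refine (Finset.card_le_card hsub).trans ((Finset.card_union_le _ _).trans ?_)
  apply Nat.add_le_add_left
  refine Finset.card_biUnion_le.trans ?_
  have hone : ∀ i : Fin (j + 1), ((indep E K (j + 1)).filter (fun t => t i = x)).card ≤
      (indep E (K.filter (fun y => ¬ E x y)) j).card := by
    intro i
    apply Finset.card_le_card_of_injOn (fun t l => t (i.succAbove l))
    · intro t ht
      obtain ⟨h1, h2⟩ := Finset.mem_filter.1 ht
      obtain ⟨h3, h4⟩ := mem_indep.1 h1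
      refine mem_indep.2 ⟨fun l => Finset.mem_filter.2 ⟨h3 _, ?_⟩, fun l l' hl => h4 _ _ ?_⟩
      · have := h4 i (i.succAbove l) (Fin.succAbove_ne i l).symm
        rwa [h2] at this
      · exact fun h => hl (Fin.succAbove_right_injective h)
    · intro t ht t' ht' htt
      have h2 := (Finset.mem_filter.1 ht).2
      have h2' := (Finset.mem_filter.1 ht').2
      funext l
      rcases Fin.eq_self_or_eq_succAbove i l with h | ⟨m, h⟩
      · rw [h, h2, h2']
      · rw [h]; exact congrFun htt m
  refine (Finset.sum_le_sum fun i _ => hone i).trans ?_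
  simp

theorem count_aux (E : Q → Q → Prop) (p Z X : ℝ) (hp1 : p ≤ 1) (hZ : 0 < Z) (hX : Z ≤ X)
    (k : ℕ) (hXk : (Fintype.card Q : ℝ) * k ≤ X)
    (sat : ∀ K : Finset Q, Z < K.card → ∃ x ∈ K, ∃ B : Finset Q, B ⊆ K ∧ (∀ y ∈ B, E x y) ∧
      p * K.card ≤ B.card) :
    ∀ (r : ℕ) (K : Finset Q), (K.card : ℝ) * (1 - p) ^ r ≤ Z → ∀ j ≤ k, r ≤ j →
      ((indep E K j).card : ℝ) ≤ (r + 1) * X ^ r * Z ^ (j - r) := by
  intro r
  induction r with
  | zero =>
    intro K hK j _ _
    have h1 : ((indep E K j).card : ℝ) ≤ (K.card : ℝ) ^ j := by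
      exact_mod_cast indep_card_le_pow E K j
    simp only [pow_zero, mul_one] at hK
    refine h1.trans ((pow_le_pow_left₀ (Nat.cast_nonneg _) hK j).trans (le_of_eq ?_))
    simp
  | succ r ih =>
    intro K hK j hj hrj
    obtain ⟨j, rfl⟩ : ∃ j', j = j' + 1 := ⟨j - 1, by omega⟩
    have hX0 : 0 < X := lt_of_lt_of_le hZ hX
    have hrj' : r ≤ j := by omega
    set Y : ℝ := (r + 1) * X ^ r * Z ^ (j - r) with hY
    have hY0 : 0 ≤ Y := by positivity
    have inner : ∀ (m : ℕ) (K : Finset Q), K.card = m → (K.card : ℝ) * (1 - p) ^ (r + 1) ≤ Z →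
        ((indep E K (j + 1)).card : ℝ) ≤ Z ^ (j + 1) + K.card * ((j + 1) * Y) := by
      intro m
      induction m with
      | zero =>
        intro K hK0 _
        have h1 : ((indep E K (j + 1)).card : ℝ) ≤ (K.card : ℝ) ^ (j + 1) := by
          exact_mod_cast indep_card_le_pow E K (j + 1)
        rw [hK0] at h1 ⊢
        have h2 : ((0 : ℕ) : ℝ) ^ (j + 1) = 0 := by simp
        rw [h2] at h1
        have h3 : 0 ≤ Z ^ (j + 1) := by positivity
        simp only [Nat.cast_zero, zero_mul, add_zero]
        linarith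
      | succ m ihm =>
        intro K hKm hKZ
        by_cases hsmall : (K.card : ℝ) ≤ Z
        · have h1 : ((indep E K (j + 1)).card : ℝ) ≤ (K.card : ℝ) ^ (j + 1) := by
            exact_mod_cast indep_card_le_pow E K (j + 1)
          have h2 := h1.trans (pow_le_pow_left₀ (Nat.cast_nonneg _) hsmall (j + 1))
          have h3 : 0 ≤ (K.card : ℝ) * ((j + 1) * Y) := by positivity
          linarith
        · push Not at hsmall
          obtain ⟨x, hx, B, hBK, hBE, hB⟩ := sat K hsmall
          classical
          have hstep := indep_step E K j x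
          have hc1 : ((K.filter (fun y => ¬ E x y)).card : ℝ) ≤ (1 - p) * K.card := by
            have h1 : K.filter (fun y => ¬ E x y) ⊆ K \ B := by
              intro y hy
              obtain ⟨hy1, hy2⟩ := Finset.mem_filter.1 hy
              exact Finset.mem_sdiff.2 ⟨hy1, fun hyB => hy2 (hBE y hyB)⟩
            have h2 := Finset.card_le_card h1
            rw [Finset.card_sdiff_of_subset hBK] at h2
            have h3 : ((K.card - B.card : ℕ) : ℝ) = K.card - B.card := by
              rw [Nat.cast_sub (Finset.card_le_card hBK)]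
            have h4 : ((K.filter (fun y => ¬ E x y)).card : ℝ) ≤ K.card - B.card := by
              rw [← h3]; exact_mod_cast h2
            linarith
          have hc2 : ((K.filter (fun y => ¬ E x y)).card : ℝ) * (1 - p) ^ r ≤ Z := by
            refine le_trans (mul_le_mul_of_nonneg_right hc1 (pow_nonneg (by linarith) r)) ?_
            rw [pow_succ] at hKZ
            linarith
          have hI := ih _ hc2 j (by omega) hrj'
          have hcard : ((K.erase x).card : ℝ) = K.card - 1 := by
            rw [Finset.card_erase_of_mem hx, Nat.cast_sub (Finset.card_pos.2 ⟨x, hx⟩)]; simp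
          have he : ((K.erase x).card : ℝ) * (1 - p) ^ (r + 1) ≤ Z := by
            refine le_trans (mul_le_mul_of_nonneg_right ?_ (pow_nonneg (by linarith) _)) hKZ
            rw [hcard]; linarith
          have hm := ihm (K.erase x) (by rw [Finset.card_erase_of_mem hx, hKm]; rfl) he
          have hstep' : ((indep E K (j + 1)).card : ℝ) ≤ (indep E (K.erase x) (j + 1)).card +
              (j + 1) * (indep E (K.filter (fun y => ¬ E x y)) j).card := by exact_mod_cast hstep
          have h5 : ((j:ℝ) + 1) * (indep E (K.filter (fun y => ¬ E x y)) j).card ≤ (j + 1) * Y :=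
            mul_le_mul_of_nonneg_left hI (by positivity)
          rw [hcard] at hm
          linarith
    have hmain := inner K.card K rfl hK
    have h1 : (K.card : ℝ) * ((j + 1) * Y) ≤ X * Y := by
      have h2 : (K.card : ℝ) * (j + 1) ≤ X := by
        refine le_trans ?_ hXk
        have h3 : (K.card : ℝ) ≤ Fintype.card Q := by exact_mod_cast Finset.card_le_univ K
        have h4 : (j : ℝ) + 1 ≤ k := by exact_mod_cast hj
        exact mul_le_mul h3 h4 (by positivity) (Nat.cast_nonneg _)
      calc (K.card : ℝ) * ((j + 1) * Y) = (K.card * (j + 1)) * Y := by ring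
        _ ≤ X * Y := mul_le_mul_of_nonneg_right h2 hY0
    have h2 : Z ^ (j + 1) ≤ X ^ (r + 1) * Z ^ (j - r) := by
      have : j + 1 = (r + 1) + (j - r) := by omega
      rw [this, pow_add]
      exact mul_le_mul_of_nonneg_right (pow_le_pow_left₀ hZ.le hX _) (by positivity)
    have h3 : j + 1 - (r + 1) = j - r := by omega
    rw [h3]
    refine hmain.trans ?_
    calc Z ^ (j + 1) + K.card * ((j + 1) * Y) ≤ X ^ (r + 1) * Z ^ (j - r) + X * Y := by linarith
      _ = ((r + 1 : ℕ) + 1) * X ^ (r + 1) * Z ^ (j - r) := by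
          rw [hY]; push_cast; ring

/-- If every set with more than `ζ |Q|` elements has an element related to a proportion `p` of it,
there are few independent `k`-tuples. -/
theorem count (E : Q → Q → Prop) [Nonempty Q] (p ζ : ℝ) (hp1 : p ≤ 1) (hζ : 0 < ζ)
    (hζ1 : ζ ≤ 1) (k r : ℕ) (hk : 1 ≤ k) (hr : r ≤ k) (hpr : (1 - p) ^ r ≤ ζ)
    (sat : ∀ K : Finset Q, ζ * Fintype.card Q < K.card → ∃ x ∈ K, ∃ B : Finset Q, B ⊆ K ∧
      (∀ y ∈ B, E x y) ∧ p * K.card ≤ B.card) :
    ((indep E Finset.univ k).card : ℝ) ≤ (r + 1) * (k : ℝ) ^ r * ζ ^ (k - r) *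
      (Fintype.card Q : ℝ) ^ k := by
  have hQ : (0:ℝ) < Fintype.card Q := by exact_mod_cast Fintype.card_pos
  have hk' : (1:ℝ) ≤ k := by exact_mod_cast hk
  have h := count_aux E p (ζ * Fintype.card Q) (Fintype.card Q * k) hp1 (by positivity)
    (by nlinarith) k le_rfl sat r Finset.univ (by
      rw [Finset.card_univ, mul_comm]
      exact mul_le_mul_of_nonneg_right hpr hQ.le) k le_rfl hr
  refine h.trans (le_of_eq ?_)
  have e : (Fintype.card Q : ℝ) ^ k = (Fintype.card Q : ℝ) ^ r * (Fintype.card Q : ℝ) ^ (k - r) := by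
    rw [← pow_add]; congr 1; omega
  rw [e, mul_pow, mul_pow]
  ring

end Count

section Choose

variable {Q : Type} [Fintype Q] [DecidableEq Q]

theorem fiber_card {n k : ℕ} (e : Fin k → Fin n) (he : Function.Injective e) (a : Fin k → Q) :
    (Finset.univ.filter (fun f : Fin n → Q => f ∘ e = a)).card ≤ (Fintype.card Q) ^ (n - k) := by
  classical
  have hsub : Finset.univ.filter (fun f : Fin n → Q => f ∘ e = a) ⊆
      Fintype.piFinset (fun v : Fin n => if h : ∃ i, e i = v then {a h.choose} else Finset.univ) := by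
    intro f hf
    have hf2 : f ∘ e = a := (Finset.mem_filter.1 hf).2
    refine Fintype.mem_piFinset.2 fun v => ?_
    split_ifs with h
    · rw [Finset.mem_singleton, ← hf2]
      simp [h.choose_spec]
    · exact Finset.mem_univ _
  refine (Finset.card_le_card hsub).trans ?_
  rw [Fintype.card_piFinset]
  have h1 : ∀ v : Fin n, (if h : ∃ i, e i = v then ({a h.choose} : Finset Q) else Finset.univ).card =
      if ∃ i, e i = v then 1 else Fintype.card Q := by
    intro v
    split_ifs <;> simp
  rw [Finset.prod_congr rfl fun v _ => h1 v, Finset.prod_ite]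
  simp only [Finset.prod_const_one, one_mul, Finset.prod_const]
  apply le_of_eq
  congr 1
  have h2 := Finset.card_filter_add_card_filter_not (s := (Finset.univ : Finset (Fin n)))
    (fun v => ∃ i, e i = v)
  have h3 : (Finset.univ.filter (fun v : Fin n => ∃ i, e i = v)).card = k := by
    have : Finset.univ.filter (fun v : Fin n => ∃ i, e i = v) = Finset.univ.image e := by
      ext v; simp
    rw [this, Finset.card_image_of_injective _ he]; simp
  simp only [Finset.card_univ, Fintype.card_fin] at h2
  omega

/-- Choosing `n` points at random: some choice avoids all bad `k`-tuples. -/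
theorem exists_good [Nonempty Q] (n k : ℕ) (A : Finset (Fin k → Q))
    (h : (n : ℝ) ^ k * A.card < (Fintype.card Q : ℝ) ^ k) :
    ∃ f : Fin n → Q, ∀ e : Fin k → Fin n, Function.Injective e → f ∘ e ∉ A := by
  classical
  by_contra hcon
  push Not at hcon
  have hkn : k ≤ n := by
    obtain ⟨e, he, _⟩ := hcon (fun _ => Classical.arbitrary Q)
    simpa using Fintype.card_le_of_injective e he
  have hsub : (Finset.univ : Finset (Fin n → Q)) ⊆
      (Finset.univ.filter (fun e : Fin k → Fin n => Function.Injective e)).biUnion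
        (fun e => A.biUnion (fun a => Finset.univ.filter (fun f : Fin n → Q => f ∘ e = a))) := by
    intro f _
    obtain ⟨e, he, hA⟩ := hcon f
    simp only [Finset.mem_biUnion, Finset.mem_filter, Finset.mem_univ, true_and]
    exact ⟨e, he, f ∘ e, hA, rfl⟩
  have h1 := (Finset.card_le_card hsub).trans Finset.card_biUnion_le
  have h2 : ∀ e ∈ Finset.univ.filter (fun e : Fin k → Fin n => Function.Injective e),
      (A.biUnion (fun a => Finset.univ.filter (fun f : Fin n → Q => f ∘ e = a))).card ≤
        A.card * (Fintype.card Q) ^ (n - k) := by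
    intro e he
    refine Finset.card_biUnion_le.trans ?_
    refine (Finset.sum_le_sum fun a _ => fiber_card e (Finset.mem_filter.1 he).2 a).trans ?_
    simp
  have h3 := h1.trans (Finset.sum_le_sum h2)
  rw [Finset.sum_const, smul_eq_mul] at h3
  have h4 : (Finset.univ.filter (fun e : Fin k → Fin n => Function.Injective e)).card ≤ n ^ k := by
    refine (Finset.card_filter_le _ _).trans ?_
    simp
  have h5 : (Fintype.card Q) ^ n ≤ n ^ k * (A.card * (Fintype.card Q) ^ (n - k)) := by
    refine le_trans (le_of_eq ?_) (h3.trans (Nat.mul_le_mul_right _ h4))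
    simp
  have hQ : (0:ℝ) < (Fintype.card Q : ℝ) ^ (n - k) := by
    have : (0:ℝ) < Fintype.card Q := by exact_mod_cast Fintype.card_pos
    positivity
  have h6 : ((Fintype.card Q : ℝ)) ^ n ≤ n ^ k * (A.card * (Fintype.card Q : ℝ) ^ (n - k)) := by
    exact_mod_cast h5
  have e : (Fintype.card Q : ℝ) ^ n = (Fintype.card Q : ℝ) ^ k * (Fintype.card Q : ℝ) ^ (n - k) := by
    rw [← pow_add]; congr 1; omega
  rw [e, ← mul_assoc] at h6
  exact absurd (le_of_mul_le_mul_right h6 hQ) (not_le.2 h)

end Choose

end Pool.Agent.T2h61.SP
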