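import Mathlib
import Pool.Agent.T2h61.SP.Cube

/-!
# Supersaturation in every dense subset of the cube

For `K ⊆ {-1, 1}^d` with `|K| ≥ exp (-s √d / 8) 2^d`, a proportion between `exp (-39 s²) / 4` and
`1 / 2` of the pairs in `K` has inner product at least `s √d`.
-/

set_option autoImplicit false

namespace Pool.Agent.T2h61.SP

open Real Finset

/-- the inner product of two sign vectors -/
def ip {d : ℕ} (x y : Fin d → Bool) : ℝ := ∑ c, sg (x c) * sg (y c)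

theorem ip_comm {d : ℕ} (x y : Fin d → Bool) : ip x y = ip y x :=
  Finset.sum_congr rfl fun _ _ => mul_comm _ _

theorem factor_le {ρ u : ℝ} (h0 : 0 ≤ ρ) (h1 : ρ ≤ 1 / 2) (hu : u = 1 ∨ u = -1) :
    1 + ρ * u ≤ exp (ρ * u - ρ ^ 2 / 3) := by
  rcases hu with rfl | rfl
  · have h2 := Real.quadratic_le_exp_of_nonneg (x := ρ * 1 - ρ ^ 2 / 3) (by nlinarith)
    refine le_trans ?_ h2
    nlinarith [sq_nonneg ρ, mul_nonneg h0 (sub_nonneg.2 h1), mul_nonneg (sq_nonneg ρ) h0,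
      mul_nonneg (sq_nonneg ρ) (sub_nonneg.2 h1), sq_nonneg (ρ ^ 2)]
  · set t := ρ + ρ ^ 2 / 3 with ht
    have ht0 : 0 ≤ t := by positivity
    have ht1 : t ≤ 1 := by rw [ht]; nlinarith
    have h2 := Real.exp_bound' ht0 ht1 (n := 3) (by norm_num)
    have h3 : exp t ≤ 1 + t + t ^ 2 / 2 + 2 * t ^ 3 / 9 := by
      refine h2.trans (le_of_eq ?_)
      simp [Finset.sum_range_succ, Nat.factorial]
      ring
    have h4 : (1 - ρ) * (1 + t + t ^ 2 / 2 + 2 * t ^ 3 / 9) ≤ 1 := by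
      have h5 : (1 - ρ) * (1 + t + t ^ 2 / 2 + 2 * t ^ 3 / 9) = 1 - (ρ ^ 2 / 6 + 5 * ρ ^ 3 / 18 +
          5 * ρ ^ 4 / 18 + 11 * ρ ^ 5 / 54 + 16 * ρ ^ 6 / 243 + 2 * ρ ^ 7 / 243) := by
        rw [ht]; ring
      have h6 : 0 ≤ ρ ^ 2 / 6 + 5 * ρ ^ 3 / 18 +
          5 * ρ ^ 4 / 18 + 11 * ρ ^ 5 / 54 + 16 * ρ ^ 6 / 243 + 2 * ρ ^ 7 / 243 := by positivity
      linarith
    have h5 : 1 - ρ ≤ exp (-t) := by
      rw [exp_neg, ← one_div, le_div_iff₀ (exp_pos t)]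
      exact (mul_le_mul_of_nonneg_left h3 (by linarith)).trans h4
    have e : ρ * -1 - ρ ^ 2 / 3 = -t := by rw [ht]; ring
    rw [e]; linarith

theorem factor_ge {ρ u : ℝ} (h0 : 0 ≤ ρ) (h1 : ρ ≤ 1 / 2) (hu : u = 1 ∨ u = -1) :
    exp (ρ * u - ρ ^ 2) ≤ 1 + ρ * u := by
  rcases hu with rfl | rfl
  · have h2 := Real.one_sub_le_exp_neg (ρ * 1 - ρ ^ 2)
    have h3 : 0 < 1 - (ρ * 1 - ρ ^ 2) := by nlinarith
    have h4 : exp (ρ * 1 - ρ ^ 2) ≤ 1 / (1 - (ρ * 1 - ρ ^ 2)) := by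
      rw [le_div_iff₀ h3]
      calc exp (ρ * 1 - ρ ^ 2) * (1 - (ρ * 1 - ρ ^ 2))
          ≤ exp (ρ * 1 - ρ ^ 2) * exp (-(ρ * 1 - ρ ^ 2)) :=
            mul_le_mul_of_nonneg_left h2 (exp_pos _).le
        _ = 1 := by rw [← exp_add]; simp
    refine h4.trans ?_
    rw [div_le_iff₀ h3]
    nlinarith [pow_nonneg h0 3]
  · set s := ρ + ρ ^ 2 with hs
    have hs0 : 0 ≤ s := by positivity
    have h2 := Real.quadratic_le_exp_of_nonneg hs0
    have e : ρ * -1 - ρ ^ 2 = -s := by rw [hs]; ring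
    rw [e, exp_neg, ← one_div, div_le_iff₀ (exp_pos s)]
    have h3 : 1 ≤ (1 + ρ * -1) * (1 + s + s ^ 2 / 2) := by
      rw [hs]
      nlinarith [mul_nonneg (sq_nonneg ρ) (sub_nonneg.2 h1), pow_nonneg h0 3, pow_nonneg h0 4,
        mul_nonneg (pow_nonneg h0 3) (sub_nonneg.2 h1), mul_nonneg (pow_nonneg h0 4) (sub_nonneg.2 h1)]
    exact h3.trans (mul_le_mul_of_nonneg_left h2 (by linarith))

theorem sg_mul_or (a b : Bool) : sg a * sg b = 1 ∨ sg a * sg b = -1 := by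
  rw [sg_mul]; split_ifs <;> simp

theorem W_pos {ρ : ℝ} (h0 : 0 ≤ ρ) (h1 : ρ ≤ 1 / 2) {d : ℕ} (x y : Fin d → Bool) :
    0 < W ρ x y := by
  refine Finset.prod_pos fun c _ => ?_
  rcases sg_mul_or (x c) (y c) with h | h <;> rw [h] <;> linarith

theorem W_le {ρ : ℝ} (h0 : 0 ≤ ρ) (h1 : ρ ≤ 1 / 2) {d : ℕ} (x y : Fin d → Bool) :
    W ρ x y ≤ exp (ρ * ip x y - ρ ^ 2 * d / 3) := by
  have h2 : exp (ρ * ip x y - ρ ^ 2 * d / 3) =
      ∏ c : Fin d, exp (ρ * (sg (x c) * sg (y c)) - ρ ^ 2 / 3) := by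
    rw [← exp_sum, Finset.sum_sub_distrib, ip, Finset.mul_sum]
    simp
    ring
  rw [h2]
  refine Finset.prod_le_prod (fun c _ => ?_) (fun c _ => factor_le h0 h1 (sg_mul_or _ _))
  rcases sg_mul_or (x c) (y c) with h | h <;> rw [h] <;> linarith

theorem W_ge {ρ : ℝ} (h0 : 0 ≤ ρ) (h1 : ρ ≤ 1 / 2) {d : ℕ} (x y : Fin d → Bool) :
    exp (ρ * ip x y - ρ ^ 2 * d) ≤ W ρ x y := by
  have h2 : exp (ρ * ip x y - ρ ^ 2 * d) =
      ∏ c : Fin d, exp (ρ * (sg (x c) * sg (y c)) - ρ ^ 2) := by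
    rw [← exp_sum, Finset.sum_sub_distrib, ip, Finset.mul_sum]
    simp
    ring
  rw [h2]
  exact Finset.prod_le_prod (fun c _ => (exp_pos _).le) (fun c _ => factor_ge h0 h1 (sg_mul_or _ _))

theorem W_sq {ρ : ℝ} {d : ℕ} (x y : Fin d → Bool) :
    W ρ x y ^ 2 = (1 + ρ ^ 2) ^ d * W (2 * ρ / (1 + ρ ^ 2)) x y := by
  unfold W
  rw [← Finset.prod_pow]
  have : (1 + ρ ^ 2) ^ d = ∏ _c : Fin d, (1 + ρ ^ 2) := by simp
  rw [this, ← Finset.prod_mul_distrib]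
  refine Finset.prod_congr rfl fun c _ => ?_
  have h : (0:ℝ) < 1 + ρ ^ 2 := by positivity
  rcases sg_mul_or (x c) (y c) with h | h <;> rw [h] <;> field_simp <;> ring

/-- sum over pairs of a set as a quadratic form of the indicator -/
theorem BF_ind (ρ : ℝ) {d : ℕ} (K : Finset (Fin d → Bool)) :
    BF ρ (fun x => if x ∈ K then (1:ℝ) else 0) (fun x => if x ∈ K then (1:ℝ) else 0) =
      ∑ q ∈ K ×ˢ K, W ρ q.1 q.2 := by
  unfold BF
  rw [Finset.sum_product]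
  have h1 : ∀ x : Fin d → Bool, ∑ y : Fin d → Bool, (if x ∈ K then (1:ℝ) else 0) *
      (if y ∈ K then (1:ℝ) else 0) * W ρ x y = if x ∈ K then ∑ y ∈ K, W ρ x y else 0 := by
    intro x
    by_cases hx : x ∈ K
    · simp [hx]
    · simp [hx]
  rw [Finset.sum_congr rfl fun x _ => h1 x]
  simp

theorem sum_W_ge {ρ : ℝ} (h0 : 0 ≤ ρ) {d : ℕ} (K : Finset (Fin d → Bool)) :
    (K.card : ℝ) ^ 2 ≤ ∑ q ∈ K ×ˢ K, W ρ q.1 q.2 := by
  rw [← BF_ind]
  refine le_trans (le_of_eq ?_) (BF_ge h0 _)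
  simp

theorem sum_W_le {ρ h : ℝ} (h0 : 0 ≤ ρ) (h1 : ρ ≤ 1) {d : ℕ} (K : Finset (Fin d → Bool))
    (hK : K.Nonempty) (hh : (2 : ℝ) ^ d ≤ exp h * K.card) (hh0 : 0 ≤ h) :
    ∑ q ∈ K ×ˢ K, W ρ q.1 q.2 ≤ (K.card : ℝ) ^ 2 * exp (2 * h * ρ) := by
  rw [← BF_ind]
  refine (BF_le h0 h1 d _ (fun x => by split_ifs <;> norm_num)).trans ?_
  have hp : 0 < 1 + ρ := by linarith
  have e1 : ∑ x : Fin d → Bool, (if x ∈ K then (1:ℝ) else 0) ^ (1 + ρ) = K.card := by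
    have : ∀ x : Fin d → Bool, (if x ∈ K then (1:ℝ) else 0) ^ (1 + ρ) = if x ∈ K then 1 else 0 := by
      intro x
      split_ifs
      · simp
      · exact zero_rpow hp.ne'
    rw [Finset.sum_congr rfl fun x _ => this x]
    simp
  rw [e1]
  have hN : (0:ℝ) < K.card := by exact_mod_cast hK.card_pos
  set N : ℝ := (K.card : ℝ) with hNdef
  set e := 2 - 2 / (1 + ρ) with he
  have he0 : 0 ≤ e := by
    rw [he, sub_nonneg, div_le_iff₀ hp]; linarith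
  have he1 : e ≤ 2 * ρ := by
    rw [he, sub_le_iff_le_add, ← sub_le_iff_le_add', le_div_iff₀ hp]
    nlinarith
  have e2 : (2:ℝ) ^ ((d:ℝ) * e) = ((2:ℝ) ^ d) ^ e := by
    rw [rpow_mul (by norm_num), rpow_natCast]
  have e3 : N ^ (2 / (1 + ρ)) = N ^ 2 / N ^ e := by
    have : 2 / (1 + ρ) = (2:ℕ) - e := by rw [he]; push_cast; ring
    rw [this, rpow_sub hN, rpow_natCast]
  rw [e2, e3]
  have h2 : ((2:ℝ) ^ d) ^ e ≤ (exp h * N) ^ e := rpow_le_rpow (by positivity) hh he0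
  rw [mul_rpow (exp_pos h).le hN.le, ← exp_mul] at h2
  have h3 : 0 < N ^ e := rpow_pos_of_pos hN _
  calc ((2:ℝ) ^ d) ^ e * (N ^ 2 / N ^ e) ≤ (exp (h * e) * N ^ e) * (N ^ 2 / N ^ e) :=
        mul_le_mul_of_nonneg_right h2 (by positivity)
    _ = N ^ 2 * exp (h * e) := by field_simp
    _ ≤ N ^ 2 * exp (2 * h * ρ) := by
        apply mul_le_mul_of_nonneg_left _ (by positivity)
        apply exp_le_exp.2
        nlinarith

/-- Few pairs are close: at least half of the pairs in `K` have inner product less than `s √d`. -/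
theorem far_pairs {s : ℝ} (hs : 3 ≤ s) {d : ℕ} (hd : s ≤ 2 * √d) (K : Finset (Fin d → Bool))
    (hK : K.Nonempty) (hh : (2 : ℝ) ^ d ≤ exp (s * √d / 8) * K.card) :
    (1 / 2 : ℝ) * (K.card : ℝ) ^ 2 ≤
      (((K ×ˢ K).filter (fun q => ¬ (s * √d ≤ ip q.1 q.2))).card : ℝ) := by
  have hd0 : 0 < √(d:ℝ) := by linarith
  have hdd : √(d:ℝ) ^ 2 = d := Real.sq_sqrt (Nat.cast_nonneg d)
  set ρ := s / (4 * √d) with hρ
  have hρ0 : 0 ≤ ρ := by positivity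
  have hρ1 : ρ ≤ 1 / 2 := by rw [hρ, div_le_iff₀ (by positivity)]; linarith
  have h1 := sum_W_le hρ0 (by linarith) K hK hh (by positivity)
  have e1 : 2 * (s * √d / 8) * ρ = s ^ 2 / 16 := by rw [hρ]; field_simp; ring
  rw [e1] at h1
  set A := (K ×ˢ K).filter (fun q => s * √d ≤ ip q.1 q.2) with hA
  have h2 : (A.card : ℝ) * exp (3 * s ^ 2 / 16) ≤ ∑ q ∈ K ×ˢ K, W ρ q.1 q.2 := by
    calc (A.card : ℝ) * exp (3 * s ^ 2 / 16) = ∑ _q ∈ A, exp (3 * s ^ 2 / 16) := by simp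
      _ ≤ ∑ q ∈ A, W ρ q.1 q.2 := by
          refine Finset.sum_le_sum fun q hq => ?_
          have hq2 := (Finset.mem_filter.1 hq).2
          refine le_trans (exp_le_exp.2 ?_) (W_ge hρ0 hρ1 q.1 q.2)
          have h3 : ρ * (s * √d) ≤ ρ * ip q.1 q.2 := mul_le_mul_of_nonneg_left hq2 hρ0
          have h4 : ρ * (s * √d) = s ^ 2 / 4 := by rw [hρ]; field_simp
          have h5 : ρ ^ 2 * d = s ^ 2 / 16 := by
            have hd1 : (0:ℝ) < d := by rw [← hdd]; positivity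
            rw [hρ, div_pow, mul_pow, hdd]; field_simp; ring
          linarith
      _ ≤ ∑ q ∈ K ×ˢ K, W ρ q.1 q.2 :=
          Finset.sum_le_sum_of_subset_of_nonneg (Finset.filter_subset _ _)
            fun q _ _ => (W_pos hρ0 hρ1 _ _).le
  have h3 : (A.card : ℝ) ≤ (1 / 2) * (K.card : ℝ) ^ 2 := by
    have h4 := h2.trans h1
    have h5 : (A.card : ℝ) ≤ (K.card : ℝ) ^ 2 * exp (-(s ^ 2 / 8)) := by
      have h6 : exp (s ^ 2 / 16) = exp (-(s ^ 2 / 8)) * exp (3 * s ^ 2 / 16) := by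
        rw [← exp_add]; congr 1; ring
      rw [h6, ← mul_assoc] at h4
      exact le_of_mul_le_mul_right h4 (exp_pos _)
    refine h5.trans ?_
    rw [mul_comm]
    apply mul_le_mul_of_nonneg_right _ (by positivity)
    have h7 : exp (-(s ^ 2 / 8)) ≤ exp (-(9 / 8)) := exp_le_exp.2 (by nlinarith)
    refine h7.trans ?_
    rw [exp_neg]
    have h8 : (2:ℝ) ≤ exp (9 / 8) := by
      have := Real.add_one_le_exp (9 / 8 : ℝ); linarith
    rw [one_div]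
    exact inv_anti₀ (by norm_num) h8
  have h4 : (A.card : ℝ) + (((K ×ˢ K).filter (fun q => ¬ (s * √d ≤ ip q.1 q.2))).card : ℝ) =
      (K.card : ℝ) ^ 2 := by
    have := Finset.card_filter_add_card_filter_not (s := K ×ˢ K) (fun q => s * √d ≤ ip q.1 q.2)
    rw [Finset.card_product] at this
    rw [sq]
    exact_mod_cast this
  linarith

/-- Not too few pairs are close. -/
theorem close_pairs {s : ℝ} (hs : 1 ≤ s) {d : ℕ} (hd : 12 * s ≤ √d) (K : Finset (Fin d → Bool))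
    (hK : K.Nonempty) (hh : (2 : ℝ) ^ d ≤ exp (s * √d / 8) * K.card) :
    exp (-(39 * s ^ 2)) / 4 * (K.card : ℝ) ^ 2 ≤
      (((K ×ˢ K).filter (fun q => s * √d ≤ ip q.1 q.2)).card : ℝ) := by
  have hd0 : 0 < √(d:ℝ) := by linarith
  have hdd : √(d:ℝ) ^ 2 = d := Real.sq_sqrt (Nat.cast_nonneg d)
  set ρ := 6 * s / √d with hρ
  have hρ0 : 0 ≤ ρ := by positivity
  have hρ1 : ρ ≤ 1 / 2 := by rw [hρ, div_le_iff₀ (by positivity)]; linarith
  have hρd : ρ ^ 2 * d = 36 * s ^ 2 := by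
    have hd1 : (0:ℝ) < d := by rw [← hdd]; positivity
    rw [hρ, div_pow, mul_pow, hdd]; field_simp; ring
  have hN : (0:ℝ) < K.card := by exact_mod_cast hK.card_pos
  set N : ℝ := (K.card : ℝ) with hNdef
  set T := ∑ q ∈ K ×ˢ K, W ρ q.1 q.2 with hT
  have hT1 : N ^ 2 ≤ T := sum_W_ge hρ0 K
  set ρ' := 2 * ρ / (1 + ρ ^ 2) with hρ'
  have hρ'0 : 0 ≤ ρ' := by positivity
  have hρ'1 : ρ' ≤ 1 := by
    rw [hρ', div_le_iff₀ (by positivity)]; nlinarith [sq_nonneg (1 - ρ)]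
  have hρ'2 : ρ' ≤ 2 * ρ := by
    rw [hρ', div_le_iff₀ (by positivity)]; nlinarith [mul_nonneg hρ0 (sq_nonneg ρ)]
  have hT2 : ∑ q ∈ K ×ˢ K, W ρ q.1 q.2 ^ 2 ≤ N ^ 2 * exp (39 * s ^ 2) := by
    have h1 := sum_W_le hρ'0 hρ'1 K hK hh (by positivity)
    have h2 : ∑ q ∈ K ×ˢ K, W ρ q.1 q.2 ^ 2 = (1 + ρ ^ 2) ^ d * ∑ q ∈ K ×ˢ K, W ρ' q.1 q.2 := by
      rw [Finset.mul_sum]
      exact Finset.sum_congr rfl fun q _ => W_sq _ _
    rw [h2]
    have h3 : (1 + ρ ^ 2) ^ d ≤ exp (36 * s ^ 2) := by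
      rw [← hρd, mul_comm (ρ ^ 2) (d:ℝ), exp_nat_mul]
      apply pow_le_pow_left₀ (by positivity)
      have := Real.add_one_le_exp (ρ ^ 2); linarith
    have h4 : exp (2 * (s * √d / 8) * ρ') ≤ exp (3 * s ^ 2) := by
      apply exp_le_exp.2
      have h5 : 2 * (s * √d / 8) * ρ' ≤ 2 * (s * √d / 8) * (2 * ρ) :=
        mul_le_mul_of_nonneg_left hρ'2 (by positivity)
      have h6 : 2 * (s * √d / 8) * (2 * ρ) = 3 * s ^ 2 := by rw [hρ]; field_simp; ring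
      linarith
    calc (1 + ρ ^ 2) ^ d * ∑ q ∈ K ×ˢ K, W ρ' q.1 q.2
        ≤ exp (36 * s ^ 2) * (N ^ 2 * exp (3 * s ^ 2)) := by
          apply mul_le_mul h3 (h1.trans (mul_le_mul_of_nonneg_left h4 (by positivity)))
          · exact Finset.sum_nonneg fun q _ => Finset.prod_nonneg fun c _ => by
              rcases sg_mul_or (q.1 c) (q.2 c) with h | h <;> rw [h] <;> linarith
          · positivity
      _ = N ^ 2 * exp (39 * s ^ 2) := by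
          rw [show (39:ℝ) * s ^ 2 = 36 * s ^ 2 + 3 * s ^ 2 by ring, exp_add]; ring
  set A := (K ×ˢ K).filter (fun q => (1 / 2 : ℝ) ≤ W ρ q.1 q.2) with hA
  have hA1 : T / 2 ≤ ∑ q ∈ A, W ρ q.1 q.2 := by
    have h1 := Finset.sum_filter_add_sum_filter_not (K ×ˢ K) (fun q => (1 / 2 : ℝ) ≤ W ρ q.1 q.2)
      (fun q => W ρ q.1 q.2)
    have h2 : ∑ q ∈ (K ×ˢ K).filter (fun q => ¬ ((1 / 2 : ℝ) ≤ W ρ q.1 q.2)), W ρ q.1 q.2 ≤
        N ^ 2 / 2 := by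
      calc ∑ q ∈ (K ×ˢ K).filter (fun q => ¬ ((1 / 2 : ℝ) ≤ W ρ q.1 q.2)), W ρ q.1 q.2
          ≤ ∑ _q ∈ (K ×ˢ K).filter (fun q => ¬ ((1 / 2 : ℝ) ≤ W ρ q.1 q.2)), (1 / 2 : ℝ) :=
            Finset.sum_le_sum fun q hq => (not_le.1 (Finset.mem_filter.1 hq).2).le
        _ ≤ ∑ _q ∈ K ×ˢ K, (1 / 2 : ℝ) :=
            Finset.sum_le_sum_of_subset_of_nonneg (Finset.filter_subset _ _)
              fun q _ _ => by norm_num
        _ = N ^ 2 / 2 := by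
            rw [Finset.sum_const, Finset.card_product, nsmul_eq_mul]; push_cast; ring
    linarith
  have hA2 : (T / 2) ^ 2 ≤ A.card * (N ^ 2 * exp (39 * s ^ 2)) := by
    have h1 : (∑ q ∈ A, W ρ q.1 q.2) ^ 2 ≤ A.card * ∑ q ∈ A, W ρ q.1 q.2 ^ 2 :=
      sq_sum_le_card_mul_sum_sq
    have h2 : ∑ q ∈ A, W ρ q.1 q.2 ^ 2 ≤ ∑ q ∈ K ×ˢ K, W ρ q.1 q.2 ^ 2 :=
      Finset.sum_le_sum_of_subset_of_nonneg (Finset.filter_subset _ _) fun q _ _ => sq_nonneg _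
    have h3 : (T / 2) ^ 2 ≤ (∑ q ∈ A, W ρ q.1 q.2) ^ 2 := by
      apply pow_le_pow_left₀ _ hA1
      have : 0 ≤ N ^ 2 := by positivity
      linarith
    exact h3.trans (h1.trans (mul_le_mul_of_nonneg_left (h2.trans hT2) (Nat.cast_nonneg _)))
  have hA3 : exp (-(39 * s ^ 2)) / 4 * N ^ 2 ≤ A.card := by
    have h1 : N ^ 4 / 4 ≤ (T / 2) ^ 2 := by
      have h0 : 0 ≤ N ^ 2 := by positivity
      nlinarith
    have h2 := h1.trans hA2
    have h3 : 0 < N ^ 2 * exp (39 * s ^ 2) := by positivity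
    rw [← div_le_iff₀ h3] at h2
    refine le_trans (le_of_eq ?_) h2
    rw [exp_neg]
    field_simp
  refine hA3.trans ?_
  have hsub : A ⊆ (K ×ˢ K).filter (fun q => s * √d ≤ ip q.1 q.2) := by
    intro q hq
    rw [hA, Finset.mem_filter] at hq
    refine Finset.mem_filter.2 ⟨hq.1, ?_⟩
    by_contra hcon
    push Not at hcon
    have h1 := W_le hρ0 hρ1 q.1 q.2
    have h2 : exp (ρ * ip q.1 q.2 - ρ ^ 2 * d / 3) ≤ exp (-6) := by
      apply exp_le_exp.2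
      have h3 : ρ * ip q.1 q.2 ≤ ρ * (s * √d) := mul_le_mul_of_nonneg_left hcon.le hρ0
      have h4 : ρ * (s * √d) = 6 * s ^ 2 := by rw [hρ]; field_simp
      nlinarith
    have h5 : exp (-6 : ℝ) < 1 / 2 := by
      rw [exp_neg, one_div]
      apply inv_strictAnti₀ (by norm_num)
      have := Real.add_one_le_exp (6 : ℝ); linarith
    linarith [hq.2]
  exact_mod_cast Finset.card_le_card hsub

end Pool.Agent.T2h61.SP
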