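import Mathlib
import Pool.Agent.T2h61.SP.Sat
import Pool.Agent.T2h61.SP.Count
import Pool.Agent.T2h61.SP.Defs

/-!
# The random threshold graph on the cube
-/

set_option autoImplicit false

namespace Pool.Agent.T2h61.SP

open Real Finset

theorem ip_hamming {d : ℕ} (x y : Fin d → Bool) : ip x y = d - 2 * hammingDist x y := by
  unfold ip hammingDist
  have h1 : ∀ c : Fin d, sg (x c) * sg (y c) = 1 - 2 * (if x c ≠ y c then 1 else 0) := by
    intro c
    rw [sg_mul]
    by_cases h : x c = y c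
    · simp [h]
    · simp [h]; norm_num
  rw [Finset.sum_congr rfl fun c _ => h1 c, Finset.sum_sub_distrib, ← Finset.mul_sum,
    Finset.sum_boole]
  simp

/-- pigeonhole: many related pairs give an element of large degree -/
theorem pigeon {Q : Type} [DecidableEq Q] (E : Q → Q → Prop) [∀ x y, Decidable (E x y)]
    (K : Finset Q) (hK : K.Nonempty) (p : ℝ)
    (h : p * (K.card : ℝ) ^ 2 ≤ (((K ×ˢ K).filter (fun q => E q.1 q.2)).card : ℝ)) :
    ∃ x ∈ K, ∃ B : Finset Q, B ⊆ K ∧ (∀ y ∈ B, E x y) ∧ p * K.card ≤ B.card := by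
  by_contra hcon
  push Not at hcon
  have h1 : ∀ x ∈ K, ((K.filter (fun y => E x y)).card : ℝ) < p * K.card := by
    intro x hx
    exact hcon x hx _ (Finset.filter_subset _ _) (fun y hy => (Finset.mem_filter.1 hy).2)
  have h2 : (((K ×ˢ K).filter (fun q => E q.1 q.2)).card : ℝ) =
      ∑ x ∈ K, ((K.filter (fun y => E x y)).card : ℝ) := by
    rw [Finset.card_filter, Finset.sum_product]
    push_cast
    refine Finset.sum_congr rfl fun x _ => ?_
    rw [Finset.card_filter]
    push_cast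
    rfl
  rw [h2] at h
  have h3 : ∑ x ∈ K, ((K.filter (fun y => E x y)).card : ℝ) < ∑ _x ∈ K, p * K.card :=
    Finset.sum_lt_sum_of_nonempty hK h1
  rw [Finset.sum_const, nsmul_eq_mul] at h3
  nlinarith

theorem lower_core (s : ℝ) (hs : 3 ≤ s) (d : ℕ) (hd : 12 * s ≤ √d) (k : ℕ)
    (hk : √d * exp (80 * s ^ 2) ≤ k) (n : ℕ) (hn : (n : ℝ) ≤ exp (s * √d / 16)) :
    ∃ G : SimpleGraph (Fin n), NoMono G k ∧ HammingGraph G d := by
  classical
  have hd0 : 0 < √(d:ℝ) := by linarith
  have hd36 : 36 ≤ √(d:ℝ) := by linarith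
  set h := s * √d / 8 with hh
  have hh13 : 13 ≤ h := by rw [hh]; nlinarith
  set ζ := exp (-h) with hζ
  set p := exp (-(39 * s ^ 2)) / 4 with hp
  have hp0 : 0 < p := by positivity
  have hp1 : p ≤ 1 / 4 := by
    rw [hp]
    have : exp (-(39 * s ^ 2)) ≤ 1 := exp_le_one_iff.2 (by nlinarith)
    linarith
  set r := ⌈h / p⌉₊ with hr
  have hhp : 1 ≤ h / p := by
    rw [le_div_iff₀ hp0]; linarith
  have hr1 : h / p ≤ r := Nat.le_ceil _
  have hr2 : (r : ℝ) ≤ 2 * (h / p) := by
    have := Nat.ceil_lt_add_one (show 0 ≤ h / p by positivity)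
    linarith
  have hrge1 : (1:ℝ) ≤ r := hhp.trans hr1
  have hpr : (1 - p) ^ r ≤ ζ := by
    have h1 : (1 - p) ^ r ≤ exp (-p) ^ r := by
      apply pow_le_pow_left₀ (by linarith)
      have := Real.add_one_le_exp (-p); linarith
    refine h1.trans ?_
    rw [← exp_nat_mul]
    apply exp_le_exp.2
    rw [div_le_iff₀ hp0] at hr1
    linarith
  have hpr2 : (1 - (1 / 2 : ℝ)) ^ r ≤ ζ :=
    (pow_le_pow_left₀ (by norm_num) (by linarith) r).trans hpr
  -- size of k
  have hk1 : 128 * r ≤ (k : ℝ) ∧ 16 * log k ≤ p * k := by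
    have e1 : exp (-(39 * s ^ 2)) * exp (39 * s ^ 2) = 1 := by rw [← exp_add]; simp
    have h9 : (9:ℝ) ≤ s ^ 2 := by nlinarith
    constructor
    · have h1 : (r : ℝ) * 128 ≤ 32 * (s * √d) * (4 * exp (39 * s ^ 2)) := by
        have h2 : 2 * (h / p) = s * √d / 4 * (4 * exp (39 * s ^ 2)) := by
          rw [hh, hp, exp_neg]; field_simp; ring
        rw [h2] at hr2
        nlinarith [exp_pos (39 * s ^ 2)]
      have h2 : 32 * (s * √d) * (4 * exp (39 * s ^ 2)) ≤ √d * exp (80 * s ^ 2) := by
        have h3 : exp (80 * s ^ 2) = exp (41 * s ^ 2) * exp (39 * s ^ 2) := by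
          rw [← exp_add]; congr 1; ring
        rw [h3]
        have h4 : 128 * s ≤ exp (41 * s ^ 2) := by
          have h5 := Real.quadratic_le_exp_of_nonneg (x := 41 * s ^ 2) (by positivity)
          nlinarith
        calc 32 * (s * √d) * (4 * exp (39 * s ^ 2)) = √d * ((128 * s) * exp (39 * s ^ 2)) := by ring
          _ ≤ √d * (exp (41 * s ^ 2) * exp (39 * s ^ 2)) := by
              apply mul_le_mul_of_nonneg_left _ hd0.le
              exact mul_le_mul_of_nonneg_right h4 (exp_pos _).le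
      linarith
    · have hkpos : (0:ℝ) < k := lt_of_lt_of_le (by positivity) hk
      -- log k ≤ 2 √k
      have h1 : log k ≤ 2 * √k := by
        have h2 := Real.log_le_sub_one_of_pos (show 0 < √(k:ℝ) by positivity)
        rw [Real.log_sqrt hkpos.le] at h2
        linarith
      have h2 : 32 ≤ p * √k := by
        have h3 : exp (80 * s ^ 2) ≤ k := by
          refine le_trans ?_ hk
          nlinarith [exp_pos (80 * s ^ 2)]
        have h4 : exp (40 * s ^ 2) ≤ √k := by
          apply Real.le_sqrt_of_sq_le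
          rw [← exp_nat_mul]
          refine le_trans (le_of_eq ?_) h3
          congr 1; push_cast; ring
        have h5 : p * exp (40 * s ^ 2) ≤ p * √k := mul_le_mul_of_nonneg_left h4 hp0.le
        have h6 : p * exp (40 * s ^ 2) = exp (s ^ 2) / 4 := by
          rw [hp, div_mul_eq_mul_div, ← exp_add]; congr 2; ring
        rw [h6] at h5
        have h7 : 128 ≤ exp (s ^ 2) := by
          have h8 : exp 9 ≤ exp (s ^ 2) := exp_le_exp.2 h9
          have h10 : (128:ℝ) ≤ exp 9 := by
            have h11 : exp (9:ℝ) = exp (9 / 2) ^ 2 := by rw [← exp_nat_mul]; congr 1; norm_num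
            have h12 := Real.quadratic_le_exp_of_nonneg (x := (9 / 2 : ℝ)) (by norm_num)
            rw [h11]; nlinarith
          linarith
        linarith
      have h3 : √(k:ℝ) * √k = k := Real.mul_self_sqrt hkpos.le
      nlinarith [Real.sqrt_nonneg (k:ℝ)]
  obtain ⟨hk1, hk2⟩ := hk1
  have hkpos : (0:ℝ) < k := by linarith
  have hkk : 1 ≤ k := by exact_mod_cast (show (0:ℝ) < k from hkpos)
  have hrk : r ≤ k := by
    have : (r:ℝ) ≤ k := by linarith
    exact_mod_cast this
  -- the two relations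
  set E : (Fin d → Bool) → (Fin d → Bool) → Prop := fun x y => s * √d ≤ ip x y with hE
  set E' : (Fin d → Bool) → (Fin d → Bool) → Prop := fun x y => ¬ (s * √d ≤ ip x y) with hE'
  have hcardQ : (Fintype.card (Fin d → Bool) : ℝ) = 2 ^ d := by simp
  have hζ0 : 0 < ζ := exp_pos _
  have hζ1 : ζ ≤ 1 := exp_le_one_iff.2 (by linarith)
  have hdense : ∀ K : Finset (Fin d → Bool), ζ * Fintype.card (Fin d → Bool) < K.card →
      K.Nonempty ∧ (2:ℝ) ^ d ≤ exp (s * √d / 8) * K.card := by
    intro K hK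
    rw [hcardQ] at hK
    refine ⟨?_, ?_⟩
    · rw [Finset.nonempty_iff_ne_empty]
      rintro rfl
      simp at hK
      have : 0 < ζ * 2 ^ d := by positivity
      linarith
    · have h1 : exp (s * √d / 8) * (ζ * 2 ^ d) = 2 ^ d := by
        rw [← mul_assoc, hζ, ← exp_add, ← hh]; simp
      rw [← h1]
      exact mul_le_mul_of_nonneg_left hK.le (exp_pos _).le
  have c1 := count E p ζ (by linarith) hζ0 hζ1 k r hkk hrk hpr (by
    intro K hK
    obtain ⟨h1, h2⟩ := hdense K hK
    exact pigeon E K h1 p (close_pairs (by linarith) hd K h1 h2))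
  have c2 := count E' (1 / 2) ζ (by norm_num) hζ0 hζ1 k r hkk hrk hpr2 (by
    intro K hK
    obtain ⟨h1, h2⟩ := hdense K hK
    exact pigeon E' K h1 (1 / 2) (far_pairs hs (by linarith) K h1 h2))
  set A := indep E Finset.univ k ∪ indep E' Finset.univ k with hA
  have hAcard : (A.card : ℝ) ≤ 2 * ((r + 1) * (k : ℝ) ^ r * ζ ^ (k - r)) *
      (Fintype.card (Fin d → Bool) : ℝ) ^ k := by
    have h1 : (A.card : ℝ) ≤ (indep E Finset.univ k).card + (indep E' Finset.univ k).card := by
      exact_mod_cast Finset.card_union_le _ _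
    linarith
  have hgood : (n : ℝ) ^ k * A.card < (Fintype.card (Fin d → Bool) : ℝ) ^ k := by
    have hQ : (0:ℝ) < (Fintype.card (Fin d → Bool) : ℝ) ^ k := by rw [hcardQ]; positivity
    have h1 : (n : ℝ) ^ k ≤ exp (h * k / 2) := by
      refine (pow_le_pow_left₀ (Nat.cast_nonneg _) hn k).trans (le_of_eq ?_)
      rw [← exp_nat_mul]; congr 1; rw [hh]; ring
    have h2 : 2 * ((r:ℝ) + 1) ≤ exp (h * r) := by
      have := Real.add_one_le_exp (h * r)
      nlinarith
    have h3 : (k : ℝ) ^ r ≤ exp (h * k / 8) := by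
      have h4 : (k : ℝ) ^ r = exp (r * log k) := by
        rw [mul_comm, ← Real.rpow_def_of_pos hkpos, Real.rpow_natCast]
      rw [h4]
      apply exp_le_exp.2
      have h5 : 0 ≤ log (k:ℝ) := Real.log_nonneg (by exact_mod_cast hkk)
      have h6 : (r:ℝ) * log k ≤ 2 * (h / p) * log k := mul_le_mul_of_nonneg_right hr2 h5
      have h7 : 2 * (h / p) * log k ≤ h * k / 8 := by
        rw [mul_div_assoc', div_mul_eq_mul_div, div_le_iff₀ hp0]
        have : h * (16 * log k) ≤ h * (p * k) := mul_le_mul_of_nonneg_left hk2 (by linarith)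
        linarith
      linarith
    have h4 : ζ ^ (k - r) = exp (-(h * (k - r))) := by
      rw [hζ, ← exp_nat_mul, Nat.cast_sub hrk]; congr 1; ring
    have h5 : exp (h * k / 2) * (2 * ((r + 1) * (k : ℝ) ^ r * ζ ^ (k - r))) < 1 := by
      calc exp (h * k / 2) * (2 * ((r + 1) * (k : ℝ) ^ r * ζ ^ (k - r)))
          = exp (h * k / 2) * ((2 * (r + 1)) * (k : ℝ) ^ r * ζ ^ (k - r)) := by ring
        _ ≤ exp (h * k / 2) * (exp (h * r) * exp (h * k / 8) * exp (-(h * (k - r)))) := by
            rw [h4]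
            apply mul_le_mul_of_nonneg_left _ (exp_pos _).le
            apply mul_le_mul_of_nonneg_right _ (exp_pos _).le
            exact mul_le_mul h2 h3 (by positivity) (exp_pos _).le
        _ = exp (2 * (h * r) - 3 * (h * k) / 8) := by
            rw [← exp_add, ← exp_add, ← exp_add]; congr 1; ring
        _ < 1 := by
            rw [exp_lt_one_iff]
            have : h * (128 * r) ≤ h * k := mul_le_mul_of_nonneg_left hk1 (by linarith)
            have h6 : 0 < h * k := by positivity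
            nlinarith
    calc (n : ℝ) ^ k * A.card ≤ exp (h * k / 2) * (2 * ((r + 1) * (k : ℝ) ^ r * ζ ^ (k - r)) *
          (Fintype.card (Fin d → Bool) : ℝ) ^ k) :=
          mul_le_mul h1 hAcard (Nat.cast_nonneg _) (exp_pos _).le
      _ = exp (h * k / 2) * (2 * ((r + 1) * (k : ℝ) ^ r * ζ ^ (k - r))) *
          (Fintype.card (Fin d → Bool) : ℝ) ^ k := by ring
      _ < 1 * (Fintype.card (Fin d → Bool) : ℝ) ^ k := mul_lt_mul_of_pos_right h5 hQ
      _ = _ := one_mul _
  obtain ⟨f, hf⟩ := exists_good n k A hgood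
  let G : SimpleGraph (Fin n) :=
    { Adj := fun u v => u ≠ v ∧ s * √d ≤ ip (f u) (f v)
      symm := ⟨fun u v huv => ⟨huv.1.symm, by rw [ip_comm]; exact huv.2⟩⟩
      loopless := ⟨fun u hu => hu.1 rfl⟩ }
  refine ⟨G, ⟨?_, ?_⟩, f, ⌊(d - s * √d) / 2⌋₊, ?_⟩
  · intro T hT
    have hcard : T.card = k := hT.card_eq
    refine hf (fun i => T.orderEmbOfFin hcard i) (T.orderEmbOfFin hcard).injective ?_
    refine Finset.mem_union_right _ (mem_indep.2 ⟨fun _ => Finset.mem_univ _, fun i i' hii => ?_⟩)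
    have h1 : G.Adj (T.orderEmbOfFin hcard i) (T.orderEmbOfFin hcard i') :=
      hT.isClique (T.orderEmbOfFin_mem hcard i) (T.orderEmbOfFin_mem hcard i')
        (fun h => hii ((T.orderEmbOfFin hcard).injective h))
    exact not_not.2 h1.2
  · intro T hT
    have hcard : T.card = k := hT.card_eq
    refine hf (fun i => T.orderEmbOfFin hcard i) (T.orderEmbOfFin hcard).injective ?_
    refine Finset.mem_union_left _ (mem_indep.2 ⟨fun _ => Finset.mem_univ _, fun i i' hii => ?_⟩)
    have hne : T.orderEmbOfFin hcard i ≠ T.orderEmbOfFin hcard i' :=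
      fun h => hii ((T.orderEmbOfFin hcard).injective h)
    have h1 : Gᶜ.Adj (T.orderEmbOfFin hcard i) (T.orderEmbOfFin hcard i') :=
      hT.isClique (T.orderEmbOfFin_mem hcard i) (T.orderEmbOfFin_mem hcard i') hne
    rw [SimpleGraph.compl_adj] at h1
    exact fun h2 => h1.2 ⟨hne, h2⟩
  · intro u v huv
    have hdd : √(d:ℝ) ^ 2 = d := Real.sq_sqrt (Nat.cast_nonneg d)
    have h1 : 0 ≤ ((d:ℝ) - s * √d) / 2 := by nlinarith
    have h2 : G.Adj u v ↔ s * √d ≤ ip (f u) (f v) := ⟨fun h => h.2, fun h => ⟨huv, h⟩⟩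
    rw [h2, ip_hamming, Nat.le_floor_iff h1]
    constructor
    · intro h3; linarith
    · intro h3; linarith

end Pool.Agent.T2h61.SP
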