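import Mathlib
import Pool.Agent.T2h61.SP.Lower
import Pool.Agent.T2h61.SP.Basic

/-!
# The lower bound for all `k` and `d`
-/

set_option autoImplicit false

namespace Pool.Agent.T2h61.SP

open Real Finset

/-- `log (2 + k ^ 2 / d)` -/
noncomputable def ell (k d : ℕ) : ℝ := Real.log (2 + (k : ℝ) ^ 2 / d)

/-- `min k (√(d ℓ) + ℓ)` with `ℓ = log (2 + k ^ 2 / d)` -/
noncomputable def FF (k d : ℕ) : ℝ := min (k : ℝ) (√(d * ell k d) + ell k d)

theorem ell_pos (k d : ℕ) : 0 < ell k d := by
  unfold ell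
  apply Real.log_pos
  have : 0 ≤ (k : ℝ) ^ 2 / d := by positivity
  linarith

theorem FF_pos {k d : ℕ} (hk : 1 ≤ k) : 0 < FF k d := by
  unfold FF
  refine lt_min (by exact_mod_cast hk) ?_
  have := ell_pos k d
  positivity

/-- the number of vertices obtained from `lower_core` -/
theorem log_ge_of_core (s : ℝ) (hs : 3 ≤ s) (d : ℕ) (hd : 12 * s ≤ √d) (k : ℕ)
    (hk : √d * exp (80 * s ^ 2) ≤ k) : s * √d / 32 ≤ Real.log (hamOrder k d) := by
  set y := exp (s * √d / 16) with hy
  obtain ⟨G, h1, h2⟩ := lower_core s hs d hd k hk ⌊y⌋₊ (Nat.floor_le (exp_pos _).le)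
  have h3 := le_hamOrder h1 h2
  have hsd : 108 ≤ s * √d := by nlinarith
  have hy2 : 2 ≤ y := by
    have := Real.add_one_le_exp (s * √d / 16)
    rw [hy]; linarith
  have h4 : y / 2 ≤ (⌊y⌋₊ : ℝ) := by
    have := Nat.lt_floor_add_one y
    linarith
  have h5 : y / 2 ≤ (hamOrder k d : ℝ) := h4.trans (by exact_mod_cast h3)
  have h6 : Real.log (y / 2) ≤ Real.log (hamOrder k d) := Real.log_le_log (by linarith) h5
  refine le_trans ?_ h6
  rw [Real.log_div (by linarith) (by norm_num), hy, Real.log_exp]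
  have := Real.log_two_lt_d9
  linarith

theorem ell_le_log_pred {k d : ℕ} (hk : 3 ≤ k) (hd : 1 ≤ d) :
    ell k d ≤ 4 * Real.log ((k : ℝ) - 1) := by
  have hk' : (3:ℝ) ≤ k := by exact_mod_cast hk
  have hd' : (1:ℝ) ≤ d := by exact_mod_cast hd
  unfold ell
  have h1 : 2 + (k : ℝ) ^ 2 / d ≤ ((k:ℝ) - 1) ^ 4 := by
    have h2 : (k : ℝ) ^ 2 / d ≤ (k:ℝ) ^ 2 := div_le_self (by positivity) hd'
    nlinarith [mul_nonneg (sub_nonneg.2 hk') (sub_nonneg.2 hk'),
      mul_nonneg (mul_nonneg (sub_nonneg.2 hk') (sub_nonneg.2 hk')) (sub_nonneg.2 hk'),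
      mul_nonneg (mul_nonneg (sub_nonneg.2 hk') (sub_nonneg.2 hk'))
        (mul_nonneg (sub_nonneg.2 hk') (sub_nonneg.2 hk'))]
  have h3 : Real.log (2 + (k : ℝ) ^ 2 / d) ≤ Real.log (((k:ℝ) - 1) ^ 4) :=
    Real.log_le_log (by positivity) h1
  rw [Real.log_pow] at h3
  push_cast at h3
  exact h3

theorem log_pred_le {k d : ℕ} (hk : 3 ≤ k) : Real.log ((k : ℝ) - 1) ≤ Real.log (hamOrder k d) := by
  have hk' : (3:ℝ) ≤ k := by exact_mod_cast hk
  have h1 := pred_le_hamOrder k d (by omega)
  have h2 : ((k - 1 : ℕ) : ℝ) ≤ hamOrder k d := by exact_mod_cast h1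
  rw [Nat.cast_sub (by omega)] at h2
  push_cast at h2
  exact Real.log_le_log (by linarith) h2

theorem lower_all : ∃ c : ℝ, 0 < c ∧ ∀ d k : ℕ, 1 ≤ d → 3 ≤ k →
    c * FF k d ≤ Real.log (hamOrder k d) := by
  set K0 := exp 720 with hK0
  have hK1 : 1 ≤ K0 := by rw [hK0]; exact one_le_exp (by norm_num)
  refine ⟨1 / (2000 * K0), by positivity, fun d k hd hk => ?_⟩
  have hk' : (3:ℝ) ≤ k := by exact_mod_cast hk
  have hd' : (1:ℝ) ≤ d := by exact_mod_cast hd
  have hsd : 1 ≤ √(d:ℝ) := by rw [Real.one_le_sqrt]; exact hd'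
  have hdd : √(d:ℝ) ^ 2 = d := Real.sq_sqrt (Nat.cast_nonneg d)
  have hell := ell_pos k d
  have hF := FF_pos (k := k) (d := d) (by omega)
  have hcF : ∀ B : ℝ, FF k d ≤ B → 1 / (2000 * K0) * FF k d ≤ B / 2000 := by
    intro B hB
    rw [one_div_mul_eq_div, div_le_div_iff₀ (by positivity) (by norm_num)]
    nlinarith
  by_cases hcase : √(d:ℝ) * K0 ≤ k
  · -- k is large compared with √d
    set t := Real.log (k / √d) with ht
    have hkd : K0 ≤ k / √d := by rw [le_div_iff₀ (by positivity)]; linarith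
    have ht720 : 720 ≤ t := by
      rw [ht, Real.le_log_iff_exp_le (by positivity)]; exact hkd
    set s := √(t / 80) with hs
    have hs2 : s ^ 2 = t / 80 := by rw [hs]; exact Real.sq_sqrt (by linarith)
    have hs3 : 3 ≤ s := by
      rw [hs]; apply Real.le_sqrt_of_sq_le; linarith
    have hell2 : ell k d ≤ 3 * t := by
      unfold ell
      have h1 : 2 + (k : ℝ) ^ 2 / d ≤ 3 * (k / √d) ^ 2 := by
        rw [div_pow, hdd]
        have h2 : 1 ≤ (k / √(d:ℝ)) ^ 2 := by nlinarith
        rw [div_pow, hdd] at h2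
        linarith
      have h2 : Real.log (2 + (k : ℝ) ^ 2 / d) ≤ Real.log (3 * (k / √d) ^ 2) :=
        Real.log_le_log (by positivity) h1
      rw [Real.log_mul (by norm_num) (by positivity), Real.log_pow] at h2
      have h3 : Real.log 3 ≤ 2 := by
        have := Real.log_le_sub_one_of_pos (show (0:ℝ) < 3 by norm_num); linarith
      push_cast at h2
      linarith
    have hell3 : 2 * t ≤ ell k d := by
      unfold ell
      have h1 : (k / √(d:ℝ)) ^ 2 ≤ 2 + (k : ℝ) ^ 2 / d := by
        rw [div_pow, hdd]; linarith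
      have h2 := Real.log_le_log (by positivity) h1
      rw [Real.log_pow] at h2
      push_cast at h2
      linarith
    by_cases hsmall : 12 * s ≤ √(d:ℝ)
    · have h1 := log_ge_of_core s hs3 d hsmall k (by
        rw [hs2, show 80 * (t / 80) = t by ring, ht, Real.exp_log (by positivity)]
        apply le_of_eq; field_simp)
      refine le_trans (hcF (36 * (s * √d)) ?_) (le_trans ?_ h1)
      · refine (min_le_right _ _).trans ?_
        have e1 : ell k d ≤ 240 * s ^ 2 := by rw [hs2]; linarith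
        have e2 : √(d * ell k d) ≤ 16 * (s * √d) := by
          apply Real.sqrt_le_iff.2
          refine ⟨by positivity, ?_⟩
          have : (16 * (s * √(d:ℝ))) ^ 2 = 256 * s ^ 2 * d := by
            rw [mul_pow, mul_pow, hdd]; ring
          rw [this]
          nlinarith
        nlinarith
      · nlinarith
    · push Not at hsmall
      have h1 : (d:ℝ) ≤ ell k d := by
        rw [← hdd]
        nlinarith
      have h2 : √(d * ell k d) ≤ ell k d := by
        apply Real.sqrt_le_iff.2
        exact ⟨hell.le, by nlinarith⟩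
      have h3 : FF k d ≤ 2 * ell k d := (min_le_right _ _).trans (by linarith)
      have h4 := ell_le_log_pred hk hd
      have h5 := log_pred_le (d := d) hk
      refine le_trans (hcF _ h3) ?_
      linarith
  · push Not at hcase
    have hFk : FF k d ≤ k := min_le_left _ _
    by_cases hbig : 37 * K0 ≤ k
    · set x := (k : ℝ) / K0 with hx
      have hx37 : 37 ≤ x := by rw [hx, le_div_iff₀ (by linarith)]; exact hbig
      have hxd : x ≤ √d := by rw [hx, div_le_iff₀ (by linarith)]; exact hcase.le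
      set d' := ⌊x ^ 2⌋₊ with hd'def
      have hd'1 : (d' : ℝ) ≤ x ^ 2 := Nat.floor_le (by positivity)
      have hd'2 : x ^ 2 - 1 < d' := by have := Nat.lt_floor_add_one (x ^ 2); linarith
      have hd'd : d' ≤ d := by
        have : (d' : ℝ) ≤ d := by
          rw [← hdd]
          exact hd'1.trans (pow_le_pow_left₀ (by linarith) hxd 2)
        exact_mod_cast this
      have hsq1 : √(d':ℝ) ≤ x := Real.sqrt_le_iff.2 ⟨by linarith, hd'1⟩
      have hsq2 : 36 ≤ √(d':ℝ) := by
        apply Real.le_sqrt_of_sq_le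
        nlinarith
      have hsq3 : x / 2 ≤ √(d':ℝ) := by
        apply Real.le_sqrt_of_sq_le
        nlinarith
      have h1 := log_ge_of_core 3 le_rfl d' (by linarith) k (by
        rw [show (80:ℝ) * 3 ^ 2 = 720 by norm_num, ← hK0]
        have : x * K0 = k := by rw [hx]; field_simp
        nlinarith)
      have h2 : Real.log (hamOrder k d') ≤ Real.log (hamOrder k d) := by
        have h3 := pred_le_hamOrder k d' (by omega)
        apply Real.log_le_log
        · have : 0 < hamOrder k d' := by omega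
          exact_mod_cast this
        · exact_mod_cast hamOrder_mono (by omega) hd'd
      refine le_trans ?_ (h1.trans h2)
      calc 1 / (2000 * K0) * FF k d ≤ 1 / (2000 * K0) * k :=
            mul_le_mul_of_nonneg_left hFk (by positivity)
        _ = x / 2000 := by rw [hx]; field_simp
        _ ≤ 3 * √d' / 32 := by linarith
    · push Not at hbig
      have h5 := log_pred_le (d := d) hk
      have h6 : Real.log 2 ≤ Real.log ((k:ℝ) - 1) := Real.log_le_log (by norm_num) (by linarith)
      have h7 := Real.log_two_gt_d9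
      have h8 : 1 / (2000 * K0) * FF k d ≤ 1 / (2000 * K0) * (37 * K0) :=
        mul_le_mul_of_nonneg_left (hFk.trans hbig.le) (by positivity)
      have h9 : 1 / (2000 * K0) * (37 * K0) = 37 / 2000 := by field_simp
      linarith

end Pool.Agent.T2h61.SP
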