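import Mathlib

/-!
# Shrinking the ball

In a unit ball graph without large independent sets one finds a large set of vertices in a ball of
squared radius `1 / 2 + 1 / (2 j)`.
-/

set_option autoImplicit false

namespace Pool.Agent.T2h61.SP

open Finset

section

variable {V : Type} (G : SimpleGraph V)

open Classical in
/-- closed neighbourhood of `v` in `S` -/
noncomputable def cn (S : Finset V) (v : V) : Finset V := S.filter (fun w => w = v ∨ G.Adj v w)

theorem mem_cn {S : Finset V} {v w : V} : w ∈ cn G S v ↔ w ∈ S ∧ (w = v ∨ G.Adj v w) := by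
  simp [cn]

/-- passing to a subset with large relative minimum degree -/
theorem dense_subset (δ : ℝ) (hδ1 : δ < 1) : ∀ (b : ℕ) (S : Finset V), S.Nonempty →
    (∀ T ⊆ S, Gᶜ.IsClique (T : Set V) → T.card ≤ b) →
    ∃ S' ⊆ S, ∃ b' ≤ b, S'.Nonempty ∧ (1 - δ) ^ (b - b') * (S.card : ℝ) ≤ S'.card ∧
      (∀ T ⊆ S', Gᶜ.IsClique (T : Set V) → T.card ≤ b') ∧
      ∀ v ∈ S', δ * (S'.card : ℝ) ≤ (cn G S' v).card := by
  classical
  intro b
  induction b with
  | zero =>
    intro S hS hb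
    obtain ⟨v, hv⟩ := hS
    have := hb {v} (by simpa using hv) (by simp)
    simp at this
  | succ b ih =>
    intro S hS hb
    by_cases hall : ∀ v ∈ S, δ * (S.card : ℝ) ≤ (cn G S v).card
    · exact ⟨S, subset_rfl, b + 1, le_rfl, hS, by simp, hb, hall⟩
    · push Not at hall
      obtain ⟨v, hv, hlt⟩ := hall
      set S1 := S \ cn G S v with hS1
      have hsub : cn G S v ⊆ S := fun w hw => ((mem_cn G).1 hw).1
      have hcard : (S1.card : ℝ) = S.card - (cn G S v).card := by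
        rw [hS1, Finset.card_sdiff_of_subset hsub, Nat.cast_sub (Finset.card_le_card hsub)]
      have hSpos : (0:ℝ) < S.card := by exact_mod_cast hS.card_pos
      have h1 : (1 - δ) * S.card ≤ S1.card := by rw [hcard]; linarith
      have hS1ne : S1.Nonempty := by
        rw [← Finset.card_pos]
        have : (0:ℝ) < S1.card := lt_of_lt_of_le (mul_pos (by linarith) hSpos) h1
        exact_mod_cast this
      have hb1 : ∀ T ⊆ S1, Gᶜ.IsClique (T : Set V) → T.card ≤ b := by
        intro T hT hTc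
        have hvT : v ∉ T := by
          intro hvT
          have := hT hvT
          rw [hS1, Finset.mem_sdiff] at this
          exact this.2 ((mem_cn G).2 ⟨hv, Or.inl rfl⟩)
        have h2 : insert v T ⊆ S := Finset.insert_subset hv
          fun w hw => (Finset.mem_sdiff.1 (hT hw)).1
        have h3 : Gᶜ.IsClique ((insert v T : Finset V) : Set V) := by
          rw [Finset.coe_insert]
          refine hTc.insert fun w hw hvw => ?_
          rw [SimpleGraph.compl_adj]
          have h4 := Finset.mem_sdiff.1 (hT hw)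
          refine ⟨hvw, fun h5 => h4.2 ((mem_cn G).2 ⟨h4.1, Or.inr h5⟩)⟩
        have h4 := hb _ h2 h3
        rw [Finset.card_insert_of_notMem hvT] at h4
        omega
      obtain ⟨S', hS', b', hb', hne, hc, hbl, hdeg⟩ := ih S1 hS1ne hb1
      refine ⟨S', hS'.trans Finset.sdiff_subset, b', by omega, hne, ?_, hbl, hdeg⟩
      have e : b + 1 - b' = (b - b') + 1 := by omega
      rw [e, pow_succ, mul_assoc]
      refine le_trans (mul_le_mul_of_nonneg_left h1 (pow_nonneg (by linarith) _)) hc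

end

section Geometry

variable {E : Type} [NormedAddCommGroup E] [InnerProductSpace ℝ E]

theorem convex_sq (lam : ℝ) (c v w : E) :
    ‖w - ((1 - lam) • c + lam • v)‖ ^ 2 =
      (1 - lam) * ‖w - c‖ ^ 2 + lam * ‖w - v‖ ^ 2 - lam * (1 - lam) * ‖v - c‖ ^ 2 := by
  have h1 : w - ((1 - lam) • c + lam • v) = (1 - lam) • (w - c) + lam • (w - v) := by
    module
  have h2 : v - c = (w - c) - (w - v) := by abel
  rw [h1, h2]
  generalize w - c = x
  generalize w - v = y
  rw [@norm_add_sq_real, @norm_sub_sq_real, norm_smul, norm_smul, real_inner_smul_left,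
    real_inner_smul_right, mul_pow, mul_pow, Real.norm_eq_abs, Real.norm_eq_abs, sq_abs, sq_abs]
  ring

/-- one step: from squared radius `R` to `1 - 1 / (4 R)` -/
theorem geo_step {R : ℝ} (hR : 1 / 2 ≤ R) (c v w : E) (h1 : ‖w - c‖ ≤ ‖v - c‖)
    (h2 : ‖v - c‖ ^ 2 ≤ R) (h3 : ‖w - v‖ ≤ 1) :
    ‖w - ((1 - (1 - 1 / (2 * R))) • c + (1 - 1 / (2 * R)) • v)‖ ^ 2 ≤ 1 - 1 / (4 * R) := by
  rw [convex_sq]
  have hR0 : 0 < R := by linarith
  have e : 1 - 1 / (4 * R) = (1 / (2 * R)) * (1 / (2 * R)) * R + (1 - 1 / (2 * R)) := by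
    field_simp; ring
  rw [e]
  have hl0 : 0 ≤ 1 / (2 * R) := by positivity
  have hl1 : 1 / (2 * R) ≤ 1 := by rw [div_le_one (by linarith)]; linarith
  set m := 1 / (2 * R) with hm
  have h4 : ‖w - c‖ ^ 2 ≤ ‖v - c‖ ^ 2 := pow_le_pow_left₀ (norm_nonneg _) h1 2
  have h5 : ‖w - v‖ ^ 2 ≤ 1 := by
    have := pow_le_pow_left₀ (norm_nonneg _) h3 2
    simpa using this
  have h6 : (1 - (1 - m)) * ‖w - c‖ ^ 2 ≤ m * ‖v - c‖ ^ 2 := by
    have : (1 - (1 - m)) = m := by ring
    rw [this]; exact mul_le_mul_of_nonneg_left h4 hl0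
  have h7 : (1 - m) * ‖w - v‖ ^ 2 ≤ (1 - m) := by
    have := mul_le_mul_of_nonneg_left h5 (sub_nonneg.2 hl1)
    linarith
  have h8 : m * m * ‖v - c‖ ^ 2 ≤ m * m * R := mul_le_mul_of_nonneg_left h2 (by positivity)
  nlinarith

/-- the main iteration -/
theorem shrink {V : Type} (G : SimpleGraph V) (x : V → E)
    (hG : ∀ u v, G.Adj u v → dist (x u) (x v) ≤ 1) (δ : ℝ) (hδ0 : 0 < δ) (hδ1 : δ < 1) :
    ∀ (i : ℕ) (b : ℕ) (S : Finset V), S.Nonempty →
    (∀ T ⊆ S, Gᶜ.IsClique (T : Set V) → T.card ≤ b) →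
    ∃ S' ⊆ S, ∃ b' ≤ b, ∃ c : E, S'.Nonempty ∧
      δ ^ (i + 1) * (1 - δ) ^ (b - b') * (S.card : ℝ) ≤ S'.card ∧
      (∀ T ⊆ S', Gᶜ.IsClique (T : Set V) → T.card ≤ b') ∧
      ∀ v ∈ S', ‖x v - c‖ ^ 2 ≤ 1 / 2 + 1 / (2 * ((i : ℝ) + 1)) := by
  intro i
  induction i with
  | zero =>
    intro b S hS hb
    obtain ⟨S0, hS0, b', hb', hne, hc, hbl, hdeg⟩ := dense_subset G δ hδ1 b S hS hb
    obtain ⟨v, hv⟩ := hne
    have hsub : cn G S0 v ⊆ S0 := fun w hw => ((mem_cn G).1 hw).1
    refine ⟨cn G S0 v, hsub.trans hS0, b', hb', x v, ⟨v, (mem_cn G).2 ⟨hv, Or.inl rfl⟩⟩, ?_,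
      fun T hT => hbl T (hT.trans hsub), ?_⟩
    · refine le_trans ?_ (hdeg v hv)
      rw [zero_add, pow_one, mul_assoc]
      exact mul_le_mul_of_nonneg_left hc hδ0.le
    · intro w hw
      rcases ((mem_cn G).1 hw).2 with h | h
      · rw [h]; simp
      · have h1 := hG v w h
        rw [dist_comm, dist_eq_norm] at h1
        have := pow_le_pow_left₀ (norm_nonneg _) h1 2
        norm_num at this ⊢
        exact this
  | succ i ih =>
    intro b S hS hb
    obtain ⟨S1, hS1, b1, hb1, c, hne1, hc1, hbl1, hball1⟩ := ih b S hS hb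
    obtain ⟨S0, hS0, b', hb', hne, hc, hbl, hdeg⟩ := dense_subset G δ hδ1 b1 S1 hne1 hbl1
    obtain ⟨v, hv, hmax⟩ := Finset.exists_max_image S0 (fun w => ‖x w - c‖) hne
    have hsub : cn G S0 v ⊆ S0 := fun w hw => ((mem_cn G).1 hw).1
    set R : ℝ := 1 / 2 + 1 / (2 * ((i : ℝ) + 1)) with hR
    have hR1 : 1 / 2 ≤ R := by
      rw [hR]; have : 0 ≤ 1 / (2 * ((i : ℝ) + 1)) := by positivity
      linarith
    refine ⟨cn G S0 v, (hsub.trans hS0).trans hS1, b', hb'.trans hb1,
      (1 - (1 - 1 / (2 * R))) • c + (1 - 1 / (2 * R)) • x v,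
      ⟨v, (mem_cn G).2 ⟨hv, Or.inl rfl⟩⟩, ?_, fun T hT => hbl T (hT.trans hsub), ?_⟩
    · refine le_trans ?_ (hdeg v hv)
      have e : b - b' = (b - b1) + (b1 - b') := by omega
      rw [e, pow_succ δ (i + 1), pow_add (1 - δ)]
      calc δ ^ (i + 1) * δ * ((1 - δ) ^ (b - b1) * (1 - δ) ^ (b1 - b')) * (S.card : ℝ)
          = δ * ((1 - δ) ^ (b1 - b') * (δ ^ (i + 1) * (1 - δ) ^ (b - b1) * (S.card : ℝ))) := by ring
        _ ≤ δ * ((1 - δ) ^ (b1 - b') * S1.card) := by
            apply mul_le_mul_of_nonneg_left _ hδ0.le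
            exact mul_le_mul_of_nonneg_left hc1 (pow_nonneg (by linarith) _)
        _ ≤ δ * S0.card := mul_le_mul_of_nonneg_left hc hδ0.le
    · intro w hw
      obtain ⟨hw1, hw2⟩ := (mem_cn G).1 hw
      have h3 : ‖x w - x v‖ ≤ 1 := by
        rcases hw2 with h | h
        · rw [h]; simp
        · have := hG v w h
          rwa [dist_comm, dist_eq_norm] at this
      refine (geo_step hR1 c (x v) (x w) (hmax w hw1) (hball1 v (hS0 hv)) h3).trans (le_of_eq ?_)
      have hi : (0:ℝ) < (i:ℝ) + 1 := by positivity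
      rw [hR]; push_cast; field_simp; ring

end Geometry

end Pool.Agent.T2h61.SP
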