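import Mathlib
import Pool.Agent.T2h61.SP.Basic

/-!
# A weighted version of the Erdős-Szemerédi theorem
-/

set_option autoImplicit false

namespace Pool.Agent.T2h61.SP

open Real Finset

theorem pattern_count {V : Type} [DecidableEq V] (T : Finset V) (q a : ℕ) (hq : 1 ≤ q)
    (hT : T.card ≤ q * a) :
    ((T.powerset.filter (fun P => P.card ≤ a)).card : ℝ) ≤ exp a * (q : ℝ) ^ a := by
  have hq0 : (0:ℝ) < q := by exact_mod_cast hq
  have h1 : ∑ P ∈ T.powerset, (1 / (q:ℝ)) ^ P.card = (1 / (q:ℝ) + 1) ^ T.card := by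
    have := Finset.prod_add (fun _ : V => 1 / (q:ℝ)) (fun _ => (1:ℝ)) T
    simpa using this.symm
  have h2 : (1 / (q:ℝ) + 1) ^ T.card ≤ exp a := by
    have h3 : (1 / (q:ℝ) + 1) ^ T.card ≤ exp (1 / q) ^ T.card :=
      pow_le_pow_left₀ (by positivity) (Real.add_one_le_exp _) _
    refine h3.trans ?_
    rw [← exp_nat_mul]
    apply exp_le_exp.2
    rw [mul_one_div, div_le_iff₀ hq0]
    have : (T.card : ℝ) ≤ q * a := by exact_mod_cast hT
    linarith
  have h3 : ((T.powerset.filter (fun P => P.card ≤ a)).card : ℝ) * (1 / (q:ℝ)) ^ a ≤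
      ∑ P ∈ T.powerset, (1 / (q:ℝ)) ^ P.card := by
    rw [← nsmul_eq_mul, ← Finset.sum_const]
    refine le_trans (Finset.sum_le_sum fun P hP => ?_)
      (Finset.sum_le_sum_of_subset_of_nonneg (Finset.filter_subset _ _)
        fun P _ _ => by positivity)
    apply pow_le_pow_of_le_one (by positivity) _ (Finset.mem_filter.1 hP).2
    rw [div_le_one hq0]; exact_mod_cast hq
  have h4 := h3.trans (h1.le.trans h2)
  rw [one_div, inv_pow, ← div_eq_mul_inv, div_le_iff₀ (by positivity)] at h4
  exact h4

theorem choose_bound (q a k : ℕ) (hq : 1 ≤ q) (hqa : 2 * k ≤ q * a) :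
    (((a + k).choose a : ℕ) : ℝ) ≤ exp (3 * a / 2) * (q : ℝ) ^ a := by
  have hq0 : (0:ℝ) < q := by exact_mod_cast hq
  have hq1 : (1:ℝ) ≤ q := by exact_mod_cast hq
  have h1 : ((a + k).choose a : ℝ) * (1 / (q:ℝ)) ^ a ≤ (1 / (q:ℝ) + 1) ^ (a + k) := by
    rw [add_pow]
    refine le_trans (le_of_eq ?_) (Finset.single_le_sum (f := fun m => (1 / (q:ℝ)) ^ m *
      1 ^ (a + k - m) * ((a + k).choose m : ℝ)) (fun m _ => by positivity)
      (Finset.mem_range.2 (show a < a + k + 1 by omega)))
    simp only [one_pow]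
    ring
  have h2 : (1 / (q:ℝ) + 1) ^ (a + k) ≤ exp (3 * a / 2) := by
    have h3 : (1 / (q:ℝ) + 1) ^ (a + k) ≤ exp (1 / q) ^ (a + k) :=
      pow_le_pow_left₀ (by positivity) (Real.add_one_le_exp _) _
    refine h3.trans ?_
    rw [← exp_nat_mul]
    apply exp_le_exp.2
    rw [mul_one_div, div_le_iff₀ hq0]
    have h4 : (2 * k : ℝ) ≤ q * a := by exact_mod_cast hqa
    push_cast
    nlinarith [Nat.cast_nonneg (α := ℝ) a]
  have h4 := h1.trans h2
  rw [one_div, inv_pow, ← div_eq_mul_inv, div_le_iff₀ (by positivity)] at h4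
  exact h4

/-- weighted Erdős-Szemerédi theorem -/
theorem wes {V : Type} (G : SimpleGraph V) (S : Finset V) (w : V → ℝ)
    (hw0 : ∀ u ∈ S, 0 ≤ w u) (hw1 : ∑ u ∈ S, w u = 1) (μ : ℝ) (hμ : ∀ u ∈ S, w u ≤ μ)
    (β : ℝ) (hβ : 0 < β) (B : Finset (V × V)) (hBS : B ⊆ S ×ˢ S)
    (hB : ∀ u ∈ S, ∀ v ∈ S, u ≠ v → ¬ G.Adj u v → (u, v) ∈ B)
    (hBsum : ∑ r ∈ B, w r.1 * w r.2 ≤ β) (q a k : ℕ) (hq : 1 ≤ q) (ha : 1 ≤ a)
    (hqβ : 8 * β * q ≤ 1) (hqa : 2 * k ≤ q * a)
    (hμ2 : 8 * exp (5 * a / 2) * (q : ℝ) ^ (2 * a) * μ ≤ 1) :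
    (∃ T ⊆ S, G.IsNClique k T) ∨ (∃ T ⊆ S, Gᶜ.IsNClique k T) := by
  classical
  by_contra hcon
  push Not at hcon
  obtain ⟨hred, hblue⟩ := hcon
  have hq0 : (0:ℝ) < q := by exact_mod_cast hq
  have hq1 : (1:ℝ) ≤ q := by exact_mod_cast hq
  have ha0 : (0:ℝ) < a := by exact_mod_cast ha
  have hSne : S.Nonempty := by
    rw [Finset.nonempty_iff_ne_empty]; rintro rfl; simp at hw1
  have hμ0 : 0 < μ := by
    by_contra hneg
    push Not at hneg
    have : ∑ u ∈ S, w u ≤ 0 := Finset.sum_nonpos fun u hu => (hμ u hu).trans hneg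
    linarith
  -- blue degree
  set b : V → ℝ := fun u => ∑ v ∈ S.filter (fun v => u ≠ v ∧ ¬ G.Adj u v), w v with hb
  have hbsum : ∑ u ∈ S, w u * b u ≤ β := by
    refine le_trans ?_ hBsum
    have h1 : ∑ u ∈ S, w u * b u = ∑ r ∈ (S ×ˢ S).filter (fun r => r.1 ≠ r.2 ∧ ¬ G.Adj r.1 r.2),
        w r.1 * w r.2 := by
      rw [Finset.sum_filter, Finset.sum_product]
      refine Finset.sum_congr rfl fun u _ => ?_
      rw [hb]
      simp only
      rw [Finset.mul_sum, Finset.sum_filter]
    rw [h1]
    apply Finset.sum_le_sum_of_subset_of_nonneg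
    · intro r hr
      obtain ⟨h2, h3, h4⟩ := Finset.mem_filter.1 hr
      have h5 := Finset.mem_product.1 h2
      exact hB _ h5.1 _ h5.2 h3 h4
    · intro r hr _
      have h5 := Finset.mem_product.1 (hBS hr)
      exact mul_nonneg (hw0 _ h5.1) (hw0 _ h5.2)
  set V' := S.filter (fun u => b u ≤ 2 * β) with hV'
  have hV'S : V' ⊆ S := Finset.filter_subset _ _
  have hb0 : ∀ u, 0 ≤ b u := fun u => Finset.sum_nonneg fun v hv =>
    hw0 v (Finset.mem_filter.1 hv).1
  have hV'w : 1 / 2 ≤ ∑ u ∈ V', w u := by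
    have h1 := Finset.sum_filter_add_sum_filter_not S (fun u => b u ≤ 2 * β) w
    have h2 : (∑ u ∈ S.filter (fun u => ¬ b u ≤ 2 * β), w u) * (2 * β) ≤ β := by
      rw [Finset.sum_mul]
      refine le_trans ?_ hbsum
      refine le_trans (Finset.sum_le_sum (g := fun u => w u * b u) fun u hu => ?_)
        (Finset.sum_le_sum_of_subset_of_nonneg (Finset.filter_subset _ _)
          fun u hu _ => mul_nonneg (hw0 u hu) (hb0 u))
      obtain ⟨h3, h4⟩ := Finset.mem_filter.1 hu
      exact mul_le_mul_of_nonneg_left (not_le.1 h4).le (hw0 u h3)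
    have h3 : ∑ u ∈ S.filter (fun u => ¬ b u ≤ 2 * β), w u ≤ 1 / 2 := by
      by_contra h4
      rw [not_le] at h4
      nlinarith
    rw [hw1] at h1
    linarith
  -- the main construction
  have key : ∀ i : ℕ, i ≤ q → ∃ T Z : Finset V, T ⊆ V' ∧ T.card = i * a ∧
      (Z.card : ℝ) ≤ 4 * β * a * (i : ℝ) ^ 2 ∧
      ∀ x ∈ T \ Z, ∀ y ∈ T \ Z, x ≠ y → G.Adj x y := by
    intro i
    induction i with
    | zero =>
      intro _
      exact ⟨∅, ∅, by simp, by simp, by simp, by simp⟩
    | succ i ih =>
      intro hi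
      obtain ⟨T, Z, hTV, hTc, hZ, hcl⟩ := ih (by omega)
      have hTS : T ⊆ S := hTV.trans hV'S
      have hTq : T.card ≤ q * a := by
        rw [hTc]; exact Nat.mul_le_mul_right a (by omega)
      set P : V → Finset V := fun x => T.filter (fun z => ¬ G.Adj x z) with hP
      have hTw : ∑ u ∈ T, w u ≤ 1 / 8 := by
        have h1 : ∑ u ∈ T, w u ≤ T.card * μ := by
          rw [← nsmul_eq_mul, ← Finset.sum_const]
          exact Finset.sum_le_sum fun u hu => hμ u (hTS hu)
        have h2 : (T.card : ℝ) ≤ q * a := by exact_mod_cast hTq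
        have h3 : (q:ℝ) * a ≤ exp (5 * a / 2) * (q : ℝ) ^ (2 * a) := by
          have h4 : (a:ℝ) ≤ exp (5 * a / 2) := by
            have := Real.add_one_le_exp (5 * (a:ℝ) / 2); linarith
          have h5 : (q:ℝ) ≤ (q:ℝ) ^ (2 * a) := by
            calc (q:ℝ) = (q:ℝ) ^ 1 := (pow_one _).symm
              _ ≤ (q:ℝ) ^ (2 * a) := pow_le_pow_right₀ hq1 (by omega)
          calc (q:ℝ) * a ≤ (q:ℝ) ^ (2 * a) * exp (5 * a / 2) :=
                mul_le_mul h5 h4 ha0.le (by positivity)
            _ = _ := mul_comm _ _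
        have h4 : (T.card : ℝ) * μ ≤ exp (5 * a / 2) * (q : ℝ) ^ (2 * a) * μ :=
          mul_le_mul_of_nonneg_right (h2.trans h3) hμ0.le
        linarith
      have hPsum : ∑ x ∈ S \ T, w x * (P x).card ≤ 2 * β * T.card := by
        have h1 : ∀ x ∈ S \ T, w x * ((P x).card : ℝ) =
            ∑ z ∈ T, if x ≠ z ∧ ¬ G.Adj x z then w x else 0 := by
          intro x hx
          have hxT := (Finset.mem_sdiff.1 hx).2
          rw [hP]
          simp only
          rw [Finset.card_filter]
          push_cast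
          rw [Finset.mul_sum]
          refine Finset.sum_congr rfl fun z hz => ?_
          have hne : x ≠ z := fun h => hxT (h ▸ hz)
          by_cases h2 : G.Adj x z
          · simp [h2]
          · simp [h2, hne]
        rw [Finset.sum_congr rfl h1, Finset.sum_comm]
        have h2 : ∀ z ∈ T, (∑ x ∈ S \ T, if x ≠ z ∧ ¬ G.Adj x z then w x else 0) ≤ 2 * β := by
          intro z hz
          have h3 := (Finset.mem_filter.1 (hTV hz)).2
          refine le_trans ?_ h3
          rw [hb]
          simp only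
          rw [Finset.sum_filter]
          refine le_trans (Finset.sum_le_sum_of_subset_of_nonneg Finset.sdiff_subset
            (fun x hx _ => by split_ifs <;> [exact hw0 x hx; exact le_rfl])) ?_
          refine Finset.sum_le_sum fun x _ => ?_
          have : (x ≠ z ∧ ¬ G.Adj x z) ↔ (z ≠ x ∧ ¬ G.Adj z x) := by
            rw [G.adj_comm, ne_comm]
          simp only [this]
          exact le_rfl
        refine (Finset.sum_le_sum h2).trans (le_of_eq ?_)
        rw [Finset.sum_const, nsmul_eq_mul]; ring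
      set X := (V' \ T).filter (fun x => ((P x).card : ℝ) ≤ 8 * β * T.card) with hX
      have hXS : X ⊆ S := (Finset.filter_subset _ _).trans (Finset.sdiff_subset.trans hV'S)
      have hXw : 1 / 8 ≤ ∑ x ∈ X, w x := by
        have h1 := Finset.sum_filter_add_sum_filter_not (V' \ T)
          (fun x => ((P x).card : ℝ) ≤ 8 * β * T.card) w
        have h2 : ∑ x ∈ V' \ T, w x + ∑ x ∈ T, w x = ∑ x ∈ V', w x :=
          Finset.sum_sdiff hTV
        have h3 : ∑ x ∈ (V' \ T).filter (fun x => ¬ ((P x).card : ℝ) ≤ 8 * β * T.card), w x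
            ≤ 1 / 4 := by
          rcases Nat.eq_zero_or_pos T.card with h0 | h0
          · have h4 : (V' \ T).filter (fun x => ¬ ((P x).card : ℝ) ≤ 8 * β * T.card) = ∅ := by
              rw [Finset.filter_eq_empty_iff]
              intro x _
              have h5 : (P x).card = 0 := by
                have : (P x).card ≤ T.card := Finset.card_filter_le _ _
                omega
              rw [h5, h0]; simp
            rw [h4]; norm_num
          · have h0' : (0:ℝ) < T.card := by exact_mod_cast h0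
            have h4 : (∑ x ∈ (V' \ T).filter (fun x => ¬ ((P x).card : ℝ) ≤ 8 * β * T.card), w x) *
                (8 * β * T.card) ≤ 2 * β * T.card := by
              rw [Finset.sum_mul]
              refine le_trans ?_ hPsum
              refine le_trans (Finset.sum_le_sum (g := fun x => w x * ((P x).card : ℝ))
                fun x hx => ?_) (Finset.sum_le_sum_of_subset_of_nonneg
                  ((Finset.filter_subset _ _).trans (Finset.sdiff_subset_sdiff hV'S subset_rfl))
                  fun x hx _ => mul_nonneg (hw0 x (Finset.mem_sdiff.1 hx).1) (Nat.cast_nonneg _))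
              obtain ⟨h5, h6⟩ := Finset.mem_filter.1 hx
              exact mul_le_mul_of_nonneg_left (not_le.1 h6).le
                (hw0 x (hV'S (Finset.mem_sdiff.1 h5).1))
            by_contra h5
            rw [not_le] at h5
            have h6 : 0 < β * T.card := by positivity
            nlinarith
        linarith
      -- pigeonhole over the patterns
      set PP := T.powerset.filter (fun R => R.card ≤ a) with hPP
      have hPmem : ∀ x ∈ X, P x ∈ PP := by
        intro x hx
        refine Finset.mem_filter.2 ⟨Finset.mem_powerset.2 (Finset.filter_subset _ _), ?_⟩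
        have h1 := (Finset.mem_filter.1 hx).2
        have h2 : (T.card : ℝ) ≤ q * a := by exact_mod_cast hTq
        have h3 : ((P x).card : ℝ) ≤ a := by
          refine h1.trans ?_
          calc 8 * β * T.card ≤ 8 * β * (q * a) := mul_le_mul_of_nonneg_left h2 (by positivity)
            _ = (8 * β * q) * a := by ring
            _ ≤ 1 * a := mul_le_mul_of_nonneg_right hqβ ha0.le
            _ = a := one_mul _
        exact_mod_cast h3
      have hPPpos : 0 < PP.card := Finset.card_pos.2 ⟨∅, by simp [hPP]⟩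
      have hPPpos' : (0:ℝ) < PP.card := by exact_mod_cast hPPpos
      have hpig : ∃ R ∈ PP, 1 / 8 ≤ PP.card * ∑ x ∈ X.filter (fun x => P x = R), w x := by
        by_contra hno
        push Not at hno
        have h1 : ∑ x ∈ X, w x = ∑ R ∈ PP, ∑ x ∈ X.filter (fun x => P x = R), w x :=
          (Finset.sum_fiberwise_of_maps_to hPmem w).symm
        have h2 : ∑ R ∈ PP, (PP.card : ℝ) * ∑ x ∈ X.filter (fun x => P x = R), w x <
            ∑ _R ∈ PP, (1 / 8 : ℝ) :=
          Finset.sum_lt_sum_of_nonempty (Finset.card_pos.1 hPPpos) hno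
        rw [← Finset.mul_sum, ← h1, Finset.sum_const, nsmul_eq_mul] at h2
        have h3 := lt_of_mul_lt_mul_left h2 hPPpos'.le
        linarith
      obtain ⟨R, hRPP, hRw⟩ := hpig
      set Y := X.filter (fun x => P x = R) with hY
      have hYS : Y ⊆ S := (Finset.filter_subset _ _).trans hXS
      have hYcard : (((a + k).choose a : ℕ) : ℝ) ≤ Y.card := by
        refine (choose_bound q a k hq hqa).trans ?_
        have h1 : ∑ x ∈ Y, w x ≤ Y.card * μ := by
          rw [← nsmul_eq_mul, ← Finset.sum_const]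
          exact Finset.sum_le_sum fun u hu => hμ u (hYS hu)
        have h2 := pattern_count T q a hq hTq
        rw [← hPP] at h2
        have h3 : 1 / 8 ≤ (exp a * (q : ℝ) ^ a) * (Y.card * μ) := by
          refine hRw.trans ?_
          exact mul_le_mul h2 h1 (Finset.sum_nonneg fun u hu => hw0 u (hYS hu)) (by positivity)
        by_contra hlt
        push Not at hlt
        have h4 : (exp a * (q : ℝ) ^ a) * (Y.card * μ) <
            (exp a * (q : ℝ) ^ a) * (exp (3 * a / 2) * (q : ℝ) ^ a * μ) := by
          apply mul_lt_mul_of_pos_left _ (by positivity)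
          exact mul_lt_mul_of_pos_right hlt hμ0
        have h5 : (exp a * (q : ℝ) ^ a) * (exp (3 * a / 2) * (q : ℝ) ^ a * μ) =
            exp (5 * a / 2) * (q : ℝ) ^ (2 * a) * μ := by
          have e1 : exp (5 * (a:ℝ) / 2) = exp a * exp (3 * a / 2) := by
            rw [← exp_add]; congr 1; ring
          rw [e1, two_mul, pow_add]; ring
        rw [h5] at h4
        linarith
      have hYcard' : (a + k).choose a ≤ Y.card := by exact_mod_cast hYcard
      rcases es G a k Y hYcard' with ⟨C, hC, hCl⟩ | ⟨C, hC, hCl⟩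
      · -- a red clique of size a
        obtain ⟨C', hC', hC'c⟩ := Finset.exists_subset_card_eq (show a ≤ C.card by
          rw [hCl.card_eq]; omega)
        have hC'Y : C' ⊆ Y := hC'.trans hC
        have hdisj : Disjoint T C' := by
          rw [Finset.disjoint_left]
          intro x hxT hxC
          have h1 := (Finset.mem_filter.1 (hC'Y hxC)).1
          have h2 := (Finset.mem_filter.1 h1).1
          exact (Finset.mem_sdiff.1 h2).2 hxT
        refine ⟨T ∪ C', Z ∪ R, ?_, ?_, ?_, ?_⟩
        · refine Finset.union_subset hTV fun x hx => ?_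
          have h1 := (Finset.mem_filter.1 (hC'Y hx)).1
          have h2 := (Finset.mem_filter.1 h1).1
          exact (Finset.mem_sdiff.1 h2).1
        · rw [Finset.card_union_of_disjoint hdisj, hTc, hC'c]; ring
        · have hRcard : (R.card : ℝ) ≤ 8 * β * T.card := by
            obtain ⟨x, hx⟩ : C'.Nonempty := Finset.card_pos.1 (by omega)
            have h1 := Finset.mem_filter.1 (hC'Y hx)
            rw [← h1.2]
            exact (Finset.mem_filter.1 h1.1).2
          have h1 : ((Z ∪ R).card : ℝ) ≤ Z.card + R.card := by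
            exact_mod_cast Finset.card_union_le Z R
          rw [hTc] at hRcard
          push_cast at hRcard ⊢
          have h2 : 0 ≤ β * a := by positivity
          nlinarith
        · have hadj : ∀ x ∈ C', ∀ y ∈ T \ (Z ∪ R), G.Adj x y := by
            intro x hx y hy
            obtain ⟨hy1, hy2⟩ := Finset.mem_sdiff.1 hy
            have h1 := (Finset.mem_filter.1 (hC'Y hx)).2
            by_contra h2
            apply hy2
            refine Finset.mem_union_right _ ?_
            rw [← h1]
            exact Finset.mem_filter.2 ⟨hy1, h2⟩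
          intro x hx y hy hxy
          obtain ⟨hx1, hx2⟩ := Finset.mem_sdiff.1 hx
          obtain ⟨hy1, hy2⟩ := Finset.mem_sdiff.1 hy
          rcases Finset.mem_union.1 hx1 with hxT | hxC
          · rcases Finset.mem_union.1 hy1 with hyT | hyC
            · exact hcl x (Finset.mem_sdiff.2 ⟨hxT, fun h => hx2 (Finset.mem_union_left _ h)⟩) y
                (Finset.mem_sdiff.2 ⟨hyT, fun h => hy2 (Finset.mem_union_left _ h)⟩) hxy
            · exact (hadj y hyC x (Finset.mem_sdiff.2 ⟨hxT, hx2⟩)).symm
          · rcases Finset.mem_union.1 hy1 with hyT | hyC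
            · exact hadj x hxC y (Finset.mem_sdiff.2 ⟨hyT, hy2⟩)
            · exact hCl.isClique (hC' hxC) (hC' hyC) hxy
      · -- a blue clique
        exfalso
        obtain ⟨C', hC', hC'c⟩ := Finset.exists_subset_card_eq (show k ≤ C.card by
          rw [hCl.card_eq]; omega)
        refine hblue C' (hC'.trans (hC.trans hYS)) ?_
        rw [SimpleGraph.isNClique_iff]
        exact ⟨hCl.isClique.subset (by exact_mod_cast hC'), hC'c⟩
  obtain ⟨T, Z, hTV, hTc, hZ, hcl⟩ := key q le_rfl
  have hZ2 : (Z.card : ℝ) ≤ q * a / 2 := by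
    refine hZ.trans ?_
    have : 4 * β * a * (q:ℝ) ^ 2 = (8 * β * q) * (q * a / 2) := by ring
    rw [this]
    calc (8 * β * q) * (q * a / 2) ≤ 1 * (q * a / 2) :=
          mul_le_mul_of_nonneg_right hqβ (by positivity)
      _ = _ := one_mul _
  have hcard : k ≤ (T \ Z).card := by
    have h1 : T.card - Z.card ≤ (T \ Z).card := Finset.le_card_sdiff Z T
    have h2 : 2 * Z.card ≤ q * a := by
      have : (2 * Z.card : ℝ) ≤ q * a := by linarith
      exact_mod_cast this
    omega
  obtain ⟨C', hC', hC'c⟩ := Finset.exists_subset_card_eq hcard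
  refine hred C' (hC'.trans (Finset.sdiff_subset.trans (hTV.trans hV'S))) ?_
  rw [SimpleGraph.isNClique_iff]
  refine ⟨fun x hx y hy hxy => hcl x (hC' hx) y (hC' hy) hxy, hC'c⟩

end Pool.Agent.T2h61.SP
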