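import Mathlib
import Pool.Agent.T2h61.SP.WES
import Pool.Agent.T2h61.SP.Boost
import Pool.Agent.T2h61.SP.Shrink

/-!
# The upper bound with parameters
-/

set_option autoImplicit false

namespace Pool.Agent.T2h61.SP

open Real Finset

/-- lifting the points of a ball to a sphere in one more dimension -/
theorem lift_sphere {n d : ℕ} (x : Fin n → EuclideanSpace ℝ (Fin d)) (c : EuclideanSpace ℝ (Fin d))
    (R : ℝ) (hR : 0 < R) (S : Finset (Fin n)) (hS : ∀ v ∈ S, ‖x v - c‖ ^ 2 ≤ R) :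
    ∃ z : Fin n → Fin (d + 1) → ℝ, (∀ u ∈ S, dot z u u = 1) ∧
      ∀ u ∈ S, ∀ v ∈ S, dot z u v ≤ 1 - dist (x u) (x v) ^ 2 / (2 * R) := by
  set y : Fin n → EuclideanSpace ℝ (Fin d) := fun v => x v - c with hy
  have hn : ∀ v, ‖y v‖ ^ 2 = ∑ i, y v i ^ 2 := by
    intro v
    rw [EuclideanSpace.norm_sq_eq]
    exact Finset.sum_congr rfl fun i _ => by rw [Real.norm_eq_abs, sq_abs]
  have hsR : √R ^ 2 = R := Real.sq_sqrt hR.le
  have hsR0 : 0 < √R := Real.sqrt_pos.2 hR
  refine ⟨fun v => Fin.cons (√(R - ‖y v‖ ^ 2) / √R) (fun i => y v i / √R), ?_, ?_⟩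
  · intro u hu
    unfold dot
    rw [Fin.sum_univ_succ]
    simp only [Fin.cons_zero, Fin.cons_succ]
    have h1 : √(R - ‖y u‖ ^ 2) * √(R - ‖y u‖ ^ 2) = R - ‖y u‖ ^ 2 :=
      Real.mul_self_sqrt (sub_nonneg.2 (hS u hu))
    have h2 : ∑ i, y u i / √R * (y u i / √R) = ‖y u‖ ^ 2 / R := by
      rw [hn, Finset.sum_div]
      refine Finset.sum_congr rfl fun i _ => ?_
      rw [div_mul_div_comm, ← sq, ← sq, hsR]
    rw [h2, div_mul_div_comm, h1, ← sq, hsR]
    field_simp
    ring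
  · intro u hu v hv
    unfold dot
    rw [Fin.sum_univ_succ]
    simp only [Fin.cons_zero, Fin.cons_succ]
    have h0u : 0 ≤ R - ‖y u‖ ^ 2 := sub_nonneg.2 (hS u hu)
    have h0v : 0 ≤ R - ‖y v‖ ^ 2 := sub_nonneg.2 (hS v hv)
    have h1 : √(R - ‖y u‖ ^ 2) * √(R - ‖y v‖ ^ 2) ≤ R - (‖y u‖ ^ 2 + ‖y v‖ ^ 2) / 2 := by
      have h2 := sq_nonneg (√(R - ‖y u‖ ^ 2) - √(R - ‖y v‖ ^ 2))
      have h3 := Real.sq_sqrt h0u
      have h4 := Real.sq_sqrt h0v
      nlinarith
    have h2 : ∑ i, y u i / √R * (y v i / √R) = (∑ i, y u i * y v i) / R := by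
      rw [Finset.sum_div]
      refine Finset.sum_congr rfl fun i _ => ?_
      rw [div_mul_div_comm, ← sq, hsR]
    have h3 : dist (x u) (x v) ^ 2 = ‖y u‖ ^ 2 + ‖y v‖ ^ 2 - 2 * ∑ i, y u i * y v i := by
      have h4 : dist (x u) (x v) = ‖y u - y v‖ := by
        rw [dist_eq_norm, hy]; congr 1; simp
      rw [h4, EuclideanSpace.norm_sq_eq, hn, hn, Finset.mul_sum, ← Finset.sum_add_distrib,
        ← Finset.sum_sub_distrib]
      refine Finset.sum_congr rfl fun i _ => ?_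
      rw [Real.norm_eq_abs, sq_abs, PiLp.sub_apply]
      ring
    rw [h2, h3, div_mul_div_comm, ← sq, hsR, ← add_div, div_le_iff₀ hR]
    have h4 : (1 - (‖y u‖ ^ 2 + ‖y v‖ ^ 2 - 2 * ∑ i, y u i * y v i) / (2 * R)) * R =
        R - (‖y u‖ ^ 2 + ‖y v‖ ^ 2) / 2 + ∑ i, y u i * y v i := by
      field_simp; ring
    rw [h4]
    linarith

theorem upper_core {n d k : ℕ} (G : SimpleGraph (Fin n)) (hn : 1 ≤ n) (hG : NoMono G k)
    (hball : BallGraph G d) (i j t q a : ℕ) (δ : ℝ) (hδ0 : 0 < δ) (hδ1 : δ < 1)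
    (hi : 1 ≤ i) (hid : i ≤ d + 1) (hj : 1 ≤ j) (ht : 256 * i * (d + 1) ≤ t ^ 2)
    (htj : 2 * t ≤ i * j) (hq : 1 ≤ q) (ha : 1 ≤ a) (hqi : 32 * (q:ℝ) ≤ exp (i / 2))
    (hqa : 2 * k ≤ q * a) :
    Real.log n < j * Real.log (1 / δ) + k * Real.log (1 / (1 - δ)) + t + 5 * a +
      4 * a * Real.log q + Real.log 256 := by
  classical
  obtain ⟨x, hx⟩ := hball
  have hGd : ∀ u v, G.Adj u v → dist (x u) (x v) ≤ 1 := fun u v h => (hx u v h.ne).1 h
  have hne : (Finset.univ : Finset (Fin n)).Nonempty := by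
    rw [← Finset.card_pos, Finset.card_univ, Fintype.card_fin]; omega
  have hblue : ∀ T ⊆ (Finset.univ : Finset (Fin n)), Gᶜ.IsClique (T : Set (Fin n)) →
      T.card ≤ k := by
    intro T _ hT
    by_contra hcon
    push Not at hcon
    obtain ⟨T', hT', hc⟩ := Finset.exists_subset_card_eq hcon.le
    exact hG.2 T' (by
      rw [SimpleGraph.isNClique_iff]; exact ⟨hT.subset (by exact_mod_cast hT'), hc⟩)
  obtain ⟨S, _, b', hb', c, hSne, hSc, _, hSball⟩ :=
    shrink G x hGd δ hδ0 hδ1 (j - 1) k Finset.univ hne hblue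
  have hj0 : (0:ℝ) < j := by exact_mod_cast hj
  have ej : ((j - 1 : ℕ) : ℝ) + 1 = j := by
    rw [Nat.cast_sub hj]; push_cast; ring
  rw [ej] at hSball
  rw [show j - 1 + 1 = j by omega, Finset.card_univ, Fintype.card_fin] at hSc
  set R : ℝ := 1 / 2 + 1 / (2 * j) with hR
  have hR0 : 0 < R := by positivity
  have hRhalf : 1 / 2 ≤ R := by
    have : 0 ≤ 1 / (2 * (j:ℝ)) := by positivity
    linarith
  obtain ⟨z, hz1, hz2⟩ := lift_sphere x c R hR0 S hSball
  set B := (S ×ˢ S).filter (fun r => r.1 ≠ r.2 ∧ ¬ G.Adj r.1 r.2) with hB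
  have hBτ : ∀ r ∈ B, dot z r.1 r.2 ≤ 1 / j := by
    intro r hr
    obtain ⟨h1, h2, h3⟩ := Finset.mem_filter.1 hr
    have h4 := Finset.mem_product.1 h1
    refine (hz2 _ h4.1 _ h4.2).trans ?_
    have h5 : 1 < dist (x r.1) (x r.2) := by
      by_contra hcon
      push Not at hcon
      exact h3 ((hx _ _ h2).2 hcon)
    have h6 : 1 ≤ dist (x r.1) (x r.2) ^ 2 := by nlinarith
    have h7 : 1 / (2 * R) ≤ dist (x r.1) (x r.2) ^ 2 / (2 * R) :=
      div_le_div_of_nonneg_right h6 (by positivity)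
    have h8 : 1 - 1 / (2 * R) ≤ 1 / j := by
      have h9 : 2 * R = (j + 1) / j := by rw [hR]; field_simp
      rw [h9, one_div_div]
      rw [sub_le_iff_le_add, div_add_div _ _ hj0.ne' (by positivity), le_div_iff₀ (by positivity)]
      nlinarith
    linarith
  obtain ⟨F, hF0, hF1, hF2, hF3⟩ := boost z S hSne hz1 i t hi hid ht (1 / j)
    (by
      rw [mul_one_div, div_le_iff₀ hj0]
      have : (2 * t : ℝ) ≤ i * j := by exact_mod_cast htj
      linarith) B (Finset.filter_subset _ _) hBτ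
  set Fs := ∑ u ∈ S, F u with hFs
  set N : ℝ := (S.card : ℝ) with hN
  have hN0 : 0 < N := by rw [hN]; exact_mod_cast hSne.card_pos
  set μ := √(4 * exp ((t:ℝ) - i) / N) with hμ
  have hμsq : μ ^ 2 = 4 * exp ((t:ℝ) - i) / N := Real.sq_sqrt (by positivity)
  have hw := wes G S (fun u => F u / Fs) (fun u hu => div_nonneg (hF0 u hu) hF1.le)
    (by rw [← Finset.sum_div]; exact div_self hF1.ne') μ
    (by
      intro u hu
      apply Real.le_sqrt_of_sq_le
      rw [div_pow, div_le_iff₀ (by positivity)]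
      refine le_trans ?_ hF3
      exact Finset.single_le_sum (f := fun u => F u ^ 2) (fun u _ => sq_nonneg _) hu)
    (4 * exp (-(i / 2 : ℝ))) (by positivity) B (Finset.filter_subset _ _)
    (by
      intro u hu v hv huv hadj
      exact Finset.mem_filter.2 ⟨Finset.mem_product.2 ⟨hu, hv⟩, huv, hadj⟩)
    (by
      have : ∀ r ∈ B, F r.1 / Fs * (F r.2 / Fs) = F r.1 * F r.2 / Fs ^ 2 := by
        intro r _; rw [div_mul_div_comm, sq]
      rw [Finset.sum_congr rfl this, ← Finset.sum_div, div_le_iff₀ (by positivity)]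
      exact hF2) q a k hq ha
    (by
      rw [exp_neg]
      have h1 := exp_pos ((i:ℝ) / 2)
      have : 8 * (4 * (exp ((i:ℝ) / 2))⁻¹) * q = 32 * q / exp ((i:ℝ) / 2) := by
        rw [div_eq_mul_inv]; ring
      rw [this, div_le_one h1]
      exact hqi) hqa
  have hfail : 1 < 8 * exp (5 * a / 2) * (q : ℝ) ^ (2 * a) * μ := by
    by_contra hcon
    push Not at hcon
    rcases hw hcon with ⟨T, _, hT⟩ | ⟨T, _, hT⟩
    · exact hG.1 T hT
    · exact hG.2 T hT
  have hq0 : (0:ℝ) < q := by exact_mod_cast hq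
  have hNlt : N < 256 * exp (5 * a) * (q:ℝ) ^ (4 * a) * exp ((t:ℝ) - i) := by
    have h1 : 1 < (8 * exp (5 * a / 2) * (q : ℝ) ^ (2 * a) * μ) ^ 2 := by
      nlinarith
    have h2 : (8 * exp (5 * a / 2) * (q : ℝ) ^ (2 * a) * μ) ^ 2 =
        64 * exp (5 * a) * (q:ℝ) ^ (4 * a) * μ ^ 2 := by
      have e1 : exp (5 * (a:ℝ)) = exp (5 * a / 2) ^ 2 := by
        rw [← exp_nat_mul]; congr 1; push_cast; ring
      have e2 : (q:ℝ) ^ (4 * a) = ((q:ℝ) ^ (2 * a)) ^ 2 := by
        rw [← pow_mul]; congr 1; ring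
      rw [e1, e2]; ring
    rw [h2, hμsq, mul_div_assoc', lt_div_iff₀ hN0] at h1
    linarith
  have hlogN : Real.log N < Real.log 256 + 5 * a + 4 * a * Real.log q + t := by
    have h1 := Real.log_lt_log hN0 hNlt
    rw [Real.log_mul (by positivity) (by positivity), Real.log_mul (by positivity) (by positivity),
      Real.log_mul (by positivity) (by positivity), Real.log_exp, Real.log_exp, Real.log_pow] at h1
    push_cast at h1
    have : (0:ℝ) ≤ i := Nat.cast_nonneg i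
    linarith
  have hn0 : (0:ℝ) < n := by exact_mod_cast hn
  have hlogn : Real.log n ≤ j * Real.log (1 / δ) + k * Real.log (1 / (1 - δ)) + Real.log N := by
    have h1 : (0:ℝ) < 1 - δ := by linarith
    have h2 : δ ^ j * (1 - δ) ^ k * (n : ℝ) ≤ N := by
      refine le_trans ?_ hSc
      apply mul_le_mul_of_nonneg_right _ hn0.le
      apply mul_le_mul_of_nonneg_left _ (pow_nonneg hδ0.le _)
      exact pow_le_pow_of_le_one h1.le (by linarith) (by omega)
    have h3 := Real.log_le_log (by positivity) h2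
    rw [Real.log_mul (by positivity) (by positivity), Real.log_mul (by positivity) (by positivity),
      Real.log_pow, Real.log_pow] at h3
    rw [one_div, one_div, Real.log_inv, Real.log_inv]
    linarith
  linarith

end Pool.Agent.T2h61.SP
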