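import Mathlib
import Pool.Agent.T2h61.SP.UpperCore
import Pool.Agent.T2h61.SP.LowerAll

/-!
# The upper bound for all `k` and `d`
-/

set_option autoImplicit false

namespace Pool.Agent.T2h61.SP

open Real Finset

theorem upper_large {n d k : ℕ} (hd : 1 ≤ d) (hk : √(d:ℝ) ≤ k) (G : SimpleGraph (Fin n))
    (hn : 1 ≤ n) (hG : NoMono G k) (hball : BallGraph G d) :
    Real.log n ≤ 260 * (√(d * ell k d) + ell k d) := by
  have hd' : (1:ℝ) ≤ d := by exact_mod_cast hd
  have hd0 : (0:ℝ) < d := by linarith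
  have hsd : 1 ≤ √(d:ℝ) := by rw [Real.one_le_sqrt]; exact hd'
  have hdd : √(d:ℝ) ^ 2 = d := Real.sq_sqrt (Nat.cast_nonneg d)
  have hk0 : (0:ℝ) < k := by linarith
  set κ : ℝ := (k:ℝ) ^ 2 / d with hκ
  have hκ1 : 1 ≤ κ := by
    rw [hκ, le_div_iff₀ hd0, one_mul, ← hdd]
    exact pow_le_pow_left₀ (by positivity) hk 2
  have hsκ : √κ = k / √d := by rw [hκ, Real.sqrt_div (by positivity), Real.sqrt_sq hk0.le]
  set l := ell k d with hl
  have hl_def : l = Real.log (2 + κ) := rfl
  have hl1 : 1 ≤ l := by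
    rw [hl_def, Real.le_log_iff_exp_le (by positivity)]
    have := Real.exp_one_lt_d9
    linarith
  set s := √(d * l) with hs
  have hs0 : 0 ≤ s := Real.sqrt_nonneg _
  have hsds : √(d:ℝ) ≤ s := Real.sqrt_le_sqrt (by nlinarith)
  -- parameters
  set q := ⌈κ⌉₊ with hq
  have hq1 : κ ≤ q := Nat.le_ceil _
  have hq2 : (q:ℝ) ≤ κ + 1 := (Nat.ceil_lt_add_one (by linarith)).le
  have hqge1 : (1:ℝ) ≤ q := hκ1.trans hq1
  have hq0 : (0:ℝ) < q := by linarith
  set i := ⌈2 * Real.log (32 * q)⌉₊ with hi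
  have hlog32q : 0 ≤ Real.log (32 * q) := Real.log_nonneg (by linarith)
  have hi1 : 2 * Real.log (32 * q) ≤ i := Nat.le_ceil _
  have hi2 : (i:ℝ) ≤ 2 * Real.log (32 * q) + 1 := (Nat.ceil_lt_add_one (by positivity)).le
  have hlogq : Real.log q ≤ l := by
    rw [hl_def]; exact Real.log_le_log hq0 (by linarith)
  have hlog32 : Real.log 32 ≤ 3.5 := by
    have : (32:ℝ) = 2 ^ 5 := by norm_num
    rw [this, Real.log_pow]
    have := Real.log_two_lt_d9
    push_cast; linarith
  have hlog32' : 1 ≤ Real.log 32 := by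
    rw [Real.le_log_iff_exp_le (by norm_num)]
    have := Real.exp_one_lt_d9
    linarith
  have hi10 : (i:ℝ) ≤ 10 * l := by
    rw [Real.log_mul (by norm_num) hq0.ne'] at hi2
    linarith
  have hlogq0 : 0 ≤ Real.log q := Real.log_nonneg hqge1
  have hige : (1:ℝ) ≤ i := by
    rw [Real.log_mul (by norm_num) hq0.ne'] at hi1
    linarith
  have hi0 : (0:ℝ) < i := by linarith
  set d' := max d i with hd'def
  have hdd' : d ≤ d' := le_max_left _ _
  have hid' : i ≤ d' + 1 := (le_max_right d i).trans (Nat.le_succ _)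
  have hd'up : (d':ℝ) + 1 ≤ 2 * d + 10 * l := by
    have : (d':ℝ) ≤ d + i := by
      have : d' ≤ d + i := max_le (by omega) (by omega)
      exact_mod_cast this
    linarith
  set t := ⌈16 * √((i:ℝ) * (d' + 1))⌉₊ with ht
  have ht1 : 16 * √((i:ℝ) * (d' + 1)) ≤ t := Nat.le_ceil _
  have ht2 : (t:ℝ) ≤ 16 * √((i:ℝ) * (d' + 1)) + 1 := (Nat.ceil_lt_add_one (by positivity)).le
  have htsq : 256 * i * (d' + 1) ≤ t ^ 2 := by
    have h1 : (16 * √((i:ℝ) * (d' + 1))) ^ 2 ≤ (t:ℝ) ^ 2 := pow_le_pow_left₀ (by positivity) ht1 2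
    rw [mul_pow, Real.sq_sqrt (by positivity)] at h1
    have h2 : (256:ℝ) * i * (d' + 1) ≤ t ^ 2 := by linarith
    exact_mod_cast h2
  have htup : (t:ℝ) ≤ 80 * s + 161 * l := by
    have h1 : √((i:ℝ) * (d' + 1)) ≤ 5 * s + 10 * l := by
      apply Real.sqrt_le_iff.2
      refine ⟨by positivity, ?_⟩
      have h2 : (i:ℝ) * (d' + 1) ≤ (10 * l) * (2 * d + 10 * l) :=
        mul_le_mul hi10 hd'up (by positivity) (by positivity)
      have h3 : s ^ 2 = d * l := Real.sq_sqrt (by positivity)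
      nlinarith [mul_nonneg hs0 (show 0 ≤ l by linarith)]
    linarith
  have htpos : (0:ℝ) < t := by
    refine lt_of_lt_of_le ?_ ht1
    positivity
  set j := ⌈2 * (t:ℝ) / i⌉₊ with hj
  have hj1 : 2 * (t:ℝ) / i ≤ j := Nat.le_ceil _
  have hj2 : (j:ℝ) ≤ 2 * t / i + 1 := (Nat.ceil_lt_add_one (by positivity)).le
  have hjpos : 1 ≤ j := by
    have : (0:ℝ) < j := lt_of_lt_of_le (by positivity) hj1
    exact_mod_cast this
  have htj : 2 * t ≤ i * j := by
    rw [div_le_iff₀ hi0] at hj1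
    have : (2:ℝ) * t ≤ i * j := by linarith
    exact_mod_cast this
  set δ := √(d:ℝ) / (2 * k) with hδ
  have hδ0 : 0 < δ := by positivity
  have hδ1 : δ ≤ 1 / 2 := by
    rw [hδ, div_le_iff₀ (by positivity)]; linarith
  set a := ⌈2 * (k:ℝ) / q⌉₊ with ha
  have ha1 : 2 * (k:ℝ) / q ≤ a := Nat.le_ceil _
  have ha2 : (a:ℝ) ≤ 2 * k / q + 1 := (Nat.ceil_lt_add_one (by positivity)).le
  have hapos : 1 ≤ a := by
    have : (0:ℝ) < a := lt_of_lt_of_le (by positivity) ha1
    exact_mod_cast this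
  have hqa : 2 * k ≤ q * a := by
    rw [div_le_iff₀ hq0] at ha1
    have : (2:ℝ) * k ≤ q * a := by linarith
    exact_mod_cast this
  have hqi : 32 * (q:ℝ) ≤ exp (i / 2) := by
    rw [← Real.log_le_iff_le_exp (by positivity)]
    linarith
  have hcore := upper_core G hn hG (hball.mono hdd') i j t q a δ hδ0 (by linarith)
    (by exact_mod_cast hige) hid' hjpos htsq htj (by exact_mod_cast hqge1) hapos hqi hqa
  -- estimates
  have e1 : Real.log (1 / δ) ≤ i / 4 := by
    have h1 : 1 / δ = 2 * √κ := by rw [hsκ, hδ]; field_simp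
    have h2 : 2 * Real.log (1 / δ) = Real.log (4 * κ) := by
      have h3 : 4 * κ = (2 * √κ) ^ 2 := by rw [mul_pow, Real.sq_sqrt (by linarith)]; norm_num
      rw [h3, Real.log_pow, h1]; push_cast; ring
    have h3 : Real.log (4 * κ) ≤ Real.log (32 * q) := Real.log_le_log (by positivity) (by linarith)
    linarith
  have e2 : (j:ℝ) * Real.log (1 / δ) ≤ t / 2 + i / 4 := by
    have h1 : (j:ℝ) * Real.log (1 / δ) ≤ j * (i / 4) :=
      mul_le_mul_of_nonneg_left e1 (Nat.cast_nonneg _)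
    have h2 : (j:ℝ) * (i / 4) ≤ (2 * t / i + 1) * (i / 4) :=
      mul_le_mul_of_nonneg_right hj2 (by positivity)
    have h3 : (2 * (t:ℝ) / i + 1) * (i / 4) = t / 2 + i / 4 := by field_simp; ring
    linarith
  have e3 : (k:ℝ) * Real.log (1 / (1 - δ)) ≤ √d := by
    have h1 : Real.log (1 / (1 - δ)) ≤ 2 * δ := by
      rw [Real.log_le_iff_le_exp (by apply one_div_pos.2; linarith)]
      have h2 : 1 / (1 - δ) ≤ 1 + 2 * δ := by
        rw [div_le_iff₀ (by linarith)]; nlinarith
      have := Real.add_one_le_exp (2 * δ)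
      linarith
    have h2 : (k:ℝ) * Real.log (1 / (1 - δ)) ≤ k * (2 * δ) :=
      mul_le_mul_of_nonneg_left h1 hk0.le
    have h3 : (k:ℝ) * (2 * δ) = √d := by rw [hδ]; field_simp
    linarith
  have e4 : 5 * (a:ℝ) + 4 * a * Real.log q ≤ 26 * √d + 5 + 4 * l := by
    have h1 : (k:ℝ) / q ≤ d / k := by
      rw [div_le_div_iff₀ hq0 hk0]
      have : κ * d ≤ q * d := mul_le_mul_of_nonneg_right hq1 hd0.le
      rw [hκ, div_mul_cancel₀ _ hd0.ne'] at this
      nlinarith
    have h2 : (d:ℝ) / k ≤ √d := by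
      rw [div_le_iff₀ hk0]
      nlinarith
    have h3 : Real.log q ≤ 2 * √κ := by
      have h4 : (q:ℝ) ≤ (1 + √κ) ^ 2 := by
        have := Real.sq_sqrt (show 0 ≤ κ by linarith)
        nlinarith [Real.sqrt_nonneg κ]
      have h5 := Real.log_le_log hq0 h4
      rw [Real.log_pow] at h5
      have h6 := Real.log_le_sub_one_of_pos (show 0 < 1 + √κ by positivity)
      push_cast at h5
      linarith
    have h4 : (d:ℝ) / k * √κ = √d := by
      rw [hsκ, ← hdd]
      rw [Real.sqrt_sq (by positivity)]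
      field_simp
    have h5 : (0:ℝ) ≤ d / k := by positivity
    have h6 : 2 * (k:ℝ) / q * (5 + 4 * Real.log q) ≤ 26 * √d := by
      calc 2 * (k:ℝ) / q * (5 + 4 * Real.log q) = (k:ℝ) / q * (10 + 8 * Real.log q) := by ring
        _ ≤ d / k * (10 + 8 * Real.log q) := mul_le_mul_of_nonneg_right h1 (by positivity)
        _ ≤ d / k * (10 + 8 * (2 * √κ)) := mul_le_mul_of_nonneg_left (by linarith) h5
        _ = 10 * (d / k) + 16 * (d / k * √κ) := by ring
        _ = 10 * (d / k) + 16 * √d := by rw [h4]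
        _ ≤ 26 * √d := by linarith
    have h7 : 5 * (a:ℝ) + 4 * a * Real.log q = a * (5 + 4 * Real.log q) := by ring
    rw [h7]
    have h8 : (a:ℝ) * (5 + 4 * Real.log q) ≤ (2 * k / q + 1) * (5 + 4 * Real.log q) :=
      mul_le_mul_of_nonneg_right ha2 (by positivity)
    have h9 : (2 * (k:ℝ) / q + 1) * (5 + 4 * Real.log q) =
        2 * k / q * (5 + 4 * Real.log q) + 5 + 4 * Real.log q := by ring
    linarith
  have e5 : Real.log 256 ≤ 5.6 := by
    have : (256:ℝ) = 2 ^ 8 := by norm_num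
    rw [this, Real.log_pow]
    have := Real.log_two_lt_d9
    push_cast; linarith
  linarith

theorem upper_all (d k n : ℕ) (hd : 1 ≤ d) (hk : 1 ≤ k) (G : SimpleGraph (Fin n))
    (hG : NoMono G k) (hball : BallGraph G d) : Real.log n ≤ 260 * FF k d := by
  have hd' : (1:ℝ) ≤ d := by exact_mod_cast hd
  have hk' : (1:ℝ) ≤ k := by exact_mod_cast hk
  have hF := FF_pos (d := d) hk
  rcases Nat.eq_zero_or_pos n with hn | hn
  · rw [hn]; simp; linarith
  have hn0 : (0:ℝ) < n := by exact_mod_cast hn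
  have htriv : Real.log n ≤ 1.4 * k := by
    have h1 : (n:ℝ) ≤ 4 ^ k := by exact_mod_cast hG.lt.le
    have h2 := Real.log_le_log hn0 h1
    rw [Real.log_pow] at h2
    have h3 : Real.log 4 ≤ 1.4 := by
      have : (4:ℝ) = 2 ^ 2 := by norm_num
      rw [this, Real.log_pow]
      have := Real.log_two_lt_d9
      push_cast; linarith
    nlinarith
  have hell := ell_pos k d
  by_cases hcase : √(d:ℝ) ≤ k
  · have h1 := upper_large hd hcase G hn hG hball
    unfold FF
    rcases le_total (k:ℝ) (√(d * ell k d) + ell k d) with h | h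
    · rw [min_eq_left h]; linarith
    · rw [min_eq_right h]; exact h1
  · push Not at hcase
    have h1 : (k:ℝ) / 2 ≤ √(d * ell k d) := by
      apply Real.le_sqrt_of_sq_le
      have h2 : (k:ℝ) ^ 2 ≤ d := by
        have := pow_le_pow_left₀ (by positivity) hcase.le 2
        rwa [Real.sq_sqrt (by positivity)] at this
      have h3 : 1 / 4 ≤ ell k d := by
        unfold ell
        have h4 : Real.log 2 ≤ Real.log (2 + (k:ℝ) ^ 2 / d) :=
          Real.log_le_log (by norm_num) (by have : 0 ≤ (k:ℝ) ^ 2 / d := by positivity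
                                            linarith)
        have := Real.log_two_gt_d9
        linarith
      nlinarith
    have h2 : (k:ℝ) / 2 ≤ FF k d := by
      unfold FF
      exact le_min (by linarith) (by linarith)
    linarith

/-- The two-sided bound. -/
theorem two_sided : ∃ c C : ℝ, 0 < c ∧ 0 < C ∧ ∀ d k : ℕ, 1 ≤ d → 3 ≤ k →
    c * FF k d ≤ Real.log (hamOrder k d) ∧
    Real.log (hamOrder k d) ≤ Real.log (ballOrder k d) ∧
    Real.log (ballOrder k d) ≤ C * FF k d := by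
  obtain ⟨c, hc, h⟩ := lower_all
  refine ⟨c, 260, hc, by norm_num, fun d k hd hk => ⟨h d k hd hk, ?_, ?_⟩⟩
  · have h1 := pred_le_hamOrder k d (by omega)
    apply Real.log_le_log
    · have : 0 < hamOrder k d := by omega
      exact_mod_cast this
    · exact_mod_cast hamOrder_le_ballOrder k d (by omega)
  · have hne : {n : ℕ | ∃ G : SimpleGraph (Fin n), NoMono G k ∧ BallGraph G d}.Nonempty :=
      ⟨k - 1, ⊤, noMono_top (by omega) ⊤, (hammingGraph_top _ d).ball⟩
    obtain ⟨G, h1, h2⟩ := Nat.sSup_mem hne (bdd_ball k d)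
    exact upper_all d k _ hd (by omega) G h1 h2

end Pool.Agent.T2h61.SP
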