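import Mathlib
import Pool.Agent.T2h61.SP.UpperAll

/-!
# Growth rates, needed dimension, extremal colourings
-/

set_option autoImplicit false

namespace Pool.Agent.T2h61.SP

open Real Finset

theorem ballOrder_mono {k d d' : ℕ} (hk : 1 ≤ k) (hd : d ≤ d') :
    ballOrder k d ≤ ballOrder k d' := by
  refine csSup_le ⟨k - 1, ⊤, noMono_top (by omega) ⊤, (hammingGraph_top _ d).ball⟩ ?_
  rintro n ⟨G, h1, h2⟩
  exact le_ballOrder h1 (h2.mono hd)

/-- growth rates -/
theorem rates : ∃ c C : ℝ, 0 < c ∧ 0 < C ∧ ∀ ε : ℝ, 0 < ε → ε ≤ 1 → ∀ k : ℕ, 3 ≤ k →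
    Real.log (2 / ε) + 1 ≤ ε * k ^ 2 →
    c * √(ε * Real.log (2 / ε)) * k ≤ Real.log (hamOrder k ⌊ε * k ^ 2⌋₊) ∧
    Real.log (ballOrder k ⌊ε * k ^ 2⌋₊) ≤ C * √(ε * Real.log (2 / ε)) * k := by
  obtain ⟨c, C, hc, hC, h⟩ := two_sided
  refine ⟨c / 2, 4 * C, by positivity, by positivity, fun ε hε0 hε1 k hk hkε => ?_⟩
  set lam := Real.log (2 / ε) with hlam
  have hlam2 : Real.log 2 ≤ lam := by
    apply Real.log_le_log (by norm_num)
    rw [le_div_iff₀ hε0]; linarith
  have hl2 := Real.log_two_gt_d9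
  have hlam0 : 0 < lam := by linarith
  have hx1 : 1 ≤ ε * (k:ℝ) ^ 2 := by linarith
  set d := ⌊ε * (k:ℝ) ^ 2⌋₊ with hd
  have hd1 : 1 ≤ d := (Nat.one_le_floor_iff _).2 hx1
  have hdle : (d:ℝ) ≤ ε * k ^ 2 := Nat.floor_le (by positivity)
  have hdge : ε * (k:ℝ) ^ 2 / 2 ≤ d := by
    have h1 := Nat.lt_floor_add_one (ε * (k:ℝ) ^ 2)
    have h2 : (1:ℝ) ≤ d := by exact_mod_cast hd1
    rw [← hd] at h1
    linarith
  have hd0 : (0:ℝ) < d := by exact_mod_cast hd1
  have hk0 : (0:ℝ) < k := by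
    have : 0 < k := by omega
    exact_mod_cast this
  obtain ⟨h1, _, h3⟩ := h d k hd1 hk
  -- bounds for ell
  have hell1 : lam / 2 ≤ ell k d := by
    unfold ell
    have e1 : 1 / ε ≤ (k:ℝ) ^ 2 / d := by
      rw [div_le_div_iff₀ hε0 hd0]; linarith
    have e2 : Real.log (2 / ε) ≤ Real.log ((2 + (k:ℝ) ^ 2 / d) ^ 2) := by
      apply Real.log_le_log (by positivity)
      have e3 : 2 / ε ≤ 2 * ((k:ℝ) ^ 2 / d) := by
        calc 2 / ε = 2 * (1 / ε) := by ring
          _ ≤ _ := mul_le_mul_of_nonneg_left e1 (by norm_num)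
      have e4 : 0 ≤ (k:ℝ) ^ 2 / d := by positivity
      nlinarith
    rw [Real.log_pow] at e2
    push_cast at e2
    linarith
  have hell2 : ell k d ≤ 2 * lam := by
    unfold ell
    have e1 : (k:ℝ) ^ 2 / d ≤ 2 / ε := by
      rw [div_le_div_iff₀ hd0 hε0]; linarith
    have e2 : Real.log (2 + (k:ℝ) ^ 2 / d) ≤ Real.log ((2 / ε) ^ 2) := by
      apply Real.log_le_log (by positivity)
      have e3 : 2 ≤ 2 / ε := by rw [le_div_iff₀ hε0]; linarith
      nlinarith
    rw [Real.log_pow] at e2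
    push_cast at e2
    linarith
  have hel : ε * lam ≤ 1 := by
    have e1 : lam ≤ 2 / ε - 1 := Real.log_le_sub_one_of_pos (by positivity)
    have e2 : lam ≤ 1 / ε := by
      -- log (2 x) ≤ x for x ≥ 1
      have e3 : Real.log (2 / ε) = Real.log 2 + Real.log (1 / ε) := by
        rw [← Real.log_mul (by norm_num) (by positivity)]; congr 1; ring
      have e4 := Real.log_le_sub_one_of_pos (show 0 < 1 / ε by positivity)
      have e5 := Real.log_two_lt_d9
      rw [hlam, e3]; linarith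
    calc ε * lam ≤ ε * (1 / ε) := mul_le_mul_of_nonneg_left e2 hε0.le
      _ = 1 := by field_simp
  set s := √(ε * lam) with hs
  have hs0 : 0 < s := Real.sqrt_pos.2 (by positivity)
  have hs2 : s ^ 2 = ε * lam := Real.sq_sqrt (by positivity)
  have hs1 : s ≤ 1 := by rw [hs]; exact Real.sqrt_le_one.2 hel
  constructor
  · refine le_trans ?_ h1
    have e1 : s * k / 2 ≤ FF k d := by
      unfold FF
      refine le_min ?_ ?_
      · nlinarith
      · have e2 : s * k / 2 ≤ √(d * ell k d) := by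
          apply Real.le_sqrt_of_sq_le
          have e3 : (s * k / 2) ^ 2 = (ε * k ^ 2 / 2) * (lam / 2) := by
            rw [div_pow, mul_pow, hs2]; ring
          rw [e3]
          exact mul_le_mul hdge hell1 (by positivity) hd0.le
        have := ell_pos k d
        linarith
    nlinarith
  · refine h3.trans ?_
    have e1 : FF k d ≤ 4 * (s * k) := by
      refine (min_le_right _ _).trans ?_
      have e2 : √(d * ell k d) ≤ 2 * (s * k) := by
        apply Real.sqrt_le_iff.2
        refine ⟨by positivity, ?_⟩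
        have e3 : (2 * (s * k)) ^ 2 = 4 * ((ε * k ^ 2) * lam) := by
          rw [mul_pow, mul_pow, hs2]; ring
        rw [e3]
        have e4 : (d:ℝ) * ell k d ≤ (ε * k ^ 2) * (2 * lam) :=
          mul_le_mul hdle hell2 (ell_pos k d).le (by positivity)
        have e5 : 0 ≤ (ε * (k:ℝ) ^ 2) * lam := by positivity
        linarith
      have e3 : ell k d ≤ 2 * (s * k) := by
        refine hell2.trans ?_
        have e4 : lam ≤ s * k := by
          have e5 : lam ^ 2 ≤ (s * k) ^ 2 := by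
            rw [mul_pow, hs2]
            have : lam * lam ≤ (ε * k ^ 2) * lam :=
              mul_le_mul_of_nonneg_right (by linarith) hlam0.le
            nlinarith
          exact le_of_sq_le_sq e5 (by positivity)
        linarith
      linarith
    nlinarith

theorem log_le_two_sqrt {x : ℝ} (hx : 0 < x) : Real.log x ≤ 2 * √x := by
  have h1 := Real.log_le_sub_one_of_pos (Real.sqrt_pos.2 hx)
  rw [Real.log_sqrt hx.le] at h1
  linarith

/-- the condition of `rates` holds for all large `k` -/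
theorem eventually_cond (ε : ℝ) (hε : 0 < ε) : ∃ K : ℕ, 3 ≤ K ∧ ∀ k : ℕ, K ≤ k →
    Real.log (2 / ε) + 1 ≤ ε * (k:ℝ) ^ 2 := by
  obtain ⟨K, hK⟩ := exists_nat_ge ((|Real.log (2 / ε)| + 1) / ε)
  refine ⟨max K 3, le_max_right _ _, fun k hk => ?_⟩
  have hkK : (K:ℝ) ≤ k := by exact_mod_cast (le_max_left _ _).trans hk
  have hk3 : (3:ℝ) ≤ k := by exact_mod_cast (le_max_right _ _).trans hk
  have h1 : |Real.log (2 / ε)| + 1 ≤ K * ε := by rwa [div_le_iff₀ hε] at hK
  have h2 := le_abs_self (Real.log (2 / ε))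
  have h3 : (k:ℝ) ≤ k ^ 2 := by nlinarith
  have h4 : (K:ℝ) * ε ≤ k ^ 2 * ε := mul_le_mul_of_nonneg_right (hkK.trans h3) hε.le
  linarith

/-- a colouring on at least `exp (θ k)` vertices needs dimension `c θ² k² / log (2 / θ)` -/
theorem needed : ∃ c : ℝ, 0 < c ∧ ∀ θ : ℝ, 0 < θ → θ ≤ 1 → ∃ K : ℕ, ∀ k : ℕ, K ≤ k →
    ∀ (n d : ℕ) (G : SimpleGraph (Fin n)), NoMono G k → BallGraph G d → exp (θ * k) ≤ n →
      c * θ ^ 2 / Real.log (2 / θ) * k ^ 2 ≤ d := by
  obtain ⟨c, C, hc, hC, h⟩ := rates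
  set C1 := max C 1 with hC1
  have hC11 : 1 ≤ C1 := le_max_right _ _
  have hCC1 : C ≤ C1 := le_max_left _ _
  set c1 := 1 / (100 * C1 ^ 4) with hc1
  have hc10 : 0 < c1 := by positivity
  have hc11 : c1 ≤ 1 := by
    rw [hc1, div_le_one (by positivity)]
    have : 1 ≤ C1 ^ 4 := one_le_pow₀ hC11
    linarith
  refine ⟨c1, hc10, fun θ hθ0 hθ1 => ?_⟩
  set lam := Real.log (2 / θ) with hlam
  have hl2 := Real.log_two_gt_d9
  have hlam2 : Real.log 2 ≤ lam := by
    apply Real.log_le_log (by norm_num)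
    rw [le_div_iff₀ hθ0]; linarith
  have hlam0 : 0 < lam := by linarith
  set ε := c1 * θ ^ 2 / lam with hε
  have hε0 : 0 < ε := by positivity
  have hε1 : ε ≤ 1 := by
    rw [hε, div_le_one hlam0]
    have h1 : c1 ≤ 1 / 100 := by
      rw [hc1]
      apply one_div_le_one_div_of_le (by norm_num)
      have : 1 ≤ C1 ^ 4 := one_le_pow₀ hC11
      linarith
    have h2 : θ ^ 2 ≤ 1 := by nlinarith
    nlinarith
  -- ε log (2 / ε) is small
  have hkey : ε * Real.log (2 / ε) ≤ (8 * √c1) * θ ^ 2 := by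
    have h1 : Real.log (2 / ε) = Real.log (2 / c1) + Real.log lam + 2 * Real.log (1 / θ) := by
      have : 2 / ε = 2 / c1 * lam * (1 / θ) ^ 2 := by rw [hε]; field_simp
      rw [this, Real.log_mul (by positivity) (by positivity),
        Real.log_mul (by positivity) (by positivity), Real.log_pow]
      push_cast; ring
    have h2 : Real.log lam ≤ lam := (Real.log_le_sub_one_of_pos hlam0).trans (by linarith)
    have h3 : Real.log (1 / θ) ≤ lam := by
      apply Real.log_le_log (by positivity)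
      exact div_le_div_of_nonneg_right (by norm_num) hθ0.le
    have h4 : Real.log (2 / c1) ≤ 5 / √c1 * lam := by
      have h5 := log_le_two_sqrt (show 0 < 2 / c1 by positivity)
      rw [Real.sqrt_div (by norm_num)] at h5
      have h6 : √2 ≤ 1.5 := by
        rw [Real.sqrt_le_left (by norm_num)]; norm_num
      have hsq : 0 < √c1 := Real.sqrt_pos.2 hc10
      calc Real.log (2 / c1) ≤ 2 * (√2 / √c1) := h5
        _ = (2 * √2) / √c1 := by ring
        _ ≤ (5 * lam) / √c1 := by
            apply div_le_div_of_nonneg_right _ hsq.le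
            linarith
        _ = _ := by ring
    have h5 : Real.log (2 / ε) ≤ (5 / √c1 + 3) * lam := by rw [h1]; linarith
    have h6 : ε * Real.log (2 / ε) ≤ ε * ((5 / √c1 + 3) * lam) :=
      mul_le_mul_of_nonneg_left h5 hε0.le
    refine h6.trans ?_
    have hsq : 0 < √c1 := Real.sqrt_pos.2 hc10
    have hsq2 : √c1 * √c1 = c1 := Real.mul_self_sqrt hc10.le
    have hsq1 : √c1 ≤ 1 := Real.sqrt_le_one.2 hc11
    have h7 : ε * ((5 / √c1 + 3) * lam) = (c1 * (5 / √c1 + 3)) * θ ^ 2 := by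
      rw [hε]; field_simp
    rw [h7]
    apply mul_le_mul_of_nonneg_right _ (by positivity)
    have h8 : c1 * (5 / √c1 + 3) = 5 * √c1 + 3 * c1 := by
      nth_rw 1 [← hsq2]; field_simp
      nlinarith
    rw [h8]
    nlinarith
  have hsqc1 : √c1 = 1 / (10 * C1 ^ 2) := by
    have : c1 = (1 / (10 * C1 ^ 2)) ^ 2 := by rw [hc1]; field_simp; norm_num
    rw [this, Real.sqrt_sq (by positivity)]
  have hrate : C * √(ε * Real.log (2 / ε)) < θ := by
    have h1 : √(ε * Real.log (2 / ε)) ≤ √((8 * √c1) * θ ^ 2) := Real.sqrt_le_sqrt hkey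
    have h2 : √((8 * √c1) * θ ^ 2) = √(8 * √c1) * θ := by
      rw [Real.sqrt_mul (by positivity), Real.sqrt_sq hθ0.le]
    have h3 : √(8 * √c1) ≤ 0.9 / C1 := by
      apply Real.sqrt_le_iff.2
      refine ⟨by positivity, ?_⟩
      rw [hsqc1, div_pow]
      rw [mul_one_div, div_le_div_iff₀ (by positivity) (by positivity)]
      nlinarith [sq_nonneg C1]
    rw [h2] at h1
    calc C * √(ε * Real.log (2 / ε)) ≤ C1 * (√(8 * √c1) * θ) :=
          mul_le_mul hCC1 h1 (Real.sqrt_nonneg _) (by linarith)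
      _ ≤ C1 * (0.9 / C1 * θ) := by
          apply mul_le_mul_of_nonneg_left _ (by linarith)
          exact mul_le_mul_of_nonneg_right h3 hθ0.le
      _ = 0.9 * θ := by field_simp
      _ < θ := by linarith
  obtain ⟨K, hK3, hK⟩ := eventually_cond ε hε0
  refine ⟨K, fun k hk n d G hG hball hn => ?_⟩
  have hk0 : (0:ℝ) < k := by
    have : 0 < k := by omega
    exact_mod_cast this
  by_contra hcon
  push Not at hcon
  have hdε : (d:ℝ) < ε * k ^ 2 := hcon
  have hd1 : d ≤ ⌊ε * (k:ℝ) ^ 2⌋₊ := Nat.le_floor hdε.le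
  have h1 := (h ε hε0 hε1 k (by omega) (hK k hk)).2
  have h2 : n ≤ ballOrder k ⌊ε * (k:ℝ) ^ 2⌋₊ := le_ballOrder hG (hball.mono hd1)
  have hn0 : (0:ℝ) < n := lt_of_lt_of_le (exp_pos _) hn
  have h3 : Real.log n ≤ Real.log (ballOrder k ⌊ε * (k:ℝ) ^ 2⌋₊) :=
    Real.log_le_log hn0 (by exact_mod_cast h2)
  have h4 : θ * k ≤ Real.log n := by rw [Real.le_log_iff_exp_le hn0]; exact hn
  have h5 : C * √(ε * Real.log (2 / ε)) * k < θ * k := mul_lt_mul_of_pos_right hrate hk0
  linarith

/-- and this dimension is enough, even for Hamming ball graphs -/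
theorem enough : ∃ C θ₀ : ℝ, 0 < C ∧ 0 < θ₀ ∧ ∀ θ : ℝ, 0 < θ → θ ≤ θ₀ → ∃ K : ℕ, ∀ k : ℕ, K ≤ k →
    ∃ (n d : ℕ) (G : SimpleGraph (Fin n)), NoMono G k ∧ HammingGraph G d ∧ exp (θ * k) ≤ n ∧
      (d:ℝ) ≤ C * θ ^ 2 / Real.log (2 / θ) * k ^ 2 := by
  obtain ⟨c, C, hc, hC, h⟩ := rates
  set C2 := 1 / c ^ 2 + 1 with hC2
  have hC20 : 1 ≤ C2 := by
    have : 0 < 1 / c ^ 2 := by positivity
    linarith
  refine ⟨C2, 1 / (2 * C2), by linarith, by positivity, fun θ hθ0 hθ1 => ?_⟩
  have hθC : θ * C2 ≤ 1 / 2 := by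
    rw [le_div_iff₀ (by positivity)] at hθ1
    linarith
  have hθ1' : θ ≤ 1 / 2 := by nlinarith
  set lam := Real.log (2 / θ) with hlam
  have hl2 := Real.log_two_gt_d9
  have hlam2 : Real.log 2 ≤ lam := by
    apply Real.log_le_log (by norm_num)
    rw [le_div_iff₀ hθ0]; linarith
  have hlam0 : 0 < lam := by linarith
  set ε := C2 * θ ^ 2 / lam with hε
  have hε0 : 0 < ε := by positivity
  have hε1 : ε ≤ 1 := by
    rw [hε, div_le_one hlam0]
    nlinarith
  have hloge : lam ≤ Real.log (2 / ε) := by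
    apply Real.log_le_log (by positivity)
    rw [div_le_div_iff₀ hθ0 hε0]
    have h1 : ε ≤ θ := by
      rw [hε, div_le_iff₀ hlam0]
      nlinarith
    linarith
  obtain ⟨K, hK3, hK⟩ := eventually_cond ε hε0
  refine ⟨K, fun k hk => ?_⟩
  have hk0 : (0:ℝ) < k := by
    have : 0 < k := by omega
    exact_mod_cast this
  have h1 := (h ε hε0 hε1 k (by omega) (hK k hk)).1
  set d := ⌊ε * (k:ℝ) ^ 2⌋₊ with hd
  have hne : {n : ℕ | ∃ G : SimpleGraph (Fin n), NoMono G k ∧ HammingGraph G d}.Nonempty :=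
    ⟨k - 1, ⊤, noMono_top (by omega) ⊤, hammingGraph_top _ d⟩
  obtain ⟨G, hG1, hG2⟩ := Nat.sSup_mem hne (bdd_ham k d)
  refine ⟨_, d, G, hG1, hG2, ?_, ?_⟩
  · have hpos : (0:ℝ) < (hamOrder k d : ℝ) := by
      have := pred_le_hamOrder k d (by omega)
      have : 0 < hamOrder k d := by omega
      exact_mod_cast this
    change exp (θ * k) ≤ (hamOrder k d : ℝ)
    rw [← Real.le_log_iff_exp_le hpos]
    refine le_trans ?_ h1
    apply mul_le_mul_of_nonneg_right _ hk0.le
    have h2 : θ / c ≤ √(ε * Real.log (2 / ε)) := by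
      apply Real.le_sqrt_of_sq_le
      have h3 : ε * lam ≤ ε * Real.log (2 / ε) := mul_le_mul_of_nonneg_left hloge hε0.le
      have h4 : ε * lam = C2 * θ ^ 2 := by rw [hε]; field_simp
      have h5 : (θ / c) ^ 2 = 1 / c ^ 2 * θ ^ 2 := by field_simp
      rw [h5]
      have h6 : 0 ≤ θ ^ 2 := sq_nonneg θ
      rw [hC2] at h4
      nlinarith
    rw [div_le_iff₀ hc] at h2
    linarith
  · exact Nat.floor_le (by positivity)

/-- every graph on `n` vertices is a unit ball graph in dimension `n` -/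
theorem ballGraph_all {n : ℕ} (G : SimpleGraph (Fin n)) : BallGraph G n := by
  classical
  rcases Nat.eq_zero_or_pos n with hn | hn
  · subst hn
    exact ⟨fun _ => 0, fun u => u.elim0⟩
  have hn0 : (0:ℝ) < n := by exact_mod_cast hn
  set t : ℝ := 1 / (2 * n) with ht
  set A : Fin n → Fin n → ℝ := fun u v => if G.Adj u v then 1 else 0 with hA
  set r : ℝ := 2 - 1 / n with hr
  have hr0 : 0 < r := by
    have h1 : 1 / (n:ℝ) ≤ 1 := by rw [div_le_one hn0]; exact_mod_cast hn
    linarith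
  have hsr : √r ^ 2 = r := Real.sq_sqrt hr0.le
  have hsr0 : 0 < √r := Real.sqrt_pos.2 hr0
  refine ⟨fun v => WithLp.toLp 2 (fun c => ((if v = c then 1 else 0) + t * A v c) / √r),
    fun u v huv => ?_⟩
  rw [EuclideanSpace.dist_eq, Real.sqrt_le_one]
  have h1 : ∑ c, dist ((WithLp.toLp 2 (fun c => ((if u = c then 1 else 0) + t * A u c) / √r) :
      EuclideanSpace ℝ (Fin n)) c) ((WithLp.toLp 2 (fun c => ((if v = c then 1 else 0) +
      t * A v c) / √r) : EuclideanSpace ℝ (Fin n)) c) ^ 2 =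
      (∑ c, (((if u = c then 1 else 0) - (if v = c then 1 else 0)) + t * (A u c - A v c)) ^ 2) / r := by
    rw [Finset.sum_div]
    refine Finset.sum_congr rfl fun c _ => ?_
    rw [Real.dist_eq, sq_abs]
    simp only
    rw [← sub_div, div_pow, hsr]
    congr 2
    ring
  rw [h1, div_le_one hr0]
  have h2 : ∑ c, (((if u = c then (1:ℝ) else 0) - (if v = c then 1 else 0)) +
      t * (A u c - A v c)) ^ 2 = 2 - 4 * t * A u v + t ^ 2 * ∑ c, (A u c - A v c) ^ 2 := by
    have h3 : ∀ c, (((if u = c then (1:ℝ) else 0) - (if v = c then 1 else 0)) +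
        t * (A u c - A v c)) ^ 2 = (if u = c then (1 + 2 * t * (A u c - A v c)) else 0) +
        (if v = c then (1 - 2 * t * (A u c - A v c)) else 0) + t ^ 2 * (A u c - A v c) ^ 2 := by
      intro c
      by_cases h4 : u = c
      · have h5 : v ≠ c := fun h => huv (h4.trans h.symm)
        simp [h4, h5]; ring
      · by_cases h5 : v = c
        · simp [h4, h5]; ring
        · simp [h4, h5]; ring
    rw [Finset.sum_congr rfl fun c _ => h3 c, Finset.sum_add_distrib, Finset.sum_add_distrib,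
      Finset.sum_ite_eq, Finset.sum_ite_eq, ← Finset.mul_sum]
    simp only [Finset.mem_univ, if_true]
    have h6 : A u u = 0 := by simp [hA]
    have h7 : A v v = 0 := by simp [hA]
    have h8 : A v u = A u v := by simp only [hA, G.adj_comm]
    rw [h6, h7, h8]; ring
  rw [h2]
  have h3 : 0 ≤ ∑ c, (A u c - A v c) ^ 2 := Finset.sum_nonneg fun c _ => sq_nonneg _
  have h4 : ∑ c, (A u c - A v c) ^ 2 ≤ n := by
    have : ∀ c ∈ (Finset.univ : Finset (Fin n)), (A u c - A v c) ^ 2 ≤ 1 := by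
      intro c _
      simp only [hA]
      split_ifs <;> norm_num
    refine (Finset.sum_le_sum this).trans (le_of_eq ?_)
    simp
  constructor
  · intro hadj
    have h5 : A u v = 1 := by simp [hA, hadj]
    rw [h5]
    have h6 : t ^ 2 * ∑ c, (A u c - A v c) ^ 2 ≤ t ^ 2 * n :=
      mul_le_mul_of_nonneg_left h4 (sq_nonneg t)
    have h7 : t ^ 2 * (n:ℝ) = 1 / (4 * n) := by rw [ht]; field_simp; norm_num
    have h8 : 4 * t = 2 / n := by rw [ht]; field_simp; norm_num
    have h9 : 0 < 1 / (n:ℝ) := by positivity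
    have h10 : 1 / (4 * (n:ℝ)) = (1 / n) / 4 := by field_simp
    have h11 : 2 / (n:ℝ) = 2 * (1 / n) := by ring
    rw [hr]
    rw [h7, h10] at h6
    rw [mul_one, h8, h11]
    linarith
  · intro hle
    by_contra hadj
    have h5 : A u v = 0 := by simp [hA, hadj]
    rw [h5] at hle
    have h6 : 0 ≤ t ^ 2 * ∑ c, (A u c - A v c) ^ 2 := by positivity
    have h9 : 0 < 1 / (n:ℝ) := by positivity
    rw [hr] at hle
    linarith

theorem ramsey_mem (k : ℕ) : ∀ G : SimpleGraph (Fin (ramsey k)), ¬ NoMono G k := by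
  have hne : {n : ℕ | ∀ G : SimpleGraph (Fin n), ¬ NoMono G k}.Nonempty :=
    ⟨4 ^ k, fun G hG => lt_irrefl _ hG.lt⟩
  exact Nat.sInf_mem hne

theorem NoMono.comap {n m k : ℕ} {G : SimpleGraph (Fin n)} (h : NoMono G k) (f : Fin m ↪ Fin n) :
    NoMono (G.comap f) k := by
  refine ⟨?_, ?_⟩
  · exact h.1.comap ⟨(SimpleGraph.Embedding.comap f G).toCopy⟩
  · have h1 : (G.comap f)ᶜ = Gᶜ.comap f := by
      ext u v
      simp [SimpleGraph.compl_adj]
    rw [h1]
    exact h.2.comap ⟨(SimpleGraph.Embedding.comap f Gᶜ).toCopy⟩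

theorem lt_ramsey {n k : ℕ} {G : SimpleGraph (Fin n)} (h : NoMono G k) : n < ramsey k := by
  by_contra hcon
  push Not at hcon
  exact ramsey_mem k _ (h.comap (Fin.castLEEmb hcon))

theorem exists_of_lt {n k : ℕ} (h : n < ramsey k) : ∃ G : SimpleGraph (Fin n), NoMono G k := by
  by_contra hcon
  push Not at hcon
  exact Nat.notMem_of_lt_sInf h hcon

/-- in high dimension there is no restriction -/
theorem ballOrder_eq (k d : ℕ) (hk : 1 ≤ k) (hd : ramsey k ≤ d + 1) :
    ballOrder k d + 1 = ramsey k := by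
  have h1 : ballOrder k d < ramsey k := by
    have hne : {n : ℕ | ∃ G : SimpleGraph (Fin n), NoMono G k ∧ BallGraph G d}.Nonempty :=
      ⟨k - 1, ⊤, noMono_top (by omega) ⊤, (hammingGraph_top _ d).ball⟩
    obtain ⟨G, h1, _⟩ := Nat.sSup_mem hne (bdd_ball k d)
    exact lt_ramsey h1
  have h2 : ramsey k - 1 ≤ ballOrder k d := by
    obtain ⟨G, hG⟩ := exists_of_lt (show ramsey k - 1 < ramsey k by omega)
    exact le_ballOrder hG ((ballGraph_all G).mono (by omega))
  omega

/-- a one-edge graph on `k` vertices shows `k < R(k,k)` -/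
theorem k_lt_ramsey {k : ℕ} (hk : 3 ≤ k) : k < ramsey k := by
  let G : SimpleGraph (Fin k) := SimpleGraph.fromEdgeSet {s(⟨0, by omega⟩, ⟨1, by omega⟩)}
  have hG : NoMono G k := by
    refine ⟨?_, ?_⟩
    · intro T hT
      have hT2 : T = Finset.univ := by
        apply Finset.eq_univ_of_card; rw [hT.card_eq]; simp
      have h1 := hT.isClique (show (⟨0, by omega⟩ : Fin k) ∈ (T : Set (Fin k)) by rw [hT2]; simp)
        (show (⟨2, by omega⟩ : Fin k) ∈ (T : Set (Fin k)) by rw [hT2]; simp) (by simp)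
      simp [G] at h1
    · intro T hT
      have hT2 : T = Finset.univ := by
        apply Finset.eq_univ_of_card; rw [hT.card_eq]; simp
      have h1 := hT.isClique (show (⟨0, by omega⟩ : Fin k) ∈ (T : Set (Fin k)) by rw [hT2]; simp)
        (show (⟨1, by omega⟩ : Fin k) ∈ (T : Set (Fin k)) by rw [hT2]; simp) (by simp)
      simp [G, SimpleGraph.compl_adj] at h1
  exact lt_ramsey hG

/-- extremal colourings have dimension at least `c k²` -/
theorem extremal : ∃ c : ℝ, 0 < c ∧ ∀ k : ℕ, 3 ≤ k → ∀ (n d : ℕ) (G : SimpleGraph (Fin n)),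
    NoMono G k → n + 1 = ramsey k → BallGraph G d → c * k ^ 2 ≤ d := by
  obtain ⟨c, hc, hlow⟩ := lower_all
  obtain ⟨c', hc', hneed⟩ := needed
  set θ := min c 1 with hθ
  have hθ0 : 0 < θ := lt_min hc one_pos
  have hθ1 : θ ≤ 1 := min_le_right _ _
  obtain ⟨K, hK⟩ := hneed θ hθ0 hθ1
  have hlam0 : 0 < Real.log (2 / θ) := by
    apply Real.log_pos
    rw [lt_div_iff₀ hθ0]; linarith
  set c1 := c' * θ ^ 2 / Real.log (2 / θ) with hc1
  have hc10 : 0 < c1 := by positivity
  refine ⟨min c1 (1 / ((K:ℝ) ^ 2 + 1)), lt_min hc10 (by positivity), fun k hk n d G hG hn hball => ?_⟩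
  have hk0 : (0:ℝ) < k := by
    have : 0 < k := by omega
    exact_mod_cast this
  by_cases hkK : K ≤ k
  · -- log n ≥ c k
    have h1 := hlow (k ^ 2) k (by nlinarith) hk
    have h2 : FF k (k ^ 2) = k := by
      unfold FF
      apply min_eq_left
      have h3 : ell k (k ^ 2) = Real.log 3 := by
        unfold ell
        push_cast
        rw [div_self (by positivity)]
        norm_num
      rw [h3]
      push_cast
      have h4 : 1 ≤ Real.log 3 := by
        rw [Real.le_log_iff_exp_le (by norm_num)]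
        have := Real.exp_one_lt_d9
        linarith
      have h5 : (k:ℝ) ≤ √((k:ℝ) ^ 2 * Real.log 3) := by
        apply Real.le_sqrt_of_sq_le
        nlinarith [sq_nonneg (k:ℝ)]
      linarith
    rw [h2] at h1
    have h3 : hamOrder k (k ^ 2) ≤ n := by
      have hne : {n : ℕ | ∃ G : SimpleGraph (Fin n), NoMono G k ∧
          HammingGraph G (k ^ 2)}.Nonempty :=
        ⟨k - 1, ⊤, noMono_top (by omega) ⊤, hammingGraph_top _ _⟩
      obtain ⟨G', h4, _⟩ := Nat.sSup_mem hne (bdd_ham k (k ^ 2))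
      have h5 : hamOrder k (k ^ 2) < ramsey k := lt_ramsey h4
      omega
    have hpos : (0:ℝ) < (hamOrder k (k ^ 2) : ℝ) := by
      have := pred_le_hamOrder k (k ^ 2) (by omega)
      have : 0 < hamOrder k (k ^ 2) := by omega
      exact_mod_cast this
    have h4 : exp (θ * k) ≤ n := by
      have h5 : exp (c * k) ≤ hamOrder k (k ^ 2) := by
        rw [← Real.le_log_iff_exp_le hpos]; exact h1
      have h6 : exp (θ * k) ≤ exp (c * k) :=
        exp_le_exp.2 (mul_le_mul_of_nonneg_right (min_le_left _ _) hk0.le)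
      have h7 : (hamOrder k (k ^ 2) : ℝ) ≤ n := by exact_mod_cast h3
      linarith
    refine le_trans ?_ (hK k hkK n d G hG hball h4)
    exact mul_le_mul_of_nonneg_right (min_le_left _ _) (by positivity)
  · push Not at hkK
    -- d ≥ 1
    have hd1 : 1 ≤ d := by
      by_contra hd
      have hd0 : d = 0 := by omega
      subst hd0
      obtain ⟨x, hx⟩ := hball
      have hkn : k ≤ n := by have := k_lt_ramsey hk; omega
      obtain ⟨T, _, hT⟩ := Finset.exists_subset_card_eq
        (show k ≤ (Finset.univ : Finset (Fin n)).card by simpa using hkn)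
      apply hG.1 T
      rw [SimpleGraph.isNClique_iff]
      refine ⟨fun u _ v _ huv => (hx u v huv).2 ?_, hT⟩
      have : x u = x v := by ext i; exact i.elim0
      rw [this]; simp
    have h1 : min c1 (1 / ((K:ℝ) ^ 2 + 1)) * (k:ℝ) ^ 2 ≤ 1 := by
      have h2 : min c1 (1 / ((K:ℝ) ^ 2 + 1)) * (k:ℝ) ^ 2 ≤ 1 / ((K:ℝ) ^ 2 + 1) * k ^ 2 :=
        mul_le_mul_of_nonneg_right (min_le_right _ _) (by positivity)
      refine h2.trans ?_
      rw [one_div_mul_eq_div, div_le_one (by positivity)]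
      have h3 : (k:ℝ) ≤ K := by exact_mod_cast hkK.le
      nlinarith
    have h2 : (1:ℝ) ≤ d := by exact_mod_cast hd1
    linarith

end Pool.Agent.T2h61.SP
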